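import Pool.Agent.Helper17K9.WP.Stm

/-!
# [AUT] the root sum is invariant under permutations, even sign changes and the reflection
-/

set_option autoImplicit false

namespace Pool.Agent.Helper17K9.WP

open Pool.Agent.Q10.E8 Pool.Agent.Helper17K9.EX

namespace AutL

lemma isAut_of {g g' : (Fin 8 → ℤ) → (Fin 8 → ℤ)} (h1 : ∀ v, IsE8 v → IsE8 (g v))
    (h2 : ∀ v, IsE8 v → IsE8 (g' v)) (h3 : ∀ v, IsE8 v → g' (g v) = v)
    (h4 : ∀ v, IsE8 v → g (g' v) = v)
    (h5 : ∀ u v, IsE8 u → IsE8 v → ∑ i, g u i * g v i = ∑ i, u i * v i) : IsAut g := by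
  refine ⟨⟨fun v hv => h1 v hv, ?_, ?_⟩, h5⟩
  · intro u hu v hv h
    rw [← h3 u hu, ← h3 v hv, h]
  · intro v hv
    exact ⟨g' v, h2 v hv, h4 v hv⟩

lemma perm_e8 (π : Equiv.Perm (Fin 8)) (v : Fin 8 → ℤ) (hv : IsE8 v) :
    IsE8 (fun i => v (π i)) := by
  refine ⟨fun i j => hv.1 _ _, ?_⟩
  rw [Equiv.sum_comp π v]
  exact hv.2

lemma perm_aut (π : Equiv.Perm (Fin 8)) : IsAut (fun (v : Fin 8 → ℤ) i => v (π i)) := by
  refine isAut_of (g' := fun v i => v (π⁻¹ i)) (perm_e8 π) (perm_e8 π⁻¹) ?_ ?_ ?_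
  · intro v _
    funext i
    simp
  · intro v _
    funext i
    simp
  · intro u v _ _
    exact Equiv.sum_comp π (fun i => u i * v i)

lemma flip_sum (i j : Fin 8) (hij : i ≠ j) (v : Fin 8 → ℤ) :
    ∑ l, flip i j v l = (∑ l, v l) - 2 * v i - 2 * v j := by
  have h : ∀ l, flip i j v l = v l - (if l = i then 2 * v i else 0) -
      (if l = j then 2 * v j else 0) := by
    intro l
    unfold flip
    by_cases h1 : l = i
    · subst h1
      simp [hij]
      ring
    · by_cases h2 : l = j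
      · subst h2
        simp [h1]
        ring
      · simp [h1, h2]
  rw [Finset.sum_congr rfl (fun l _ => h l), Finset.sum_sub_distrib, Finset.sum_sub_distrib]
  simp

lemma flip_flip (i j : Fin 8) (v : Fin 8 → ℤ) : flip i j (flip i j v) = v := by
  funext l
  unfold flip
  by_cases h : l = i ∨ l = j
  · simp [h]
  · simp [h]

lemma flip_e8 (i j : Fin 8) (hij : i ≠ j) (v : Fin 8 → ℤ) (hv : IsE8 v) : IsE8 (flip i j v) := by
  refine ⟨?_, ?_⟩
  · intro k l
    have h := hv.1 k l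
    unfold flip
    split_ifs <;> omega
  · rw [flip_sum i j hij]
    have h1 := hv.2
    have h2 := hv.1 i j
    omega

lemma flip_aut (i j : Fin 8) (hij : i ≠ j) : IsAut (flip i j) := by
  refine isAut_of (g' := flip i j) (flip_e8 i j hij) (flip_e8 i j hij)
    (fun v _ => flip_flip i j v) (fun v _ => flip_flip i j v) ?_
  intro u v _ _
  apply Finset.sum_congr rfl
  intro l _
  unfold flip
  split_ifs
  · ring
  · rfl

lemma rf_sum (v : Fin 8 → ℤ) (hv : IsE8 v) : ∑ i, rf v i = - ∑ i, v i := by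
  obtain ⟨s, hs⟩ : ∃ s, ∑ i, v i = 4 * s := ⟨(∑ i, v i) / 4, by have := hv.2; omega⟩
  unfold rf
  rw [Finset.sum_sub_distrib, hs, Finset.sum_const, Finset.card_univ, Fintype.card_fin]
  have : 4 * s / 4 = s := by omega
  rw [this]
  simp
  ring

lemma rf_e8 (v : Fin 8 → ℤ) (hv : IsE8 v) : IsE8 (rf v) := by
  refine ⟨?_, ?_⟩
  · intro k l
    have h := hv.1 k l
    unfold rf
    omega
  · rw [rf_sum v hv]
    have := hv.2
    omega

lemma rf_rf (v : Fin 8 → ℤ) (hv : IsE8 v) : rf (rf v) = v := by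
  funext i
  have h : rf (rf v) i = rf v i - (∑ j, rf v j) / 4 := rfl
  rw [h, rf_sum v hv]
  have h2 : rf v i = v i - (∑ j, v j) / 4 := rfl
  rw [h2]
  have := hv.2
  omega

lemma rf_aut : IsAut rf := by
  refine isAut_of (g' := rf) rf_e8 rf_e8 rf_rf rf_rf ?_
  intro u v hu hv
  obtain ⟨s, hs⟩ : ∃ s, ∑ i, u i = 4 * s := ⟨(∑ i, u i) / 4, by have := hu.2; omega⟩
  obtain ⟨t, ht⟩ : ∃ t, ∑ i, v i = 4 * t := ⟨(∑ i, v i) / 4, by have := hv.2; omega⟩
  have h1 : ∀ i, rf u i * rf v i = u i * v i - t * u i - s * v i + s * t := by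
    intro i
    unfold rf
    rw [hs, ht]
    have e1 : 4 * s / 4 = s := by omega
    have e2 : 4 * t / 4 = t := by omega
    rw [e1, e2]
    ring
  rw [Finset.sum_congr rfl (fun i _ => h1 i), Finset.sum_add_distrib, Finset.sum_sub_distrib,
    Finset.sum_sub_distrib, ← Finset.mul_sum, ← Finset.mul_sum, hs, ht, Finset.sum_const,
    Finset.card_univ, Fintype.card_fin]
  simp
  ring

end AutL

open AutL

theorem aut : S_AUT := by
  intro m φ
  have key : ∀ g : (Fin 8 → ℤ) → (Fin 8 → ℤ), IsAut g → ∀ v ∈ shell m,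
      g v ∈ shell m ∧ φ (rootSum (g v)) = φ (rootSum v) := by
    intro g hg v hv
    rw [mem_shell] at hv
    rw [mem_shell]
    exact ⟨(aut_shell hg hv.1).2 hv, by rw [rootSum_aut hg hv.1]⟩
  refine ⟨⟨?_, ?_, ?_⟩, ?_⟩
  · intro v hv π
    exact key _ (perm_aut π) v hv
  · intro v hv i j hij
    exact key _ (flip_aut i j hij) v hv
  · intro v hv
    rw [mem_shell] at hv
    exact hv.2
  · intro v hv
    refine ⟨?_, key _ rf_aut v hv⟩
    rw [mem_shell] at hv
    exact hv.1.2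

end Pool.Agent.Helper17K9.WP
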