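import Pool.Agent.Helper17K9.WP.Stm
import Pool.Agent.Helper86K9.WP.Avg

/-! Leaf EXA (helper86): sign average, expansion, permutations -/

set_option autoImplicit false
set_option maxRecDepth 4000

namespace Pool.Agent.Helper17K9.WP

open Pool.Agent.Q10.E8 Pool.Agent.Helper17K9.EX Pool.Agent.Helper86K9.WP

namespace ExaL

theorem g44 {N : ℤ} {Y : Finset (Fin 8 → ℤ)} {w : (Fin 8 → ℤ) → ℝ} (hw : WInv N Y w) (hs : Sym Y w) :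
    G Y w 4 ![4, 0, 0, 0, 0, 0, 0, 0] =
      256 * TT Y w ![4, 0, 0, 0, 0, 0, 0, 0] := by
  have h1 : 8 * G Y w 4 ![4, 0, 0, 0, 0, 0, 0, 0] =
      2048 * TT Y w ![4, 0, 0, 0, 0, 0, 0, 0] := by
    rw [G4 Y w 4 4 0 0 0, avg hw]
    simp only [TT4]
    simp only [L, Finset.mul_sum, ← Finset.sum_add_distrib]
    apply Finset.sum_congr rfl
    intro v _
    push_cast
    ring
  linarith

theorem g46 {N : ℤ} {Y : Finset (Fin 8 → ℤ)} {w : (Fin 8 → ℤ) → ℝ} (hw : WInv N Y w) (hs : Sym Y w) :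
    G Y w 6 ![4, 0, 0, 0, 0, 0, 0, 0] =
      4096 * TT Y w ![6, 0, 0, 0, 0, 0, 0, 0] := by
  have h1 : 8 * G Y w 6 ![4, 0, 0, 0, 0, 0, 0, 0] =
      32768 * TT Y w ![6, 0, 0, 0, 0, 0, 0, 0] := by
    rw [G4 Y w 6 4 0 0 0, avg hw]
    simp only [TT4]
    simp only [L, Finset.mul_sum, ← Finset.sum_add_distrib]
    apply Finset.sum_congr rfl
    intro v _
    push_cast
    ring
  linarith

theorem g24 {N : ℤ} {Y : Finset (Fin 8 → ℤ)} {w : (Fin 8 → ℤ) → ℝ} (hw : WInv N Y w) (hs : Sym Y w) :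
    G Y w 4 ![2, 2, 2, 2, 0, 0, 0, 0] =
      64 * TT Y w ![4, 0, 0, 0, 0, 0, 0, 0] + 576 * TT Y w ![2, 2, 0, 0, 0, 0, 0, 0] := by
  have h1 : 8 * G Y w 4 ![2, 2, 2, 2, 0, 0, 0, 0] =
      128 * TT Y w ![0, 0, 0, 4, 0, 0, 0, 0]
        + 768 * TT Y w ![0, 0, 2, 2, 0, 0, 0, 0]
        + 128 * TT Y w ![0, 0, 4, 0, 0, 0, 0, 0]
        + 768 * TT Y w ![0, 2, 0, 2, 0, 0, 0, 0]
        + 768 * TT Y w ![0, 2, 2, 0, 0, 0, 0, 0]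
        + 128 * TT Y w ![0, 4, 0, 0, 0, 0, 0, 0]
        + 768 * TT Y w ![2, 0, 0, 2, 0, 0, 0, 0]
        + 768 * TT Y w ![2, 0, 2, 0, 0, 0, 0, 0]
        + 768 * TT Y w ![2, 2, 0, 0, 0, 0, 0, 0]
        + 128 * TT Y w ![4, 0, 0, 0, 0, 0, 0, 0] := by
    rw [G4 Y w 4 2 2 2 2, avg hw]
    simp only [TT4]
    simp only [L, Finset.mul_sum, ← Finset.sum_add_distrib]
    apply Finset.sum_congr rfl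
    intro v _
    push_cast
    ring
  have e_0_0_0_4 : TT Y w ![0, 0, 0, 4, 0, 0, 0, 0] = TT Y w ![4, 0, 0, 0, 0, 0, 0, 0] := by
    rw [hs.s23 0 0 0 4, hs.s12 0 0 4 0, hs.s01 0 4 0 0]
  have e_0_0_2_2 : TT Y w ![0, 0, 2, 2, 0, 0, 0, 0] = TT Y w ![2, 2, 0, 0, 0, 0, 0, 0] := by
    rw [hs.s12 0 0 2 2, hs.s23 0 2 0 2, hs.s01 0 2 2 0, hs.s12 2 0 2 0]
  have e_0_0_4_0 : TT Y w ![0, 0, 4, 0, 0, 0, 0, 0] = TT Y w ![4, 0, 0, 0, 0, 0, 0, 0] := by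
    rw [hs.s12 0 0 4 0, hs.s01 0 4 0 0]
  have e_0_2_0_2 : TT Y w ![0, 2, 0, 2, 0, 0, 0, 0] = TT Y w ![2, 2, 0, 0, 0, 0, 0, 0] := by
    rw [hs.s01 0 2 0 2, hs.s23 2 0 0 2, hs.s12 2 0 2 0]
  have e_0_2_2_0 : TT Y w ![0, 2, 2, 0, 0, 0, 0, 0] = TT Y w ![2, 2, 0, 0, 0, 0, 0, 0] := by
    rw [hs.s01 0 2 2 0, hs.s12 2 0 2 0]
  have e_0_4_0_0 : TT Y w ![0, 4, 0, 0, 0, 0, 0, 0] = TT Y w ![4, 0, 0, 0, 0, 0, 0, 0] := by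
    rw [hs.s01 0 4 0 0]
  have e_2_0_0_2 : TT Y w ![2, 0, 0, 2, 0, 0, 0, 0] = TT Y w ![2, 2, 0, 0, 0, 0, 0, 0] := by
    rw [hs.s23 2 0 0 2, hs.s12 2 0 2 0]
  have e_2_0_2_0 : TT Y w ![2, 0, 2, 0, 0, 0, 0, 0] = TT Y w ![2, 2, 0, 0, 0, 0, 0, 0] := by
    rw [hs.s12 2 0 2 0]
  rw [e_0_0_0_4, e_0_0_2_2, e_0_0_4_0, e_0_2_0_2, e_0_2_2_0, e_0_4_0_0, e_2_0_0_2, e_2_0_2_0] at h1
  linarith

theorem g26 {N : ℤ} {Y : Finset (Fin 8 → ℤ)} {w : (Fin 8 → ℤ) → ℝ} (hw : WInv N Y w) (hs : Sym Y w) :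
    G Y w 6 ![2, 2, 2, 2, 0, 0, 0, 0] =
      256 * TT Y w ![6, 0, 0, 0, 0, 0, 0, 0] + 11520 * TT Y w ![4, 2, 0, 0, 0, 0, 0, 0] + 23040 * TT Y w ![2, 2, 2, 0, 0, 0, 0, 0] := by
  have h1 : 8 * G Y w 6 ![2, 2, 2, 2, 0, 0, 0, 0] =
      512 * TT Y w ![0, 0, 0, 6, 0, 0, 0, 0]
        + 7680 * TT Y w ![0, 0, 2, 4, 0, 0, 0, 0]
        + 7680 * TT Y w ![0, 0, 4, 2, 0, 0, 0, 0]
        + 512 * TT Y w ![0, 0, 6, 0, 0, 0, 0, 0]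
        + 7680 * TT Y w ![0, 2, 0, 4, 0, 0, 0, 0]
        + 46080 * TT Y w ![0, 2, 2, 2, 0, 0, 0, 0]
        + 7680 * TT Y w ![0, 2, 4, 0, 0, 0, 0, 0]
        + 7680 * TT Y w ![0, 4, 0, 2, 0, 0, 0, 0]
        + 7680 * TT Y w ![0, 4, 2, 0, 0, 0, 0, 0]
        + 512 * TT Y w ![0, 6, 0, 0, 0, 0, 0, 0]
        + 7680 * TT Y w ![2, 0, 0, 4, 0, 0, 0, 0]
        + 46080 * TT Y w ![2, 0, 2, 2, 0, 0, 0, 0]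
        + 7680 * TT Y w ![2, 0, 4, 0, 0, 0, 0, 0]
        + 46080 * TT Y w ![2, 2, 0, 2, 0, 0, 0, 0]
        + 46080 * TT Y w ![2, 2, 2, 0, 0, 0, 0, 0]
        + 7680 * TT Y w ![2, 4, 0, 0, 0, 0, 0, 0]
        + 7680 * TT Y w ![4, 0, 0, 2, 0, 0, 0, 0]
        + 7680 * TT Y w ![4, 0, 2, 0, 0, 0, 0, 0]
        + 7680 * TT Y w ![4, 2, 0, 0, 0, 0, 0, 0]
        + 512 * TT Y w ![6, 0, 0, 0, 0, 0, 0, 0] := by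
    rw [G4 Y w 6 2 2 2 2, avg hw]
    simp only [TT4]
    simp only [L, Finset.mul_sum, ← Finset.sum_add_distrib]
    apply Finset.sum_congr rfl
    intro v _
    push_cast
    ring
  have e_0_0_0_6 : TT Y w ![0, 0, 0, 6, 0, 0, 0, 0] = TT Y w ![6, 0, 0, 0, 0, 0, 0, 0] := by
    rw [hs.s23 0 0 0 6, hs.s12 0 0 6 0, hs.s01 0 6 0 0]
  have e_0_0_2_4 : TT Y w ![0, 0, 2, 4, 0, 0, 0, 0] = TT Y w ![4, 2, 0, 0, 0, 0, 0, 0] := by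
    rw [hs.s12 0 0 2 4, hs.s23 0 2 0 4, hs.s01 0 2 4 0, hs.s12 2 0 4 0, hs.s01 2 4 0 0]
  have e_0_0_4_2 : TT Y w ![0, 0, 4, 2, 0, 0, 0, 0] = TT Y w ![4, 2, 0, 0, 0, 0, 0, 0] := by
    rw [hs.s12 0 0 4 2, hs.s23 0 4 0 2, hs.s01 0 4 2 0, hs.s12 4 0 2 0]
  have e_0_0_6_0 : TT Y w ![0, 0, 6, 0, 0, 0, 0, 0] = TT Y w ![6, 0, 0, 0, 0, 0, 0, 0] := by
    rw [hs.s12 0 0 6 0, hs.s01 0 6 0 0]
  have e_0_2_0_4 : TT Y w ![0, 2, 0, 4, 0, 0, 0, 0] = TT Y w ![4, 2, 0, 0, 0, 0, 0, 0] := by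
    rw [hs.s01 0 2 0 4, hs.s23 2 0 0 4, hs.s12 2 0 4 0, hs.s01 2 4 0 0]
  have e_0_2_2_2 : TT Y w ![0, 2, 2, 2, 0, 0, 0, 0] = TT Y w ![2, 2, 2, 0, 0, 0, 0, 0] := by
    rw [hs.s01 0 2 2 2, hs.s12 2 0 2 2, hs.s23 2 2 0 2]
  have e_0_2_4_0 : TT Y w ![0, 2, 4, 0, 0, 0, 0, 0] = TT Y w ![4, 2, 0, 0, 0, 0, 0, 0] := by
    rw [hs.s01 0 2 4 0, hs.s12 2 0 4 0, hs.s01 2 4 0 0]
  have e_0_4_0_2 : TT Y w ![0, 4, 0, 2, 0, 0, 0, 0] = TT Y w ![4, 2, 0, 0, 0, 0, 0, 0] := by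
    rw [hs.s01 0 4 0 2, hs.s23 4 0 0 2, hs.s12 4 0 2 0]
  have e_0_4_2_0 : TT Y w ![0, 4, 2, 0, 0, 0, 0, 0] = TT Y w ![4, 2, 0, 0, 0, 0, 0, 0] := by
    rw [hs.s01 0 4 2 0, hs.s12 4 0 2 0]
  have e_0_6_0_0 : TT Y w ![0, 6, 0, 0, 0, 0, 0, 0] = TT Y w ![6, 0, 0, 0, 0, 0, 0, 0] := by
    rw [hs.s01 0 6 0 0]
  have e_2_0_0_4 : TT Y w ![2, 0, 0, 4, 0, 0, 0, 0] = TT Y w ![4, 2, 0, 0, 0, 0, 0, 0] := by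
    rw [hs.s23 2 0 0 4, hs.s12 2 0 4 0, hs.s01 2 4 0 0]
  have e_2_0_2_2 : TT Y w ![2, 0, 2, 2, 0, 0, 0, 0] = TT Y w ![2, 2, 2, 0, 0, 0, 0, 0] := by
    rw [hs.s12 2 0 2 2, hs.s23 2 2 0 2]
  have e_2_0_4_0 : TT Y w ![2, 0, 4, 0, 0, 0, 0, 0] = TT Y w ![4, 2, 0, 0, 0, 0, 0, 0] := by
    rw [hs.s12 2 0 4 0, hs.s01 2 4 0 0]
  have e_2_2_0_2 : TT Y w ![2, 2, 0, 2, 0, 0, 0, 0] = TT Y w ![2, 2, 2, 0, 0, 0, 0, 0] := by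
    rw [hs.s23 2 2 0 2]
  have e_2_4_0_0 : TT Y w ![2, 4, 0, 0, 0, 0, 0, 0] = TT Y w ![4, 2, 0, 0, 0, 0, 0, 0] := by
    rw [hs.s01 2 4 0 0]
  have e_4_0_0_2 : TT Y w ![4, 0, 0, 2, 0, 0, 0, 0] = TT Y w ![4, 2, 0, 0, 0, 0, 0, 0] := by
    rw [hs.s23 4 0 0 2, hs.s12 4 0 2 0]
  have e_4_0_2_0 : TT Y w ![4, 0, 2, 0, 0, 0, 0, 0] = TT Y w ![4, 2, 0, 0, 0, 0, 0, 0] := by
    rw [hs.s12 4 0 2 0]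
  rw [e_0_0_0_6, e_0_0_2_4, e_0_0_4_2, e_0_0_6_0, e_0_2_0_4, e_0_2_2_2, e_0_2_4_0, e_0_4_0_2, e_0_4_2_0, e_0_6_0_0, e_2_0_0_4, e_2_0_2_2, e_2_0_4_0, e_2_2_0_2, e_2_4_0_0, e_4_0_0_2, e_4_0_2_0] at h1
  linarith

end ExaL

theorem exa : S_TSY → S_EXA := by
  intro hT N Y w hw
  have hs : Sym Y w := sym_of (hT N Y w hw).1
  have h1 := ExaL.g44 hw hs
  have h2 := ExaL.g46 hw hs
  have h3 := ExaL.g24 hw hs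
  have h4 := ExaL.g26 hw hs
  refine ⟨?_, ?_, ?_, ?_⟩ <;> linarith

end Pool.Agent.Helper17K9.WP
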