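import Pool.Agent.Helper17K9.WP.Stm

set_option autoImplicit false

/-!
# [EXB] Expansions of degree eight in four coordinates
-/

namespace Pool.Agent.Helper17K9.WP

open Finset Pool.Agent.Q10.E8 Pool.Agent.Helper17K9.EX

namespace ExbL

/-- monomial sums in four coordinates -/
noncomputable def T4 (Y : Finset (Fin 8 → ℤ)) (w : (Fin 8 → ℤ) → ℝ) (a b c d : ℕ) : ℝ :=
  TT Y w ![a, b, c, d, 0, 0, 0, 0]

theorem T4_eq (Y : Finset (Fin 8 → ℤ)) (w : (Fin 8 → ℤ) → ℝ) (a b c d : ℕ) :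
    ∑ v ∈ Y, w v * ((v 0 : ℝ) ^ a * (v 1 : ℝ) ^ b * (v 2 : ℝ) ^ c * (v 3 : ℝ) ^ d) =
      T4 Y w a b c d := by
  unfold T4 TT
  refine sum_congr rfl fun v _ => ?_
  rw [Fin.prod_univ_eight]
  simp

theorem flip_flip (i j : Fin 8) (v : Fin 8 → ℤ) : flip i j (flip i j v) = v := by
  funext l
  unfold flip
  split_ifs <;> simp

theorem flip_sum {N : ℤ} {Y : Finset (Fin 8 → ℤ)} {w : (Fin 8 → ℤ) → ℝ} (h : WInv N Y w)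
    (i j : Fin 8) (hij : i ≠ j) (F : (Fin 8 → ℤ) → ℝ) :
    ∑ v ∈ Y, w v * F (flip i j v) = ∑ v ∈ Y, w v * F v := by
  refine sum_nbij' (flip i j) (flip i j) (fun v hv => (h.2.1 v hv i j hij).1)
    (fun v hv => (h.2.1 v hv i j hij).1) (fun v _ => flip_flip i j v)
    (fun v _ => flip_flip i j v) (fun v hv => ?_)
  rw [(h.2.1 v hv i j hij).2]

theorem s01 (hT : S_TSY) {N : ℤ} {Y : Finset (Fin 8 → ℤ)} {w : (Fin 8 → ℤ) → ℝ} (h : WInv N Y w)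
    (a b c d : ℕ) : T4 Y w a b c d = T4 Y w b a c d := by
  have h1 := (hT N Y w h).1 ![a, b, c, d, 0, 0, 0, 0] (Equiv.swap 0 1)
  unfold T4
  rw [← h1]
  congr 1
  funext i
  fin_cases i <;> rfl

theorem s12 (hT : S_TSY) {N : ℤ} {Y : Finset (Fin 8 → ℤ)} {w : (Fin 8 → ℤ) → ℝ} (h : WInv N Y w)
    (a b c d : ℕ) : T4 Y w a b c d = T4 Y w a c b d := by
  have h1 := (hT N Y w h).1 ![a, b, c, d, 0, 0, 0, 0] (Equiv.swap 1 2)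
  unfold T4
  rw [← h1]
  congr 1
  funext i
  fin_cases i <;> rfl

theorem s23 (hT : S_TSY) {N : ℤ} {Y : Finset (Fin 8 → ℤ)} {w : (Fin 8 → ℤ) → ℝ} (h : WInv N Y w)
    (a b c d : ℕ) : T4 Y w a b c d = T4 Y w a b d c := by
  have h1 := (hT N Y w h).1 ![a, b, c, d, 0, 0, 0, 0] (Equiv.swap 2 3)
  unfold T4
  rw [← h1]
  congr 1
  funext i
  fin_cases i <;> rfl

/-- the first coordinate -/
theorem g1 (Y : Finset (Fin 8 → ℤ)) (w : (Fin 8 → ℤ) → ℝ) :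
    G Y w 8 ![4, 0, 0, 0, 0, 0, 0, 0] = 65536 * T4 Y w 8 0 0 0 := by
  rw [← T4_eq, mul_sum]
  unfold G
  refine sum_congr rfl fun v _ => ?_
  rw [Fin.sum_univ_eight]
  simp
  ring

/-- two coordinates -/
theorem g2 {N : ℤ} {Y : Finset (Fin 8 → ℤ)} {w : (Fin 8 → ℤ) → ℝ} (h : WInv N Y w) :
    2 * G Y w 8 ![2, 2, 0, 0, 0, 0, 0, 0] = 256 * (
      2 * T4 Y w 0 8 0 0 + 56 * T4 Y w 2 6 0 0 + 140 * T4 Y w 4 4 0 0 + 56 * T4 Y w 6 2 0 0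
      + 2 * T4 Y w 8 0 0 0) := by
  have e1 : ∀ F : (Fin 8 → ℤ) → ℝ, ∑ v ∈ Y, w v * F v + ∑ v ∈ Y, w v * F (flip 1 7 v) =
      2 * ∑ v ∈ Y, w v * F v := by
    intro F
    rw [flip_sum h 1 7 (by decide)]
    ring
  have e2 := e1 (fun v => (∑ i, ((![2, 2, 0, 0, 0, 0, 0, 0] : Fin 8 → ℤ) i : ℝ) * (v i : ℝ)) ^ 8)
  unfold G
  rw [← e2, ← sum_add_distrib]
  simp only [← T4_eq, mul_sum, ← sum_add_distrib]
  refine sum_congr rfl fun v _ => ?_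
  simp only [Fin.sum_univ_eight, flip]
  simp
  ring

/-- four coordinates -/
theorem g4 {N : ℤ} {Y : Finset (Fin 8 → ℤ)} {w : (Fin 8 → ℤ) → ℝ} (h : WInv N Y w) :
    8 * G Y w 8 ![2, 2, 2, 2, 0, 0, 0, 0] = 256 * (
      8 * T4 Y w 0 0 0 8 + 224 * T4 Y w 0 0 2 6 + 560 * T4 Y w 0 0 4 4 + 224 * T4 Y w 0 0 6 2
      + 8 * T4 Y w 0 0 8 0 + 224 * T4 Y w 0 2 0 6 + 3360 * T4 Y w 0 2 2 4
      + 3360 * T4 Y w 0 2 4 2 + 224 * T4 Y w 0 2 6 0 + 560 * T4 Y w 0 4 0 4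
      + 3360 * T4 Y w 0 4 2 2 + 560 * T4 Y w 0 4 4 0 + 224 * T4 Y w 0 6 0 2
      + 224 * T4 Y w 0 6 2 0 + 8 * T4 Y w 0 8 0 0 + 224 * T4 Y w 2 0 0 6
      + 3360 * T4 Y w 2 0 2 4 + 3360 * T4 Y w 2 0 4 2 + 224 * T4 Y w 2 0 6 0
      + 3360 * T4 Y w 2 2 0 4 + 20160 * T4 Y w 2 2 2 2 + 3360 * T4 Y w 2 2 4 0
      + 3360 * T4 Y w 2 4 0 2 + 3360 * T4 Y w 2 4 2 0 + 224 * T4 Y w 2 6 0 0
      + 560 * T4 Y w 4 0 0 4 + 3360 * T4 Y w 4 0 2 2 + 560 * T4 Y w 4 0 4 0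
      + 3360 * T4 Y w 4 2 0 2 + 3360 * T4 Y w 4 2 2 0 + 560 * T4 Y w 4 4 0 0
      + 224 * T4 Y w 6 0 0 2 + 224 * T4 Y w 6 0 2 0 + 224 * T4 Y w 6 2 0 0 + 8 * T4 Y w 8 0 0 0) := by
  have e1 : ∀ F : (Fin 8 → ℤ) → ℝ, ∑ v ∈ Y, w v * F v + ∑ v ∈ Y, w v * F (flip 1 7 v) +
      ∑ v ∈ Y, w v * F (flip 2 7 v) + ∑ v ∈ Y, w v * F (flip 3 7 v) +
      ∑ v ∈ Y, w v * F (flip 1 2 v) + ∑ v ∈ Y, w v * F (flip 1 3 v) +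
      ∑ v ∈ Y, w v * F (flip 2 3 v) + ∑ v ∈ Y, w v * F (flip 0 7 v) =
      8 * ∑ v ∈ Y, w v * F v := by
    intro F
    rw [flip_sum h 1 7 (by decide), flip_sum h 2 7 (by decide), flip_sum h 3 7 (by decide),
      flip_sum h 1 2 (by decide), flip_sum h 1 3 (by decide), flip_sum h 2 3 (by decide),
      flip_sum h 0 7 (by decide)]
    ring
  have e2 := e1 (fun v => (∑ i, ((![2, 2, 2, 2, 0, 0, 0, 0] : Fin 8 → ℤ) i : ℝ) * (v i : ℝ)) ^ 8)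
  unfold G
  rw [← e2]
  simp only [← T4_eq, mul_sum, ← sum_add_distrib]
  refine sum_congr rfl fun v _ => ?_
  simp only [Fin.sum_univ_eight, flip]
  simp
  ring

end ExbL

open ExbL in
theorem exb : S_TSY → S_EXB := by
  intro hT N Y w h
  refine ⟨g1 Y w, ?_, ?_⟩
  · have h1 := g2 h
    change G Y w 8 ![2, 2, 0, 0, 0, 0, 0, 0] = 256 * (2 * T4 Y w 8 0 0 0 + 56 * T4 Y w 6 2 0 0
      + 70 * T4 Y w 4 4 0 0)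
    rw [s01 hT h 0 8 0 0, s01 hT h 2 6 0 0] at h1
    linarith
  · have h1 := g4 h
    change G Y w 8 ![2, 2, 2, 2, 0, 0, 0, 0] = 256 * (4 * T4 Y w 8 0 0 0 + 336 * T4 Y w 6 2 0 0
      + 420 * T4 Y w 4 4 0 0 + 5040 * T4 Y w 4 2 2 0 + 2520 * T4 Y w 2 2 2 2)
    have r1 : T4 Y w 0 0 0 8 = T4 Y w 8 0 0 0 := by
      rw [s23 hT h 0 0 0 8, s12 hT h 0 0 8 0, s01 hT h 0 8 0 0]
    have r2 : T4 Y w 0 0 2 6 = T4 Y w 6 2 0 0 := by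
      rw [
        s12 hT h 0 0 2 6, s01 hT h 0 2 0 6, s23 hT h 2 0 0 6, s12 hT h 2 0 6 0,
        s01 hT h 2 6 0 0]
    have r3 : T4 Y w 0 0 4 4 = T4 Y w 4 4 0 0 := by
      rw [s12 hT h 0 0 4 4, s01 hT h 0 4 0 4, s23 hT h 4 0 0 4, s12 hT h 4 0 4 0]
    have r4 : T4 Y w 0 0 6 2 = T4 Y w 6 2 0 0 := by
      rw [s12 hT h 0 0 6 2, s01 hT h 0 6 0 2, s23 hT h 6 0 0 2, s12 hT h 6 0 2 0]
    have r5 : T4 Y w 0 0 8 0 = T4 Y w 8 0 0 0 := by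
      rw [s12 hT h 0 0 8 0, s01 hT h 0 8 0 0]
    have r6 : T4 Y w 0 2 0 6 = T4 Y w 6 2 0 0 := by
      rw [s01 hT h 0 2 0 6, s23 hT h 2 0 0 6, s12 hT h 2 0 6 0, s01 hT h 2 6 0 0]
    have r7 : T4 Y w 0 2 2 4 = T4 Y w 4 2 2 0 := by
      rw [
        s01 hT h 0 2 2 4, s12 hT h 2 0 2 4, s23 hT h 2 2 0 4, s12 hT h 2 2 4 0,
        s01 hT h 2 4 2 0]
    have r8 : T4 Y w 0 2 4 2 = T4 Y w 4 2 2 0 := by
      rw [s01 hT h 0 2 4 2, s12 hT h 2 0 4 2, s01 hT h 2 4 0 2, s23 hT h 4 2 0 2]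
    have r9 : T4 Y w 0 2 6 0 = T4 Y w 6 2 0 0 := by
      rw [s01 hT h 0 2 6 0, s12 hT h 2 0 6 0, s01 hT h 2 6 0 0]
    have r10 : T4 Y w 0 4 0 4 = T4 Y w 4 4 0 0 := by
      rw [s01 hT h 0 4 0 4, s23 hT h 4 0 0 4, s12 hT h 4 0 4 0]
    have r11 : T4 Y w 0 4 2 2 = T4 Y w 4 2 2 0 := by
      rw [s01 hT h 0 4 2 2, s12 hT h 4 0 2 2, s23 hT h 4 2 0 2]
    have r12 : T4 Y w 0 4 4 0 = T4 Y w 4 4 0 0 := by
      rw [s01 hT h 0 4 4 0, s12 hT h 4 0 4 0]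
    have r13 : T4 Y w 0 6 0 2 = T4 Y w 6 2 0 0 := by
      rw [s01 hT h 0 6 0 2, s23 hT h 6 0 0 2, s12 hT h 6 0 2 0]
    have r14 : T4 Y w 0 6 2 0 = T4 Y w 6 2 0 0 := by
      rw [s01 hT h 0 6 2 0, s12 hT h 6 0 2 0]
    have r15 : T4 Y w 0 8 0 0 = T4 Y w 8 0 0 0 := by
      rw [s01 hT h 0 8 0 0]
    have r16 : T4 Y w 2 0 0 6 = T4 Y w 6 2 0 0 := by
      rw [s23 hT h 2 0 0 6, s12 hT h 2 0 6 0, s01 hT h 2 6 0 0]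
    have r17 : T4 Y w 2 0 2 4 = T4 Y w 4 2 2 0 := by
      rw [s12 hT h 2 0 2 4, s23 hT h 2 2 0 4, s12 hT h 2 2 4 0, s01 hT h 2 4 2 0]
    have r18 : T4 Y w 2 0 4 2 = T4 Y w 4 2 2 0 := by
      rw [s12 hT h 2 0 4 2, s01 hT h 2 4 0 2, s23 hT h 4 2 0 2]
    have r19 : T4 Y w 2 0 6 0 = T4 Y w 6 2 0 0 := by
      rw [s12 hT h 2 0 6 0, s01 hT h 2 6 0 0]
    have r20 : T4 Y w 2 2 0 4 = T4 Y w 4 2 2 0 := by
      rw [s23 hT h 2 2 0 4, s12 hT h 2 2 4 0, s01 hT h 2 4 2 0]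
    have r21 : T4 Y w 2 2 4 0 = T4 Y w 4 2 2 0 := by
      rw [s12 hT h 2 2 4 0, s01 hT h 2 4 2 0]
    have r22 : T4 Y w 2 4 0 2 = T4 Y w 4 2 2 0 := by
      rw [s01 hT h 2 4 0 2, s23 hT h 4 2 0 2]
    have r23 : T4 Y w 2 4 2 0 = T4 Y w 4 2 2 0 := by
      rw [s01 hT h 2 4 2 0]
    have r24 : T4 Y w 2 6 0 0 = T4 Y w 6 2 0 0 := by
      rw [s01 hT h 2 6 0 0]
    have r25 : T4 Y w 4 0 0 4 = T4 Y w 4 4 0 0 := by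
      rw [s23 hT h 4 0 0 4, s12 hT h 4 0 4 0]
    have r26 : T4 Y w 4 0 2 2 = T4 Y w 4 2 2 0 := by
      rw [s12 hT h 4 0 2 2, s23 hT h 4 2 0 2]
    have r27 : T4 Y w 4 0 4 0 = T4 Y w 4 4 0 0 := by
      rw [s12 hT h 4 0 4 0]
    have r28 : T4 Y w 4 2 0 2 = T4 Y w 4 2 2 0 := by
      rw [s23 hT h 4 2 0 2]
    have r29 : T4 Y w 6 0 0 2 = T4 Y w 6 2 0 0 := by
      rw [s23 hT h 6 0 0 2, s12 hT h 6 0 2 0]
    have r30 : T4 Y w 6 0 2 0 = T4 Y w 6 2 0 0 := by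
      rw [s12 hT h 6 0 2 0]
    rw [
      r1, r2, r3, r4, r5, r6, r7, r8, r9, r10, r11, r12, r13, r14, r15, r16, r17, r18, r19,
      r20, r21, r22, r23, r24, r25, r26, r27, r28, r29, r30] at h1
    linarith

end Pool.Agent.Helper17K9.WP
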