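import Pool.Agent.Helper17K9.WP.Stm
import Pool.Agent.Helper86K9.WP.Avg

/-! Leaf EXD (helper86): sign average, expansion, permutations -/

set_option autoImplicit false
set_option maxRecDepth 4000

namespace Pool.Agent.Helper17K9.WP

open Pool.Agent.Q10.E8 Pool.Agent.Helper17K9.EX Pool.Agent.Helper86K9.WP

namespace ExdL

theorem g2211 {N : ℤ} {Y : Finset (Fin 8 → ℤ)} {w : (Fin 8 → ℤ) → ℝ} (hw : WInv N Y w) (hs : Sym Y w) :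
    G Y w 10 ![2, 2, 1, 1, 0, 0, 0, 0] =
      2050 * TT Y w ![10, 0, 0, 0, 0, 0, 0, 0] + 139050 * TT Y w ![8, 2, 0, 0, 0, 0, 0, 0] + 497700 * TT Y w ![6, 4, 0, 0, 0, 0, 0, 0] + 1512000 * TT Y w ![6, 2, 2, 0, 0, 0, 0, 0] + 2646000 * TT Y w ![4, 4, 2, 0, 0, 0, 0, 0] + 3024000 * TT Y w ![4, 2, 2, 2, 0, 0, 0, 0] := by
  have h1 : 8 * G Y w 10 ![2, 2, 1, 1, 0, 0, 0, 0] =
      8 * TT Y w ![0, 0, 0, 10, 0, 0, 0, 0]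
        + 360 * TT Y w ![0, 0, 2, 8, 0, 0, 0, 0]
        + 1680 * TT Y w ![0, 0, 4, 6, 0, 0, 0, 0]
        + 1680 * TT Y w ![0, 0, 6, 4, 0, 0, 0, 0]
        + 360 * TT Y w ![0, 0, 8, 2, 0, 0, 0, 0]
        + 8 * TT Y w ![0, 0, 10, 0, 0, 0, 0, 0]
        + 1440 * TT Y w ![0, 2, 0, 8, 0, 0, 0, 0]
        + 40320 * TT Y w ![0, 2, 2, 6, 0, 0, 0, 0]
        + 100800 * TT Y w ![0, 2, 4, 4, 0, 0, 0, 0]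
        + 40320 * TT Y w ![0, 2, 6, 2, 0, 0, 0, 0]
        + 1440 * TT Y w ![0, 2, 8, 0, 0, 0, 0, 0]
        + 26880 * TT Y w ![0, 4, 0, 6, 0, 0, 0, 0]
        + 403200 * TT Y w ![0, 4, 2, 4, 0, 0, 0, 0]
        + 403200 * TT Y w ![0, 4, 4, 2, 0, 0, 0, 0]
        + 26880 * TT Y w ![0, 4, 6, 0, 0, 0, 0, 0]
        + 107520 * TT Y w ![0, 6, 0, 4, 0, 0, 0, 0]
        + 645120 * TT Y w ![0, 6, 2, 2, 0, 0, 0, 0]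
        + 107520 * TT Y w ![0, 6, 4, 0, 0, 0, 0, 0]
        + 92160 * TT Y w ![0, 8, 0, 2, 0, 0, 0, 0]
        + 92160 * TT Y w ![0, 8, 2, 0, 0, 0, 0, 0]
        + 8192 * TT Y w ![0, 10, 0, 0, 0, 0, 0, 0]
        + 1440 * TT Y w ![2, 0, 0, 8, 0, 0, 0, 0]
        + 40320 * TT Y w ![2, 0, 2, 6, 0, 0, 0, 0]
        + 100800 * TT Y w ![2, 0, 4, 4, 0, 0, 0, 0]
        + 40320 * TT Y w ![2, 0, 6, 2, 0, 0, 0, 0]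
        + 1440 * TT Y w ![2, 0, 8, 0, 0, 0, 0, 0]
        + 161280 * TT Y w ![2, 2, 0, 6, 0, 0, 0, 0]
        + 2419200 * TT Y w ![2, 2, 2, 4, 0, 0, 0, 0]
        + 2419200 * TT Y w ![2, 2, 4, 2, 0, 0, 0, 0]
        + 161280 * TT Y w ![2, 2, 6, 0, 0, 0, 0, 0]
        + 1612800 * TT Y w ![2, 4, 0, 4, 0, 0, 0, 0]
        + 9676800 * TT Y w ![2, 4, 2, 2, 0, 0, 0, 0]
        + 1612800 * TT Y w ![2, 4, 4, 0, 0, 0, 0, 0]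
        + 2580480 * TT Y w ![2, 6, 0, 2, 0, 0, 0, 0]
        + 2580480 * TT Y w ![2, 6, 2, 0, 0, 0, 0, 0]
        + 368640 * TT Y w ![2, 8, 0, 0, 0, 0, 0, 0]
        + 26880 * TT Y w ![4, 0, 0, 6, 0, 0, 0, 0]
        + 403200 * TT Y w ![4, 0, 2, 4, 0, 0, 0, 0]
        + 403200 * TT Y w ![4, 0, 4, 2, 0, 0, 0, 0]
        + 26880 * TT Y w ![4, 0, 6, 0, 0, 0, 0, 0]
        + 1612800 * TT Y w ![4, 2, 0, 4, 0, 0, 0, 0]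
        + 9676800 * TT Y w ![4, 2, 2, 2, 0, 0, 0, 0]
        + 1612800 * TT Y w ![4, 2, 4, 0, 0, 0, 0, 0]
        + 6451200 * TT Y w ![4, 4, 0, 2, 0, 0, 0, 0]
        + 6451200 * TT Y w ![4, 4, 2, 0, 0, 0, 0, 0]
        + 1720320 * TT Y w ![4, 6, 0, 0, 0, 0, 0, 0]
        + 107520 * TT Y w ![6, 0, 0, 4, 0, 0, 0, 0]
        + 645120 * TT Y w ![6, 0, 2, 2, 0, 0, 0, 0]
        + 107520 * TT Y w ![6, 0, 4, 0, 0, 0, 0, 0]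
        + 2580480 * TT Y w ![6, 2, 0, 2, 0, 0, 0, 0]
        + 2580480 * TT Y w ![6, 2, 2, 0, 0, 0, 0, 0]
        + 1720320 * TT Y w ![6, 4, 0, 0, 0, 0, 0, 0]
        + 92160 * TT Y w ![8, 0, 0, 2, 0, 0, 0, 0]
        + 92160 * TT Y w ![8, 0, 2, 0, 0, 0, 0, 0]
        + 368640 * TT Y w ![8, 2, 0, 0, 0, 0, 0, 0]
        + 8192 * TT Y w ![10, 0, 0, 0, 0, 0, 0, 0] := by
    rw [G4 Y w 10 2 2 1 1, avg hw]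
    simp only [TT4]
    simp only [L, Finset.mul_sum, ← Finset.sum_add_distrib]
    apply Finset.sum_congr rfl
    intro v _
    push_cast
    ring
  have e_0_0_0_10 : TT Y w ![0, 0, 0, 10, 0, 0, 0, 0] = TT Y w ![10, 0, 0, 0, 0, 0, 0, 0] := by
    rw [hs.s23 0 0 0 10, hs.s12 0 0 10 0, hs.s01 0 10 0 0]
  have e_0_0_2_8 : TT Y w ![0, 0, 2, 8, 0, 0, 0, 0] = TT Y w ![8, 2, 0, 0, 0, 0, 0, 0] := by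
    rw [hs.s12 0 0 2 8, hs.s23 0 2 0 8, hs.s01 0 2 8 0, hs.s12 2 0 8 0, hs.s01 2 8 0 0]
  have e_0_0_4_6 : TT Y w ![0, 0, 4, 6, 0, 0, 0, 0] = TT Y w ![6, 4, 0, 0, 0, 0, 0, 0] := by
    rw [hs.s12 0 0 4 6, hs.s23 0 4 0 6, hs.s01 0 4 6 0, hs.s12 4 0 6 0, hs.s01 4 6 0 0]
  have e_0_0_6_4 : TT Y w ![0, 0, 6, 4, 0, 0, 0, 0] = TT Y w ![6, 4, 0, 0, 0, 0, 0, 0] := by
    rw [hs.s12 0 0 6 4, hs.s23 0 6 0 4, hs.s01 0 6 4 0, hs.s12 6 0 4 0]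
  have e_0_0_8_2 : TT Y w ![0, 0, 8, 2, 0, 0, 0, 0] = TT Y w ![8, 2, 0, 0, 0, 0, 0, 0] := by
    rw [hs.s12 0 0 8 2, hs.s23 0 8 0 2, hs.s01 0 8 2 0, hs.s12 8 0 2 0]
  have e_0_0_10_0 : TT Y w ![0, 0, 10, 0, 0, 0, 0, 0] = TT Y w ![10, 0, 0, 0, 0, 0, 0, 0] := by
    rw [hs.s12 0 0 10 0, hs.s01 0 10 0 0]
  have e_0_2_0_8 : TT Y w ![0, 2, 0, 8, 0, 0, 0, 0] = TT Y w ![8, 2, 0, 0, 0, 0, 0, 0] := by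
    rw [hs.s01 0 2 0 8, hs.s23 2 0 0 8, hs.s12 2 0 8 0, hs.s01 2 8 0 0]
  have e_0_2_2_6 : TT Y w ![0, 2, 2, 6, 0, 0, 0, 0] = TT Y w ![6, 2, 2, 0, 0, 0, 0, 0] := by
    rw [hs.s01 0 2 2 6, hs.s12 2 0 2 6, hs.s23 2 2 0 6, hs.s12 2 2 6 0, hs.s01 2 6 2 0]
  have e_0_2_4_4 : TT Y w ![0, 2, 4, 4, 0, 0, 0, 0] = TT Y w ![4, 4, 2, 0, 0, 0, 0, 0] := by
    rw [hs.s01 0 2 4 4, hs.s12 2 0 4 4, hs.s23 2 4 0 4, hs.s01 2 4 4 0, hs.s12 4 2 4 0]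
  have e_0_2_6_2 : TT Y w ![0, 2, 6, 2, 0, 0, 0, 0] = TT Y w ![6, 2, 2, 0, 0, 0, 0, 0] := by
    rw [hs.s01 0 2 6 2, hs.s12 2 0 6 2, hs.s23 2 6 0 2, hs.s01 2 6 2 0]
  have e_0_2_8_0 : TT Y w ![0, 2, 8, 0, 0, 0, 0, 0] = TT Y w ![8, 2, 0, 0, 0, 0, 0, 0] := by
    rw [hs.s01 0 2 8 0, hs.s12 2 0 8 0, hs.s01 2 8 0 0]
  have e_0_4_0_6 : TT Y w ![0, 4, 0, 6, 0, 0, 0, 0] = TT Y w ![6, 4, 0, 0, 0, 0, 0, 0] := by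
    rw [hs.s01 0 4 0 6, hs.s23 4 0 0 6, hs.s12 4 0 6 0, hs.s01 4 6 0 0]
  have e_0_4_2_4 : TT Y w ![0, 4, 2, 4, 0, 0, 0, 0] = TT Y w ![4, 4, 2, 0, 0, 0, 0, 0] := by
    rw [hs.s01 0 4 2 4, hs.s12 4 0 2 4, hs.s23 4 2 0 4, hs.s12 4 2 4 0]
  have e_0_4_4_2 : TT Y w ![0, 4, 4, 2, 0, 0, 0, 0] = TT Y w ![4, 4, 2, 0, 0, 0, 0, 0] := by
    rw [hs.s01 0 4 4 2, hs.s12 4 0 4 2, hs.s23 4 4 0 2]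
  have e_0_4_6_0 : TT Y w ![0, 4, 6, 0, 0, 0, 0, 0] = TT Y w ![6, 4, 0, 0, 0, 0, 0, 0] := by
    rw [hs.s01 0 4 6 0, hs.s12 4 0 6 0, hs.s01 4 6 0 0]
  have e_0_6_0_4 : TT Y w ![0, 6, 0, 4, 0, 0, 0, 0] = TT Y w ![6, 4, 0, 0, 0, 0, 0, 0] := by
    rw [hs.s01 0 6 0 4, hs.s23 6 0 0 4, hs.s12 6 0 4 0]
  have e_0_6_2_2 : TT Y w ![0, 6, 2, 2, 0, 0, 0, 0] = TT Y w ![6, 2, 2, 0, 0, 0, 0, 0] := by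
    rw [hs.s01 0 6 2 2, hs.s12 6 0 2 2, hs.s23 6 2 0 2]
  have e_0_6_4_0 : TT Y w ![0, 6, 4, 0, 0, 0, 0, 0] = TT Y w ![6, 4, 0, 0, 0, 0, 0, 0] := by
    rw [hs.s01 0 6 4 0, hs.s12 6 0 4 0]
  have e_0_8_0_2 : TT Y w ![0, 8, 0, 2, 0, 0, 0, 0] = TT Y w ![8, 2, 0, 0, 0, 0, 0, 0] := by
    rw [hs.s01 0 8 0 2, hs.s23 8 0 0 2, hs.s12 8 0 2 0]
  have e_0_8_2_0 : TT Y w ![0, 8, 2, 0, 0, 0, 0, 0] = TT Y w ![8, 2, 0, 0, 0, 0, 0, 0] := by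
    rw [hs.s01 0 8 2 0, hs.s12 8 0 2 0]
  have e_0_10_0_0 : TT Y w ![0, 10, 0, 0, 0, 0, 0, 0] = TT Y w ![10, 0, 0, 0, 0, 0, 0, 0] := by
    rw [hs.s01 0 10 0 0]
  have e_2_0_0_8 : TT Y w ![2, 0, 0, 8, 0, 0, 0, 0] = TT Y w ![8, 2, 0, 0, 0, 0, 0, 0] := by
    rw [hs.s23 2 0 0 8, hs.s12 2 0 8 0, hs.s01 2 8 0 0]
  have e_2_0_2_6 : TT Y w ![2, 0, 2, 6, 0, 0, 0, 0] = TT Y w ![6, 2, 2, 0, 0, 0, 0, 0] := by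
    rw [hs.s12 2 0 2 6, hs.s23 2 2 0 6, hs.s12 2 2 6 0, hs.s01 2 6 2 0]
  have e_2_0_4_4 : TT Y w ![2, 0, 4, 4, 0, 0, 0, 0] = TT Y w ![4, 4, 2, 0, 0, 0, 0, 0] := by
    rw [hs.s12 2 0 4 4, hs.s23 2 4 0 4, hs.s01 2 4 4 0, hs.s12 4 2 4 0]
  have e_2_0_6_2 : TT Y w ![2, 0, 6, 2, 0, 0, 0, 0] = TT Y w ![6, 2, 2, 0, 0, 0, 0, 0] := by
    rw [hs.s12 2 0 6 2, hs.s23 2 6 0 2, hs.s01 2 6 2 0]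
  have e_2_0_8_0 : TT Y w ![2, 0, 8, 0, 0, 0, 0, 0] = TT Y w ![8, 2, 0, 0, 0, 0, 0, 0] := by
    rw [hs.s12 2 0 8 0, hs.s01 2 8 0 0]
  have e_2_2_0_6 : TT Y w ![2, 2, 0, 6, 0, 0, 0, 0] = TT Y w ![6, 2, 2, 0, 0, 0, 0, 0] := by
    rw [hs.s23 2 2 0 6, hs.s12 2 2 6 0, hs.s01 2 6 2 0]
  have e_2_2_2_4 : TT Y w ![2, 2, 2, 4, 0, 0, 0, 0] = TT Y w ![4, 2, 2, 2, 0, 0, 0, 0] := by
    rw [hs.s23 2 2 2 4, hs.s12 2 2 4 2, hs.s01 2 4 2 2]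
  have e_2_2_4_2 : TT Y w ![2, 2, 4, 2, 0, 0, 0, 0] = TT Y w ![4, 2, 2, 2, 0, 0, 0, 0] := by
    rw [hs.s12 2 2 4 2, hs.s01 2 4 2 2]
  have e_2_2_6_0 : TT Y w ![2, 2, 6, 0, 0, 0, 0, 0] = TT Y w ![6, 2, 2, 0, 0, 0, 0, 0] := by
    rw [hs.s12 2 2 6 0, hs.s01 2 6 2 0]
  have e_2_4_0_4 : TT Y w ![2, 4, 0, 4, 0, 0, 0, 0] = TT Y w ![4, 4, 2, 0, 0, 0, 0, 0] := by
    rw [hs.s01 2 4 0 4, hs.s23 4 2 0 4, hs.s12 4 2 4 0]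
  have e_2_4_2_2 : TT Y w ![2, 4, 2, 2, 0, 0, 0, 0] = TT Y w ![4, 2, 2, 2, 0, 0, 0, 0] := by
    rw [hs.s01 2 4 2 2]
  have e_2_4_4_0 : TT Y w ![2, 4, 4, 0, 0, 0, 0, 0] = TT Y w ![4, 4, 2, 0, 0, 0, 0, 0] := by
    rw [hs.s01 2 4 4 0, hs.s12 4 2 4 0]
  have e_2_6_0_2 : TT Y w ![2, 6, 0, 2, 0, 0, 0, 0] = TT Y w ![6, 2, 2, 0, 0, 0, 0, 0] := by
    rw [hs.s01 2 6 0 2, hs.s23 6 2 0 2]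
  have e_2_6_2_0 : TT Y w ![2, 6, 2, 0, 0, 0, 0, 0] = TT Y w ![6, 2, 2, 0, 0, 0, 0, 0] := by
    rw [hs.s01 2 6 2 0]
  have e_2_8_0_0 : TT Y w ![2, 8, 0, 0, 0, 0, 0, 0] = TT Y w ![8, 2, 0, 0, 0, 0, 0, 0] := by
    rw [hs.s01 2 8 0 0]
  have e_4_0_0_6 : TT Y w ![4, 0, 0, 6, 0, 0, 0, 0] = TT Y w ![6, 4, 0, 0, 0, 0, 0, 0] := by
    rw [hs.s23 4 0 0 6, hs.s12 4 0 6 0, hs.s01 4 6 0 0]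
  have e_4_0_2_4 : TT Y w ![4, 0, 2, 4, 0, 0, 0, 0] = TT Y w ![4, 4, 2, 0, 0, 0, 0, 0] := by
    rw [hs.s12 4 0 2 4, hs.s23 4 2 0 4, hs.s12 4 2 4 0]
  have e_4_0_4_2 : TT Y w ![4, 0, 4, 2, 0, 0, 0, 0] = TT Y w ![4, 4, 2, 0, 0, 0, 0, 0] := by
    rw [hs.s12 4 0 4 2, hs.s23 4 4 0 2]
  have e_4_0_6_0 : TT Y w ![4, 0, 6, 0, 0, 0, 0, 0] = TT Y w ![6, 4, 0, 0, 0, 0, 0, 0] := by
    rw [hs.s12 4 0 6 0, hs.s01 4 6 0 0]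
  have e_4_2_0_4 : TT Y w ![4, 2, 0, 4, 0, 0, 0, 0] = TT Y w ![4, 4, 2, 0, 0, 0, 0, 0] := by
    rw [hs.s23 4 2 0 4, hs.s12 4 2 4 0]
  have e_4_2_4_0 : TT Y w ![4, 2, 4, 0, 0, 0, 0, 0] = TT Y w ![4, 4, 2, 0, 0, 0, 0, 0] := by
    rw [hs.s12 4 2 4 0]
  have e_4_4_0_2 : TT Y w ![4, 4, 0, 2, 0, 0, 0, 0] = TT Y w ![4, 4, 2, 0, 0, 0, 0, 0] := by
    rw [hs.s23 4 4 0 2]
  have e_4_6_0_0 : TT Y w ![4, 6, 0, 0, 0, 0, 0, 0] = TT Y w ![6, 4, 0, 0, 0, 0, 0, 0] := by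
    rw [hs.s01 4 6 0 0]
  have e_6_0_0_4 : TT Y w ![6, 0, 0, 4, 0, 0, 0, 0] = TT Y w ![6, 4, 0, 0, 0, 0, 0, 0] := by
    rw [hs.s23 6 0 0 4, hs.s12 6 0 4 0]
  have e_6_0_2_2 : TT Y w ![6, 0, 2, 2, 0, 0, 0, 0] = TT Y w ![6, 2, 2, 0, 0, 0, 0, 0] := by
    rw [hs.s12 6 0 2 2, hs.s23 6 2 0 2]
  have e_6_0_4_0 : TT Y w ![6, 0, 4, 0, 0, 0, 0, 0] = TT Y w ![6, 4, 0, 0, 0, 0, 0, 0] := by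
    rw [hs.s12 6 0 4 0]
  have e_6_2_0_2 : TT Y w ![6, 2, 0, 2, 0, 0, 0, 0] = TT Y w ![6, 2, 2, 0, 0, 0, 0, 0] := by
    rw [hs.s23 6 2 0 2]
  have e_8_0_0_2 : TT Y w ![8, 0, 0, 2, 0, 0, 0, 0] = TT Y w ![8, 2, 0, 0, 0, 0, 0, 0] := by
    rw [hs.s23 8 0 0 2, hs.s12 8 0 2 0]
  have e_8_0_2_0 : TT Y w ![8, 0, 2, 0, 0, 0, 0, 0] = TT Y w ![8, 2, 0, 0, 0, 0, 0, 0] := by
    rw [hs.s12 8 0 2 0]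
  rw [e_0_0_0_10, e_0_0_2_8, e_0_0_4_6, e_0_0_6_4, e_0_0_8_2, e_0_0_10_0, e_0_2_0_8, e_0_2_2_6, e_0_2_4_4, e_0_2_6_2, e_0_2_8_0, e_0_4_0_6, e_0_4_2_4, e_0_4_4_2, e_0_4_6_0, e_0_6_0_4, e_0_6_2_2, e_0_6_4_0, e_0_8_0_2, e_0_8_2_0, e_0_10_0_0, e_2_0_0_8, e_2_0_2_6, e_2_0_4_4, e_2_0_6_2, e_2_0_8_0, e_2_2_0_6, e_2_2_2_4, e_2_2_4_2, e_2_2_6_0, e_2_4_0_4, e_2_4_2_2, e_2_4_4_0, e_2_6_0_2, e_2_6_2_0, e_2_8_0_0, e_4_0_0_6, e_4_0_2_4, e_4_0_4_2, e_4_0_6_0, e_4_2_0_4, e_4_2_4_0, e_4_4_0_2, e_4_6_0_0, e_6_0_0_4, e_6_0_2_2, e_6_0_4_0, e_6_2_0_2, e_8_0_0_2, e_8_0_2_0] at h1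
  linarith

end ExdL

theorem exd : S_TSY → S_EXD := by
  intro hT N Y w hw
  have hs : Sym Y w := sym_of (hT N Y w hw).1
  have h1 := ExdL.g2211 hw hs
  linarith

end Pool.Agent.Helper17K9.WP
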