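import Pool.Agent.Helper17K9.WP.Stm

set_option autoImplicit false

/-!
# [EXQ] degree 8 in eight coordinates (helper22)
-/

namespace Pool.Agent.Helper17K9.WP

namespace ExqL

/-- the sum of the squares of the exponents -/
def ssq (γ : Fin 8 → ℕ) : ℕ := ∑ i, γ i ^ 2

/-- the multinomial coefficient -/
def mu (γ : Fin 8 → ℕ) : ℕ := Nat.multinomial Finset.univ (fun i => 2 * γ i)

lemma num16 : (∑ γ ∈ Finset.Nat.antidiagonalTuple 8 4, if ssq γ = 16 then mu γ else 0) = 8 := by
  decide +kernel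

lemma num10 : (∑ γ ∈ Finset.Nat.antidiagonalTuple 8 4, if ssq γ = 10 then mu γ else 0) = 1568 := by
  decide +kernel

lemma num8 : (∑ γ ∈ Finset.Nat.antidiagonalTuple 8 4, if ssq γ = 8 then mu γ else 0) = 1960 := by
  decide +kernel

lemma num6 : (∑ γ ∈ Finset.Nat.antidiagonalTuple 8 4, if ssq γ = 6 then mu γ else 0) = 70560 := by
  decide +kernel

lemma num4 : (∑ γ ∈ Finset.Nat.antidiagonalTuple 8 4, if ssq γ = 4 then mu γ else 0) = 176400 := by
  decide +kernel

lemma num1 : Nat.multinomial Finset.univ (fun _ : Fin 8 => 1) = 40320 := by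
  decide +kernel

lemma parts : ∀ a0 ∈ Finset.range 5, ∀ a1 ∈ Finset.range 5, ∀ a2 ∈ Finset.range 5,
    ∀ a3 ∈ Finset.range 5, a1 ≤ a0 → a2 ≤ a1 → a3 ≤ a2 →
    a0 + a1 + a2 + a3 = 4 →
    (a0, a1, a2, a3) ∈ [(4, 0, 0, 0), (3, 1, 0, 0), (2, 2, 0, 0), (2, 1, 1, 0), (1, 1, 1, 1)] := by
  decide +kernel

lemma five {δ : Fin 8 → ℕ} (ha : Antitone δ) (hs : ∑ i, δ i = 4) :
    δ = ![4, 0, 0, 0, 0, 0, 0, 0] ∨ δ = ![3, 1, 0, 0, 0, 0, 0, 0] ∨
    δ = ![2, 2, 0, 0, 0, 0, 0, 0] ∨ δ = ![2, 1, 1, 0, 0, 0, 0, 0] ∨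
    δ = ![1, 1, 1, 1, 0, 0, 0, 0] := by
  have h01 : δ 1 ≤ δ 0 := ha (by decide)
  have h12 : δ 2 ≤ δ 1 := ha (by decide)
  have h23 : δ 3 ≤ δ 2 := ha (by decide)
  have h34 : δ 4 ≤ δ 3 := ha (by decide)
  have h45 : δ 5 ≤ δ 4 := ha (by decide)
  have h56 : δ 6 ≤ δ 5 := ha (by decide)
  have h67 : δ 7 ≤ δ 6 := ha (by decide)
  have hs' : δ 0 + δ 1 + δ 2 + δ 3 + δ 4 + δ 5 + δ 6 + δ 7 = 4 := by
    rw [← hs, Fin.sum_univ_eight]
  have h4 : δ 4 = 0 := by omega
  have h5 : δ 5 = 0 := by omega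
  have h6 : δ 6 = 0 := by omega
  have h7 : δ 7 = 0 := by omega
  have key := parts (δ 0) (Finset.mem_range.2 (by omega)) (δ 1) (Finset.mem_range.2 (by omega))
    (δ 2) (Finset.mem_range.2 (by omega)) (δ 3) (Finset.mem_range.2 (by omega))
    h01 h12 h23 (by omega)
  have ext : ∀ a0 a1 a2 a3 : ℕ, (δ 0, δ 1, δ 2, δ 3) = (a0, a1, a2, a3) →
      δ = ![a0, a1, a2, a3, 0, 0, 0, 0] := by
    intro a0 a1 a2 a3 h
    simp only [Prod.mk.injEq] at h
    funext i
    fin_cases i
    · exact h.1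
    · exact h.2.1
    · exact h.2.2.1
    · exact h.2.2.2
    · exact h4
    · exact h5
    · exact h6
    · exact h7
  simp only [List.mem_cons, List.not_mem_nil, or_false] at key
  rcases key with h | h | h | h | h
  · exact Or.inl (ext _ _ _ _ h)
  · exact Or.inr (Or.inl (ext _ _ _ _ h))
  · exact Or.inr (Or.inr (Or.inl (ext _ _ _ _ h)))
  · exact Or.inr (Or.inr (Or.inr (Or.inl (ext _ _ _ _ h))))
  · exact Or.inr (Or.inr (Or.inr (Or.inr (ext _ _ _ _ h))))

lemma sorted (γ : Fin 8 → ℕ) : ∃ π : Equiv.Perm (Fin 8), Antitone (fun i => γ (π i)) := by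
  refine ⟨Tuple.sort (fun i => OrderDual.toDual (γ i)), ?_⟩
  have h := Tuple.monotone_sort (fun i => OrderDual.toDual (γ i))
  intro a b hab
  exact h hab

lemma two (a0 a1 a2 a3 : ℕ) : (fun i => 2 * (![a0, a1, a2, a3, 0, 0, 0, 0] : Fin 8 → ℕ) i) =
    ![2 * a0, 2 * a1, 2 * a2, 2 * a3, 0, 0, 0, 0] := by
  funext i
  fin_cases i <;> rfl

lemma types (Y : Finset (Fin 8 → ℤ)) (w : (Fin 8 → ℤ) → ℝ)
    (hp : ∀ (β : Fin 8 → ℕ) (π : Equiv.Perm (Fin 8)), TT Y w (fun i => β (π i)) = TT Y w β)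
    (γ : Fin 8 → ℕ) (hγ : ∑ i, γ i = 4) :
    TT Y w (fun i => 2 * γ i) =
      (if ssq γ = 16 then TT Y w ![8, 0, 0, 0, 0, 0, 0, 0] else 0) +
      (if ssq γ = 10 then TT Y w ![6, 2, 0, 0, 0, 0, 0, 0] else 0) +
      (if ssq γ = 8 then TT Y w ![4, 4, 0, 0, 0, 0, 0, 0] else 0) +
      (if ssq γ = 6 then TT Y w ![4, 2, 2, 0, 0, 0, 0, 0] else 0) +
      (if ssq γ = 4 then TT Y w ![2, 2, 2, 2, 0, 0, 0, 0] else 0) := by
  obtain ⟨π, hπ⟩ := sorted γ
  have hs : ∑ i, γ (π i) = 4 := by rw [Equiv.sum_comp π γ, hγ]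
  have e1 : TT Y w (fun i => 2 * γ i) = TT Y w (fun i => 2 * γ (π i)) :=
    (hp (fun i => 2 * γ i) π).symm
  have e2 : ssq γ = ssq (fun i => γ (π i)) := by
    unfold ssq
    exact (Equiv.sum_comp π (fun i => γ i ^ 2)).symm
  rw [e1, e2]
  set δ : Fin 8 → ℕ := fun i => γ (π i) with hδ
  show TT Y w (fun i => 2 * δ i) = _
  rcases five hπ hs with h | h | h | h | h
  · have h' : δ = ![4, 0, 0, 0, 0, 0, 0, 0] := h
    have hq : ssq δ = 16 := by rw [h']; decide
    rw [hq, h', two]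
    simp
  · have h' : δ = ![3, 1, 0, 0, 0, 0, 0, 0] := h
    have hq : ssq δ = 10 := by rw [h']; decide
    rw [hq, h', two]
    simp
  · have h' : δ = ![2, 2, 0, 0, 0, 0, 0, 0] := h
    have hq : ssq δ = 8 := by rw [h']; decide
    rw [hq, h', two]
    simp
  · have h' : δ = ![2, 1, 1, 0, 0, 0, 0, 0] := h
    have hq : ssq δ = 6 := by rw [h']; decide
    rw [hq, h', two]
    simp
  · have h' : δ = ![1, 1, 1, 1, 0, 0, 0, 0] := h
    have hq : ssq δ = 4 := by rw [h']; decide
    rw [hq, h', two]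
    simp

end ExqL

open ExqL in
theorem exq : S_TSY → S_EXQ := by
  intro hT N Y w H
  obtain ⟨hp, hf, hn⟩ := hT N Y w H
  have h1 : G Y w 8 ![1, 1, 1, 1, 1, 1, 1, 1] =
      ∑ k ∈ Finset.piAntidiag (Finset.univ : Finset (Fin 8)) 8,
        (Nat.multinomial Finset.univ k : ℝ) * TT Y w k := by
    unfold G TT
    simp only [Finset.mul_sum]
    rw [Finset.sum_comm]
    refine Finset.sum_congr rfl fun v _ => ?_
    have e : (∑ i, ((![1, 1, 1, 1, 1, 1, 1, 1] : Fin 8 → ℤ) i : ℝ) * (v i : ℝ)) =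
        ∑ i, (v i : ℝ) := by
      simp [Fin.sum_univ_eight]
    rw [e, Finset.sum_pow_eq_sum_piAntidiag, Finset.mul_sum]
    exact Finset.sum_congr rfl fun k _ => by ring
  rw [h1, Finset.piAntidiag_univ_fin_eq_antidiagonalTuple]
  set A8 := Finset.Nat.antidiagonalTuple 8 8 with hA8
  set A4 := Finset.Nat.antidiagonalTuple 8 4 with hA4
  have h2 : ∑ k ∈ A8, (Nat.multinomial Finset.univ k : ℝ) * TT Y w k =
      ∑ k ∈ A4.image (fun γ i => 2 * γ i) ∪ {fun _ => 1},
        (Nat.multinomial Finset.univ k : ℝ) * TT Y w k := by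
    symm
    apply Finset.sum_subset
    · intro k hk
      rw [Finset.mem_union, Finset.mem_image, Finset.mem_singleton] at hk
      rw [hA8, Finset.Nat.mem_antidiagonalTuple]
      rcases hk with ⟨γ, hγ, rfl⟩ | rfl
      · rw [hA4, Finset.Nat.mem_antidiagonalTuple] at hγ
        have h9 : ∑ i, 2 * γ i = 2 * ∑ i, γ i := (Finset.mul_sum _ _ _).symm
        show ∑ i, 2 * γ i = 8
        omega
      · simp
    · intro k hk hnot
      rw [hA8, Finset.Nat.mem_antidiagonalTuple] at hk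
      have hTT : TT Y w k = 0 := by
        by_contra hne
        apply hnot
        rw [Finset.mem_union, Finset.mem_image, Finset.mem_singleton]
        by_cases hev : ∃ i, Even (k i)
        · left
          obtain ⟨i, hi⟩ := hev
          have hall : ∀ j, Even (k j) := by
            intro j
            by_contra hj
            exact hne (hf k i j hi (Nat.not_even_iff_odd.1 hj))
          refine ⟨fun i => k i / 2, ?_, ?_⟩
          · rw [hA4, Finset.Nat.mem_antidiagonalTuple]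
            have h3 : 2 * ∑ i, k i / 2 = 8 := by
              rw [Finset.mul_sum]
              exact (Finset.sum_congr rfl fun i _ =>
                Nat.two_mul_div_two_of_even (hall i)).trans hk
            omega
          · funext i
            exact Nat.two_mul_div_two_of_even (hall i)
        · right
          have h3 : ∀ i, 1 ≤ k i := fun i =>
            (Nat.not_even_iff_odd.1 (fun h => hev ⟨i, h⟩)).pos
          have h0 := h3 0
          have h1 := h3 1
          have h2 := h3 2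
          have h4 := h3 3
          have h5 := h3 4
          have h6 := h3 5
          have h7 := h3 6
          have h8 := h3 7
          rw [Fin.sum_univ_eight] at hk
          funext i
          fin_cases i
          · show k 0 = 1
            omega
          · show k 1 = 1
            omega
          · show k 2 = 1
            omega
          · show k 3 = 1
            omega
          · show k 4 = 1
            omega
          · show k 5 = 1
            omega
          · show k 6 = 1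
            omega
          · show k 7 = 1
            omega
      rw [hTT, mul_zero]
  have hdisj : Disjoint (A4.image (fun γ i => 2 * γ i)) ({fun _ => 1} : Finset (Fin 8 → ℕ)) := by
    rw [Finset.disjoint_singleton_right, Finset.mem_image]
    rintro ⟨γ, _, h⟩
    have h9 : 2 * γ 0 = 1 := congrFun h 0
    omega
  rw [h2, Finset.sum_union hdisj, Finset.sum_singleton, Finset.sum_image (by
    intro a _ b _ h
    funext i
    have h9 : 2 * a i = 2 * b i := congrFun h i
    omega)]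
  have h3 : ∑ γ ∈ A4, (Nat.multinomial Finset.univ (fun i => 2 * γ i) : ℝ) *
      TT Y w (fun i => 2 * γ i) = ∑ γ ∈ A4, (mu γ : ℝ) *
      ((if ssq γ = 16 then TT Y w ![8, 0, 0, 0, 0, 0, 0, 0] else 0) +
      (if ssq γ = 10 then TT Y w ![6, 2, 0, 0, 0, 0, 0, 0] else 0) +
      (if ssq γ = 8 then TT Y w ![4, 4, 0, 0, 0, 0, 0, 0] else 0) +
      (if ssq γ = 6 then TT Y w ![4, 2, 2, 0, 0, 0, 0, 0] else 0) +
      (if ssq γ = 4 then TT Y w ![2, 2, 2, 2, 0, 0, 0, 0] else 0)) := by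
    refine Finset.sum_congr rfl fun γ hγ => ?_
    rw [hA4, Finset.Nat.mem_antidiagonalTuple] at hγ
    rw [types Y w hp γ hγ]
    rfl
  have key : ∀ (c : ℕ) (t : ℝ), ∑ γ ∈ A4, (mu γ : ℝ) * (if ssq γ = c then t else 0) =
      ((∑ γ ∈ A4, if ssq γ = c then mu γ else 0 : ℕ) : ℝ) * t := by
    intro c t
    rw [Nat.cast_sum, Finset.sum_mul]
    refine Finset.sum_congr rfl fun γ _ => ?_
    by_cases h : ssq γ = c
    · rw [if_pos h, if_pos h]
    · rw [if_neg h, if_neg h, mul_zero, Nat.cast_zero, zero_mul]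
  rw [h3]
  simp only [mul_add, Finset.sum_add_distrib, key]
  rw [hA4, num16, num10, num8, num6, num4, num1]
  have e1 : (fun _ : Fin 8 => 1) = (![1, 1, 1, 1, 1, 1, 1, 1] : Fin 8 → ℕ) := by
    funext i
    fin_cases i <;> rfl
  rw [e1]
  norm_num

end Pool.Agent.Helper17K9.WP
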