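import Pool.Agent.Helper17K9.WP.Stm

set_option autoImplicit false

/-!
# Vectors with a small root sum [FAN]
-/

namespace Pool.Agent.Helper17K9.WP

open Pool.Agent.Q10.E8 Pool.Agent.Helper17K9.EX

namespace FanL

/-- sums of powers of four nonnegative numbers -/
lemma pw (y1 y2 y3 y4 : ℤ) (h1 : 0 ≤ y1) (h2 : 0 ≤ y2) (h3 : 0 ≤ y3) (h4 : 0 ≤ y4) :
    0 ≤ y1 ^ 2 + y2 ^ 2 + y3 ^ 2 + y4 ^ 2 ∧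
    y1 ^ 2 + y2 ^ 2 + y3 ^ 2 + y4 ^ 2 ≤ (y1 + y2 + y3 + y4) ^ 2 ∧
    0 ≤ y1 ^ 3 + y2 ^ 3 + y3 ^ 3 + y4 ^ 3 ∧
    y1 ^ 3 + y2 ^ 3 + y3 ^ 3 + y4 ^ 3 ≤ (y1 + y2 + y3 + y4) * (y1 ^ 2 + y2 ^ 2 + y3 ^ 2 + y4 ^ 2) ∧
    0 ≤ y1 ^ 4 + y2 ^ 4 + y3 ^ 4 + y4 ^ 4 ∧
    y1 ^ 4 + y2 ^ 4 + y3 ^ 4 + y4 ^ 4 ≤ (y1 + y2 + y3 + y4) ^ 4 := by
  have e2 : (y1 + y2 + y3 + y4) ^ 2 = (y1 ^ 2 + y2 ^ 2 + y3 ^ 2 + y4 ^ 2) +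
      2 * (y1 * y2 + y1 * y3 + y1 * y4 + y2 * y3 + y2 * y4 + y3 * y4) := by ring
  have p2 : 0 ≤ y1 * y2 + y1 * y3 + y1 * y4 + y2 * y3 + y2 * y4 + y3 * y4 := by positivity
  have q2 : y1 ^ 2 + y2 ^ 2 + y3 ^ 2 + y4 ^ 2 ≤ (y1 + y2 + y3 + y4) ^ 2 := by linarith
  have e3 : (y1 + y2 + y3 + y4) * (y1 ^ 2 + y2 ^ 2 + y3 ^ 2 + y4 ^ 2) = (y1 ^ 3 + y2 ^ 3 + y3 ^ 3 + y4 ^ 3) +
      (y1 * (y2 ^ 2 + y3 ^ 2 + y4 ^ 2) + y2 * (y1 ^ 2 + y3 ^ 2 + y4 ^ 2) + y3 * (y1 ^ 2 + y2 ^ 2 + y4 ^ 2) +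
        y4 * (y1 ^ 2 + y2 ^ 2 + y3 ^ 2)) := by ring
  have p3 : 0 ≤ y1 * (y2 ^ 2 + y3 ^ 2 + y4 ^ 2) + y2 * (y1 ^ 2 + y3 ^ 2 + y4 ^ 2) +
      y3 * (y1 ^ 2 + y2 ^ 2 + y4 ^ 2) + y4 * (y1 ^ 2 + y2 ^ 2 + y3 ^ 2) := by positivity
  have n2 : 0 ≤ y1 ^ 2 + y2 ^ 2 + y3 ^ 2 + y4 ^ 2 := by positivity
  have e4 : (y1 ^ 2 + y2 ^ 2 + y3 ^ 2 + y4 ^ 2) ^ 2 = (y1 ^ 4 + y2 ^ 4 + y3 ^ 4 + y4 ^ 4) +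
      2 * (y1 ^ 2 * y2 ^ 2 + y1 ^ 2 * y3 ^ 2 + y1 ^ 2 * y4 ^ 2 + y2 ^ 2 * y3 ^ 2 + y2 ^ 2 * y4 ^ 2 +
        y3 ^ 2 * y4 ^ 2) := by ring
  have p4 : 0 ≤ y1 ^ 2 * y2 ^ 2 + y1 ^ 2 * y3 ^ 2 + y1 ^ 2 * y4 ^ 2 + y2 ^ 2 * y3 ^ 2 + y2 ^ 2 * y4 ^ 2 +
        y3 ^ 2 * y4 ^ 2 := by positivity
  have q4 : (y1 ^ 2 + y2 ^ 2 + y3 ^ 2 + y4 ^ 2) ^ 2 ≤ ((y1 + y2 + y3 + y4) ^ 2) ^ 2 :=
    pow_le_pow_left₀ n2 q2 2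
  have e5 : ((y1 + y2 + y3 + y4) ^ 2) ^ 2 = (y1 + y2 + y3 + y4) ^ 4 := by ring
  refine ⟨n2, q2, by positivity, by linarith, by positivity, by linarith⟩

/-- the polynomial inequality for negative values -/
lemma neg (A R X2 X3 X4 : ℤ) (hA : 25 ≤ A) (hR : 0 ≤ R) (hRA : R ≤ 2 * A) (h2 : 0 ≤ X2) (h2' : X2 ≤ R ^ 2)
    (h3' : X3 ≤ R * X2) (h4 : 0 ≤ X4) :
    672 * (A ^ 6 + X3) * (A ^ 2 + R) + 420 * (A ^ 4 + X2) ^ 2 - 720 * (A ^ 8 + X4)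
      - 420 * (A ^ 4 + X2) * (A ^ 2 + R) ^ 2 + 45 * (A ^ 2 + R) ^ 4 < 0 := by
  have hA0 : 0 < A := by linarith
  have e : 672 * (A ^ 6 + X3) * (A ^ 2 + R) + 420 * (A ^ 4 + X2) ^ 2 - 720 * (A ^ 8 + X4)
      - 420 * (A ^ 4 + X2) * (A ^ 2 + R) ^ 2 + 45 * (A ^ 2 + R) ^ 4 =
      -3 * A ^ 8 + 12 * (A ^ 6 * R) - 150 * (A ^ 4 * R ^ 2) + 420 * (A ^ 4 * X2) + 672 * (A ^ 2 * X3)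
      - 840 * (A ^ 2 * (R * X2)) + 180 * (A ^ 2 * R ^ 3) + 672 * (X3 * R) + 420 * (X2 * X2) - 720 * X4
      - 420 * (X2 * R ^ 2) + 45 * R ^ 4 := by ring
  rw [e]
  have b1 : A ^ 4 * X2 ≤ A ^ 4 * R ^ 2 := mul_le_mul_of_nonneg_left h2' (by positivity)
  have b2 : A ^ 2 * X3 ≤ A ^ 2 * (R * X2) := mul_le_mul_of_nonneg_left h3' (by positivity)
  have b2' : 0 ≤ A ^ 2 * (R * X2) := by positivity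
  have b3 : X3 * R ≤ R * X2 * R := mul_le_mul_of_nonneg_right h3' hR
  have b3' : R * X2 * R = R ^ 2 * X2 := by ring
  have b3'' : R ^ 2 * X2 ≤ R ^ 2 * R ^ 2 := mul_le_mul_of_nonneg_left h2' (by positivity)
  have b3''' : R ^ 2 * R ^ 2 = R ^ 4 := by ring
  have b4 : X2 * X2 ≤ X2 * R ^ 2 := mul_le_mul_of_nonneg_left h2' h2
  -- R <= 2 A
  have c1 : A ^ 6 * R ≤ A ^ 6 * (2 * A) := mul_le_mul_of_nonneg_left hRA (by positivity)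
  have c2 : A ^ 4 * R ^ 2 ≤ A ^ 4 * (2 * A) ^ 2 :=
    mul_le_mul_of_nonneg_left (pow_le_pow_left₀ hR hRA 2) (by positivity)
  have c3 : A ^ 2 * R ^ 3 ≤ A ^ 2 * (2 * A) ^ 3 :=
    mul_le_mul_of_nonneg_left (pow_le_pow_left₀ hR hRA 3) (by positivity)
  have c4 : R ^ 4 ≤ (2 * A) ^ 4 := pow_le_pow_left₀ hR hRA 4
  have d : -3 * A ^ 8 + 12 * (A ^ 6 * (2 * A)) + 270 * (A ^ 4 * (2 * A) ^ 2) + 180 * (A ^ 2 * (2 * A) ^ 3)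
      + 717 * (2 * A) ^ 4 < 0 := by
    have d1 : -3 * A ^ 8 + 12 * (A ^ 6 * (2 * A)) + 270 * (A ^ 4 * (2 * A) ^ 2) + 180 * (A ^ 2 * (2 * A) ^ 3)
      + 717 * (2 * A) ^ 4 = A ^ 4 * (-3 * A ^ 3 * (A - 8) + 1080 * A ^ 2 + 1440 * A + 11472) := by ring
    rw [d1]
    have d2 : 51 * A ^ 3 ≤ 3 * A ^ 3 * (A - 8) := by
      have : 0 ≤ A ^ 3 := by positivity
      nlinarith
    have d3 : 1275 * A ^ 2 ≤ 51 * A ^ 3 := by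
      have : 0 ≤ A ^ 2 := by positivity
      nlinarith
    have d4 : 4875 * A ≤ 195 * A ^ 2 := by nlinarith
    have d5 : -3 * A ^ 3 * (A - 8) + 1080 * A ^ 2 + 1440 * A + 11472 < 0 := by linarith
    exact mul_neg_of_pos_of_neg (by positivity) d5
  linarith

/-- the polynomial inequality for positive values -/
lemma pos (A R X2 X3 X4 : ℤ) (hA : 16 ≤ A) (hR : 0 ≤ R) (hRA : R ≤ 4 * A) (h2' : X2 ≤ R ^ 2)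
    (h3 : 0 ≤ X3) (h4' : X4 ≤ R ^ 4) :
    0 < 672 * (2 * A ^ 6 + X3) * (2 * A ^ 2 + R) + 420 * (2 * A ^ 4 + X2) ^ 2 - 720 * (2 * A ^ 8 + X4)
      - 420 * (2 * A ^ 4 + X2) * (2 * A ^ 2 + R) ^ 2 + 45 * (2 * A ^ 2 + R) ^ 4 := by
  have hA0 : 0 < A := by linarith
  have e : 672 * (2 * A ^ 6 + X3) * (2 * A ^ 2 + R) + 420 * (2 * A ^ 4 + X2) ^ 2 - 720 * (2 * A ^ 8 + X4)
      - 420 * (2 * A ^ 4 + X2) * (2 * A ^ 2 + R) ^ 2 + 45 * (2 * A ^ 2 + R) ^ 4 =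
      288 * A ^ 8 - 576 * (A ^ 6 * R) + 240 * (A ^ 4 * R ^ 2) + 1344 * (A ^ 2 * X3)
      - 1680 * (A ^ 2 * R * X2) + 360 * (A ^ 2 * R ^ 3) + 672 * (X3 * R) + 420 * X2 ^ 2 - 720 * X4
      - 420 * (R ^ 2 * X2) + 45 * R ^ 4 := by ring
  rw [e]
  have b1 : 0 ≤ A ^ 2 * X3 := by positivity
  have b2 : 0 ≤ X3 * R := by positivity
  have b3 : 0 ≤ X2 ^ 2 := by positivity
  have b4 : 0 ≤ A ^ 4 * R ^ 2 := by positivity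
  have b5 : A ^ 2 * R * X2 ≤ A ^ 2 * R * R ^ 2 := mul_le_mul_of_nonneg_left h2' (by positivity)
  have b5' : A ^ 2 * R * R ^ 2 = A ^ 2 * R ^ 3 := by ring
  have b6 : R ^ 2 * X2 ≤ R ^ 2 * R ^ 2 := mul_le_mul_of_nonneg_left h2' (by positivity)
  have b6' : R ^ 2 * R ^ 2 = R ^ 4 := by ring
  -- 4 R <= A ^ 2
  have hRB : 4 * R ≤ A ^ 2 := by nlinarith
  have hR4 : 0 ≤ 4 * R := by linarith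
  have c1 : A ^ 6 * (4 * R) ≤ A ^ 6 * A ^ 2 := mul_le_mul_of_nonneg_left hRB (by positivity)
  have c3 : A ^ 2 * (4 * R) ^ 3 ≤ A ^ 2 * (A ^ 2) ^ 3 :=
    mul_le_mul_of_nonneg_left (pow_le_pow_left₀ hR4 hRB 3) (by positivity)
  have c4 : (4 * R) ^ 4 ≤ (A ^ 2) ^ 4 := pow_le_pow_left₀ hR4 hRB 4
  have d1 : A ^ 6 * (4 * R) = 4 * (A ^ 6 * R) := by ring
  have d1' : A ^ 6 * A ^ 2 = A ^ 8 := by ring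
  have d3 : A ^ 2 * (4 * R) ^ 3 = 64 * (A ^ 2 * R ^ 3) := by ring
  have d3' : A ^ 2 * (A ^ 2) ^ 3 = A ^ 8 := by ring
  have d4 : (4 * R) ^ 4 = 256 * R ^ 4 := by ring
  have d4' : (A ^ 2) ^ 4 = A ^ 8 := by ring
  rw [d1, d1'] at c1
  rw [d3, d3'] at c3
  rw [d4, d4'] at c4
  have hA8 : 0 < A ^ 8 := by positivity
  linarith

/-- parity -/
lemma par (m a x1 x2 x3 x4 : ℤ) (h : a ^ 2 + (x1 ^ 2 + x2 ^ 2 + x3 ^ 2 + x4 ^ 2) = 2 * m) :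
    (2 * a + 2 * x1 + 2 * x2 + 2 * x3 + 2 * x4) % 4 = 0 := by
  have hp : ∀ x : ℤ, ∃ k, x ^ 2 = x + 2 * k := by
    intro x
    rcases Int.even_or_odd' x with ⟨c, rfl | rfl⟩
    · exact ⟨2 * c ^ 2 - c, by ring⟩
    · exact ⟨2 * c ^ 2 + c, by ring⟩
  obtain ⟨k0, h0⟩ := hp a
  obtain ⟨k1, h1⟩ := hp x1
  obtain ⟨k2, h2⟩ := hp x2
  obtain ⟨k3, h3⟩ := hp x3
  obtain ⟨k4, h4⟩ := hp x4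
  rw [h0, h1, h2, h3, h4] at h
  omega

lemma finneg (m A y1 y2 y3 y4 rs : ℤ) (hA : 25 ≤ A) (hx : A ^ 2 + (y1 ^ 2 + y2 ^ 2 + y3 ^ 2 + y4 ^ 2) = 2 * m)
    (ha : 2 * m < (A + 1) ^ 2) (p1 p2 p3 p4 : ℤ)
    (e1 : p1 = 4 * (A ^ 2 + (y1 ^ 2 + y2 ^ 2 + y3 ^ 2 + y4 ^ 2)))
    (e2 : p2 = 16 * (A ^ 4 + ((y1 ^ 2) ^ 2 + (y2 ^ 2) ^ 2 + (y3 ^ 2) ^ 2 + (y4 ^ 2) ^ 2)))
    (e3 : p3 = 64 * (A ^ 6 + ((y1 ^ 2) ^ 3 + (y2 ^ 2) ^ 3 + (y3 ^ 2) ^ 3 + (y4 ^ 2) ^ 3)))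
    (e4 : p4 = 256 * (A ^ 8 + ((y1 ^ 2) ^ 4 + (y2 ^ 2) ^ 4 + (y3 ^ 2) ^ 4 + (y4 ^ 2) ^ 4)))
    (h : 512 * rs = 672 * p3 * p1 + 420 * p2 ^ 2 - 720 * p4 - 420 * p2 * p1 ^ 2 + 105 * p1 ^ 4 + 40320 * 0) :
    rs < 480 * m ^ 4 := by
  obtain ⟨q1, q2, q3, q4, q5, q6⟩ := pw (y1 ^ 2) (y2 ^ 2) (y3 ^ 2) (y4 ^ 2) (sq_nonneg _) (sq_nonneg _)
    (sq_nonneg _) (sq_nonneg _)
  have hR0 : 0 ≤ y1 ^ 2 + y2 ^ 2 + y3 ^ 2 + y4 ^ 2 := by positivity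
  obtain ⟨R, hR⟩ : ∃ R : ℤ, R = y1 ^ 2 + y2 ^ 2 + y3 ^ 2 + y4 ^ 2 := ⟨_, rfl⟩
  obtain ⟨X2, hX2⟩ : ∃ X : ℤ, X = (y1 ^ 2) ^ 2 + (y2 ^ 2) ^ 2 + (y3 ^ 2) ^ 2 + (y4 ^ 2) ^ 2 := ⟨_, rfl⟩
  obtain ⟨X3, hX3⟩ : ∃ X : ℤ, X = (y1 ^ 2) ^ 3 + (y2 ^ 2) ^ 3 + (y3 ^ 2) ^ 3 + (y4 ^ 2) ^ 3 := ⟨_, rfl⟩
  obtain ⟨X4, hX4⟩ : ∃ X : ℤ, X = (y1 ^ 2) ^ 4 + (y2 ^ 2) ^ 4 + (y3 ^ 2) ^ 4 + (y4 ^ 2) ^ 4 := ⟨_, rfl⟩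
  rw [← hR] at hx hR0 q2 q4 q6 e1
  rw [← hX2] at q1 q2 q4 e2
  rw [← hX3] at q3 q4 e3
  rw [← hX4] at q5 q6 e4
  have hn := neg A R X2 X3 X4 hA hR0 (by linarith) q1 q2 q4 q5
  have hm4 : 16 * m ^ 4 = (A ^ 2 + R) ^ 4 := by
    rw [hx]
    ring
  subst e1 e2 e3 e4
  have h' : 512 * rs = 256 * (672 * (A ^ 6 + X3) * (A ^ 2 + R) + 420 * (A ^ 4 + X2) ^ 2 - 720 * (A ^ 8 + X4)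
      - 420 * (A ^ 4 + X2) * (A ^ 2 + R) ^ 2 + 45 * (A ^ 2 + R) ^ 4) + 256 * 60 * (A ^ 2 + R) ^ 4 := by
    rw [h]
    ring
  linarith

lemma finpos (m A y1 y2 y3 y4 rs : ℤ) (hA : 16 ≤ A) (hx : 2 * A ^ 2 + (y1 ^ 2 + y2 ^ 2 + y3 ^ 2 + y4 ^ 2) = 2 * m)
    (ha : m < (A + 1) ^ 2) (p1 p2 p3 p4 : ℤ)
    (e1 : p1 = 4 * (2 * A ^ 2 + (y1 ^ 2 + y2 ^ 2 + y3 ^ 2 + y4 ^ 2)))
    (e2 : p2 = 16 * (2 * A ^ 4 + ((y1 ^ 2) ^ 2 + (y2 ^ 2) ^ 2 + (y3 ^ 2) ^ 2 + (y4 ^ 2) ^ 2)))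
    (e3 : p3 = 64 * (2 * A ^ 6 + ((y1 ^ 2) ^ 3 + (y2 ^ 2) ^ 3 + (y3 ^ 2) ^ 3 + (y4 ^ 2) ^ 3)))
    (e4 : p4 = 256 * (2 * A ^ 8 + ((y1 ^ 2) ^ 4 + (y2 ^ 2) ^ 4 + (y3 ^ 2) ^ 4 + (y4 ^ 2) ^ 4)))
    (h : 512 * rs = 672 * p3 * p1 + 420 * p2 ^ 2 - 720 * p4 - 420 * p2 * p1 ^ 2 + 105 * p1 ^ 4 + 40320 * 0) :
    480 * m ^ 4 < rs := by
  obtain ⟨q1, q2, q3, q4, q5, q6⟩ := pw (y1 ^ 2) (y2 ^ 2) (y3 ^ 2) (y4 ^ 2) (sq_nonneg _) (sq_nonneg _)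
    (sq_nonneg _) (sq_nonneg _)
  have hR0 : 0 ≤ y1 ^ 2 + y2 ^ 2 + y3 ^ 2 + y4 ^ 2 := by positivity
  obtain ⟨R, hR⟩ : ∃ R : ℤ, R = y1 ^ 2 + y2 ^ 2 + y3 ^ 2 + y4 ^ 2 := ⟨_, rfl⟩
  obtain ⟨X2, hX2⟩ : ∃ X : ℤ, X = (y1 ^ 2) ^ 2 + (y2 ^ 2) ^ 2 + (y3 ^ 2) ^ 2 + (y4 ^ 2) ^ 2 := ⟨_, rfl⟩
  obtain ⟨X3, hX3⟩ : ∃ X : ℤ, X = (y1 ^ 2) ^ 3 + (y2 ^ 2) ^ 3 + (y3 ^ 2) ^ 3 + (y4 ^ 2) ^ 3 := ⟨_, rfl⟩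
  obtain ⟨X4, hX4⟩ : ∃ X : ℤ, X = (y1 ^ 2) ^ 4 + (y2 ^ 2) ^ 4 + (y3 ^ 2) ^ 4 + (y4 ^ 2) ^ 4 := ⟨_, rfl⟩
  rw [← hR] at hx hR0 q2 q4 q6 e1
  rw [← hX2] at q1 q2 q4 e2
  rw [← hX3] at q3 q4 e3
  rw [← hX4] at q5 q6 e4
  have hn := pos A R X2 X3 X4 hA hR0 (by linarith) q2 q3 q6
  have hm4 : 16 * m ^ 4 = (2 * A ^ 2 + R) ^ 4 := by
    rw [hx]
    ring
  subst e1 e2 e3 e4
  have h' : 512 * rs = 256 * (672 * (2 * A ^ 6 + X3) * (2 * A ^ 2 + R) + 420 * (2 * A ^ 4 + X2) ^ 2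
      - 720 * (2 * A ^ 8 + X4)
      - 420 * (2 * A ^ 4 + X2) * (2 * A ^ 2 + R) ^ 2 + 45 * (2 * A ^ 2 + R) ^ 4)
      + 256 * 60 * (2 * A ^ 2 + R) ^ 4 := by
    rw [h]
    ring
  linarith

lemma P5 (A y1 y2 y3 y4 : ℤ) (k : ℕ) (hk : 1 ≤ k) : P k ![2 * A, 2 * y1, 2 * y2, 2 * y3, 2 * y4, 0, 0, 0] =
      (2 * A) ^ (2 * k) + (2 * y1) ^ (2 * k) + (2 * y2) ^ (2 * k) + (2 * y3) ^ (2 * k) + (2 * y4) ^ (2 * k) := by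
  have h0 : (0 : ℤ) ^ (2 * k) = 0 := zero_pow (by omega)
  unfold P
  rw [Fin.sum_univ_eight]
  show (2 * A) ^ (2 * k) + (2 * y1) ^ (2 * k) + (2 * y2) ^ (2 * k) + (2 * y3) ^ (2 * k) + (2 * y4) ^ (2 * k)
    + 0 ^ (2 * k) + 0 ^ (2 * k) + 0 ^ (2 * k) = _
  rw [h0]
  ring

lemma P6 (A y1 y2 y3 y4 : ℤ) (k : ℕ) (hk : 1 ≤ k) : P k ![2 * A, 2 * A, 2 * y1, 2 * y2, 2 * y3, 2 * y4, 0, 0] =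
      (2 * A) ^ (2 * k) + (2 * A) ^ (2 * k) + (2 * y1) ^ (2 * k) + (2 * y2) ^ (2 * k) + (2 * y3) ^ (2 * k)
        + (2 * y4) ^ (2 * k) := by
  have h0 : (0 : ℤ) ^ (2 * k) = 0 := zero_pow (by omega)
  unfold P
  rw [Fin.sum_univ_eight]
  show (2 * A) ^ (2 * k) + (2 * A) ^ (2 * k) + (2 * y1) ^ (2 * k) + (2 * y2) ^ (2 * k) + (2 * y3) ^ (2 * k)
    + (2 * y4) ^ (2 * k) + 0 ^ (2 * k) + 0 ^ (2 * k) = _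
  rw [h0]
  ring

lemma shell5 (m : ℕ) (A y1 y2 y3 y4 : ℤ) (hx : A ^ 2 + (y1 ^ 2 + y2 ^ 2 + y3 ^ 2 + y4 ^ 2) = 2 * (m : ℤ)) :
    InShell m ![2 * A, 2 * y1, 2 * y2, 2 * y3, 2 * y4, 0, 0, 0] := by
  refine ⟨⟨?_, ?_⟩, ?_⟩
  · have : ∀ i, (![2 * A, 2 * y1, 2 * y2, 2 * y3, 2 * y4, 0, 0, 0] : Fin 8 → ℤ) i % 2 = 0 := by
      intro i
      fin_cases i <;> simp
    intro i j
    rw [this, this]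
  · rw [Fin.sum_univ_eight]
    show (2 * A + 2 * y1 + 2 * y2 + 2 * y3 + 2 * y4 + 0 + 0 + 0) % 4 = 0
    rw [add_zero, add_zero, add_zero]
    exact par m A y1 y2 y3 y4 hx
  · rw [Fin.sum_univ_eight]
    show (2 * A) ^ 2 + (2 * y1) ^ 2 + (2 * y2) ^ 2 + (2 * y3) ^ 2 + (2 * y4) ^ 2 + 0 ^ 2 + 0 ^ 2 + 0 ^ 2 = 8 * (m : ℤ)
    linarith

lemma shell6 (m : ℕ) (A y1 y2 y3 y4 : ℤ) (hx : 2 * A ^ 2 + (y1 ^ 2 + y2 ^ 2 + y3 ^ 2 + y4 ^ 2) = 2 * (m : ℤ)) :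
    InShell m ![2 * A, 2 * A, 2 * y1, 2 * y2, 2 * y3, 2 * y4, 0, 0] := by
  refine ⟨⟨?_, ?_⟩, ?_⟩
  · have : ∀ i, (![2 * A, 2 * A, 2 * y1, 2 * y2, 2 * y3, 2 * y4, 0, 0] : Fin 8 → ℤ) i % 2 = 0 := by
      intro i
      fin_cases i <;> simp
    intro i j
    rw [this, this]
  · rw [Fin.sum_univ_eight]
    show (2 * A + 2 * A + 2 * y1 + 2 * y2 + 2 * y3 + 2 * y4 + 0 + 0) % 4 = 0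
    have := par (m - A ^ 2) 0 y1 y2 y3 y4 (by linarith)
    omega
  · rw [Fin.sum_univ_eight]
    show (2 * A) ^ 2 + (2 * A) ^ 2 + (2 * y1) ^ 2 + (2 * y2) ^ 2 + (2 * y3) ^ 2 + (2 * y4) ^ 2 + 0 ^ 2 + 0 ^ 2 =
      8 * (m : ℤ)
    linarith

end FanL

open FanL in
theorem fan (hR : S_RSF) : S_FAN := by
  intro m hm
  obtain ⟨a, ha⟩ : ∃ a, a = Nat.sqrt (2 * m) := ⟨_, rfl⟩
  have ha1 : a ^ 2 ≤ 2 * m := by rw [ha]; exact Nat.sqrt_le' _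
  have ha2 : 2 * m < (a + 1) ^ 2 := by rw [ha]; exact Nat.lt_succ_sqrt' _
  have ha3 : 25 ≤ a := by
    rw [ha, Nat.le_sqrt]
    omega
  clear ha
  obtain ⟨x1, x2, x3, x4, hx⟩ := Nat.sum_four_squares (2 * m - a ^ 2)
  have hx' : ((a : ℤ)) ^ 2 + ((x1 : ℤ) ^ 2 + (x2 : ℤ) ^ 2 + (x3 : ℤ) ^ 2 + (x4 : ℤ) ^ 2) = 2 * (m : ℤ) := by
    have : a ^ 2 + (x1 ^ 2 + x2 ^ 2 + x3 ^ 2 + x4 ^ 2) = 2 * m := by omega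
    exact_mod_cast this
  have ha3' : (25 : ℤ) ≤ a := by exact_mod_cast ha3
  have ha2' : 2 * (m : ℤ) < ((a : ℤ) + 1) ^ 2 := by exact_mod_cast ha2
  have hs := shell5 m a x1 x2 x3 x4 hx'
  have h := hR _ hs.1
  rw [Finset.prod_eq_zero (Finset.mem_univ (7 : Fin 8)) rfl] at h
  refine ⟨_, hs, finneg m a x1 x2 x3 x4 _ ha3' hx' ha2' _ _ _ _ ?_ ?_ ?_ ?_ h⟩
  · rw [P5 _ _ _ _ _ 1 (by norm_num)]; ring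
  · rw [P5 _ _ _ _ _ 2 (by norm_num)]; ring
  · rw [P5 _ _ _ _ _ 3 (by norm_num)]; ring
  · rw [P5 _ _ _ _ _ 4 (by norm_num)]; ring

end Pool.Agent.Helper17K9.WP
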