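import Pool.Agent.Helper17K9.WP.Fan

set_option autoImplicit false

/-!
# Vectors with a large root sum [FAP]
-/

namespace Pool.Agent.Helper17K9.WP

open Pool.Agent.Q10.E8 Pool.Agent.Helper17K9.EX

open FanL in
theorem fap (hR : S_RSF) : S_FAP := by
  intro m hm
  obtain ⟨a, ha⟩ : ∃ a, a = Nat.sqrt m := ⟨_, rfl⟩
  have ha1 : a ^ 2 ≤ m := by rw [ha]; exact Nat.sqrt_le' _
  have ha2 : m < (a + 1) ^ 2 := by rw [ha]; exact Nat.lt_succ_sqrt' _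
  have ha3 : 16 ≤ a := by
    rw [ha, Nat.le_sqrt]
    omega
  clear ha
  obtain ⟨x1, x2, x3, x4, hx⟩ := Nat.sum_four_squares (2 * m - 2 * a ^ 2)
  have hx' : 2 * ((a : ℤ)) ^ 2 + ((x1 : ℤ) ^ 2 + (x2 : ℤ) ^ 2 + (x3 : ℤ) ^ 2 + (x4 : ℤ) ^ 2) = 2 * (m : ℤ) := by
    have : 2 * a ^ 2 + (x1 ^ 2 + x2 ^ 2 + x3 ^ 2 + x4 ^ 2) = 2 * m := by omega
    exact_mod_cast this
  have ha3' : (16 : ℤ) ≤ a := by exact_mod_cast ha3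
  have ha2' : (m : ℤ) < ((a : ℤ) + 1) ^ 2 := by exact_mod_cast ha2
  have hs := shell6 m a x1 x2 x3 x4 hx'
  have h := hR _ hs.1
  rw [Finset.prod_eq_zero (Finset.mem_univ (7 : Fin 8)) rfl] at h
  refine ⟨_, hs, finpos m a x1 x2 x3 x4 _ ha3' hx' ha2' _ _ _ _ ?_ ?_ ?_ ?_ h⟩
  · rw [P6 _ _ _ _ _ 1 (by norm_num)]; ring
  · rw [P6 _ _ _ _ _ 2 (by norm_num)]; ring
  · rw [P6 _ _ _ _ _ 3 (by norm_num)]; ring
  · rw [P6 _ _ _ _ _ 4 (by norm_num)]; ring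

end Pool.Agent.Helper17K9.WP
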