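import Pool.Agent.Helper17K9.WP.Stm

set_option autoImplicit false

namespace Pool.Agent.Helper17K9.WP

open Pool.Agent.Q10.E8 Pool.Agent.Helper17K9.EX

theorem cub_mono {s t m : ℕ} {Y : Finset (Fin 8 → ℤ)} {w : (Fin 8 → ℤ) → ℝ} (h : s ≤ t)
    (hc : Cubature t m Y w) : Cubature s m Y w := fun p hp => hc p (hp.trans h)

theorem construct (h1 : S_LIN) (h2 : S_TEN) (h3 : S_LAM) (h4 : S_AUT) (h5 : S_SRS) (m : ℕ) (hm : 1 ≤ m)
    (hn : ∃ v, InShell m v ∧ rootSum v < 480 * (m : ℤ) ^ 4)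
    (hp : ∃ v, InShell m v ∧ 480 * (m : ℤ) ^ 4 < rootSum v) :
    ∃ w : (Fin 8 → ℤ) → ℕ, (∀ v ∈ shell m, 0 < w v) ∧ Cubature 11 m (shell m) (fun v => (w v : ℝ)) := by
  classical
  set c : ℤ := 480 * (m : ℤ) ^ 4 with hc
  set A' : ℤ := ∑ v ∈ (shell m).filter (fun v => c < rootSum v), (rootSum v - c) with hA'
  set B' : ℤ := ∑ v ∈ (shell m).filter (fun v => rootSum v < c), (c - rootSum v) with hB'
  have hA0' : 0 < A' := by
    obtain ⟨v, hv1, hv2⟩ := hp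
    rw [hA']
    refine Finset.sum_pos ?_ ⟨v, Finset.mem_filter.2 ⟨(mem_shell m v).2 hv1, hv2⟩⟩
    intro u hu
    have := (Finset.mem_filter.1 hu).2
    linarith
  have hB0' : 0 < B' := by
    obtain ⟨v, hv1, hv2⟩ := hn
    rw [hB']
    refine Finset.sum_pos ?_ ⟨v, Finset.mem_filter.2 ⟨(mem_shell m v).2 hv1, hv2⟩⟩
    intro u hu
    have := (Finset.mem_filter.1 hu).2
    linarith
  set A : ℝ := ∑ v ∈ (shell m).filter (fun v => c < rootSum v), ((rootSum v : ℝ) - (c : ℝ)) with hA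
  set B : ℝ := ∑ v ∈ (shell m).filter (fun v => rootSum v < c), ((c : ℝ) - (rootSum v : ℝ)) with hB
  have hAA : ((A'.toNat : ℕ) : ℝ) = A := by
    have h : ((A'.toNat : ℕ) : ℤ) = A' := Int.toNat_of_nonneg hA0'.le
    have h' : ((A'.toNat : ℕ) : ℝ) = (A' : ℝ) := by exact_mod_cast h
    rw [h', hA, hA']
    push_cast
    rfl
  have hBB : ((B'.toNat : ℕ) : ℝ) = B := by
    have h : ((B'.toNat : ℕ) : ℤ) = B' := Int.toNat_of_nonneg hB0'.le
    have h' : ((B'.toNat : ℕ) : ℝ) = (B' : ℝ) := by exact_mod_cast h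
    rw [h', hB, hB']
    push_cast
    rfl
  let ψ : ℤ → ℕ := fun x => if c < x then B'.toNat else if x < c then A'.toNat else 1
  let φ : ℤ → ℝ := fun x => (ψ x : ℝ)
  have hφd : ∀ x, φ x = if c < x then B else if x < c then A else 1 := by
    intro x
    show (((if c < x then B'.toNat else if x < c then A'.toNat else 1 : ℕ)) : ℝ) = _
    split_ifs
    · exact hBB
    · exact hAA
    · norm_num
  have hψ : ∀ x, 0 < ψ x := by
    intro x
    show 0 < (if c < x then B'.toNat else if x < c then A'.toNat else 1)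
    split_ifs
    · omega
    · omega
    · exact one_pos
  refine ⟨fun v => ψ (rootSum v), fun v _ => hψ _, ?_⟩
  have hz : ∑ v ∈ shell m, φ (rootSum v) * ((rootSum v : ℝ) - (c : ℝ)) = 0 := by
    have e : ∀ v ∈ shell m, φ (rootSum v) * ((rootSum v : ℝ) - (c : ℝ)) =
        B * (if c < rootSum v then ((rootSum v : ℝ) - (c : ℝ)) else 0) -
        A * (if rootSum v < c then ((c : ℝ) - (rootSum v : ℝ)) else 0) := by
      intro v _
      rw [hφd]
      rcases lt_trichotomy (rootSum v) c with h | h | h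
      · rw [if_neg (not_lt.2 h.le), if_pos h, if_neg (not_lt.2 h.le), if_pos h]
        ring
      · rw [h]
        simp
      · rw [if_pos h, if_pos h, if_neg (not_lt.2 h.le)]
        ring
    rw [Finset.sum_congr rfl e, Finset.sum_sub_distrib, ← Finset.mul_sum, ← Finset.mul_sum,
      ← Finset.sum_filter, ← Finset.sum_filter, ← hA, ← hB]
    ring
  obtain ⟨hW, hR⟩ := h4 m φ
  have hE : ∀ v ∈ shell m, IsE8 v := fun v hv => ((mem_shell m v).1 hv).1
  have hS := h5 (8 * (m : ℤ)) (shell m) (fun v => φ (rootSum v)) hW hR hE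
  have hsum : ∑ v ∈ shell m, φ (rootSum v) * (rootSum v : ℝ) =
      480 * (m : ℝ) ^ 4 * WW (shell m) (fun v => φ (rootSum v)) := by
    have e2 : ∑ v ∈ shell m, φ (rootSum v) * ((rootSum v : ℝ) - (c : ℝ)) =
        ∑ v ∈ shell m, φ (rootSum v) * (rootSum v : ℝ) -
          (c : ℝ) * WW (shell m) (fun v => φ (rootSum v)) := by
      unfold WW
      rw [Finset.mul_sum, ← Finset.sum_sub_distrib]
      exact Finset.sum_congr rfl fun v _ => by ring
    rw [hz] at e2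
    have e3 : (c : ℝ) = 480 * (m : ℝ) ^ 4 := by rw [hc]; push_cast; ring
    rw [e3] at e2
    linarith
  have hG : G (shell m) (fun v => φ (rootSum v)) 8 ![2, 2, 0, 0, 0, 0, 0, 0] =
      32 * (((8 * (m : ℤ) : ℤ) : ℝ)) ^ 4 * WW (shell m) (fun v => φ (rootSum v)) := by
    have hS' : 65536 * ∑ v ∈ shell m, φ (rootSum v) * (rootSum v : ℝ) =
      240 * G (shell m) (fun v => φ (rootSum v)) 8 ![2, 2, 0, 0, 0, 0, 0, 0] := hS
    rw [hsum] at hS'
    push_cast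
    nlinarith [hS']
  obtain ⟨l1, l2, l3, l4, l5, l6, l7, l8⟩ := h1 (8 * (m : ℤ)) (shell m) (fun v => φ (rootSum v)) hW hR hG
  obtain ⟨t1, t2⟩ := h2 (8 * (m : ℤ)) (shell m) (fun v => φ (rootSum v)) hW l1 l2 l3 l4 l5 l6 l7 l8
  exact h3 m (shell m) (fun v => φ (rootSum v)) hm hW t1 t2

theorem shell_ne (m : ℕ) : ∃ v, v ∈ shell m := by
  obtain ⟨r, h1, h2⟩ := exists_vec m
  exact ⟨r, (mem_shell _ _).2 ⟨h1, h2⟩⟩

theorem nec' (h1 : S_ONE) (h2 : S_NEC) (m : ℕ) (w : (Fin 8 → ℤ) → ℝ) (h0 : ∀ v ∈ shell m, 0 ≤ w v)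
    (hne : ∃ v ∈ shell m, w v ≠ 0) (hc : Cubature 8 m (shell m) w) :
    ¬ (m = 1 ∨ m = 2 ∨ m = 3 ∨ m = 5 ∨ m = 6) := by
  intro hm
  have h := h2 m (shell m) w (fun v hv => (mem_shell m v).1 hv) hc
  obtain ⟨v, hv, hwv⟩ := hne
  have hpos : 0 < w v := lt_of_le_of_ne (h0 v hv) (Ne.symm hwv)
  have hcase : (∀ u, InShell m u → 480 * (m : ℤ) ^ 4 < rootSum u) ∨
      (∀ u, InShell m u → rootSum u < 480 * (m : ℤ) ^ 4) := by
    rcases hm with h | h | h | h | h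
    · exact Or.inl (h1.1 m (by omega))
    · exact Or.inr (h1.2 m (by omega))
    · exact Or.inl (h1.1 m (by omega))
    · exact Or.inl (h1.1 m (by omega))
    · exact Or.inr (h1.2 m (by omega))
  rcases hcase with hs | hs
  · have : 0 < ∑ u ∈ shell m, w u * ((rootSum u : ℝ) - 480 * (m : ℝ) ^ 4) := by
      refine Finset.sum_pos' ?_ ⟨v, hv, ?_⟩
      · intro u hu
        have h3 := hs u ((mem_shell m u).1 hu)
        have h4 : 480 * (m : ℝ) ^ 4 < (rootSum u : ℝ) := by exact_mod_cast h3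
        exact mul_nonneg (h0 u hu) (by linarith)
      · have h3 := hs v ((mem_shell m v).1 hv)
        have h4 : 480 * (m : ℝ) ^ 4 < (rootSum v : ℝ) := by exact_mod_cast h3
        exact mul_pos hpos (by linarith)
    linarith
  · have : 0 < ∑ u ∈ shell m, w u * (480 * (m : ℝ) ^ 4 - (rootSum u : ℝ)) := by
      refine Finset.sum_pos' ?_ ⟨v, hv, ?_⟩
      · intro u hu
        have h3 := hs u ((mem_shell m u).1 hu)
        have h4 : (rootSum u : ℝ) < 480 * (m : ℝ) ^ 4 := by exact_mod_cast h3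
        exact mul_nonneg (h0 u hu) (by linarith)
      · have h3 := hs v ((mem_shell m v).1 hv)
        have h4 : (rootSum v : ℝ) < 480 * (m : ℝ) ^ 4 := by exact_mod_cast h3
        exact mul_pos hpos (by linarith)
    have e : ∑ u ∈ shell m, w u * (480 * (m : ℝ) ^ 4 - (rootSum u : ℝ)) =
        - ∑ u ∈ shell m, w u * ((rootSum u : ℝ) - 480 * (m : ℝ) ^ 4) := by
      rw [← Finset.sum_neg_distrib]
      exact Finset.sum_congr rfl fun u _ => by ring
    linarith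

/-- The final theorem (with positive integral weights in degree 11, so the shell with multiplicities). -/
def S_FIN2 : Prop := ∀ m : ℕ, 1 ≤ m →
  ((∃ w : (Fin 8 → ℤ) → ℕ, (∀ v ∈ shell m, 0 < w v) ∧ Cubature 11 m (shell m) (fun v => (w v : ℝ))) ↔
    ¬ (m = 1 ∨ m = 2 ∨ m = 3 ∨ m = 5 ∨ m = 6)) ∧
  ((∃ w : (Fin 8 → ℤ) → ℝ, (∀ v ∈ shell m, 0 ≤ w v) ∧ (∃ v ∈ shell m, w v ≠ 0) ∧ Cubature 8 m (shell m) w) ↔
    ¬ (m = 1 ∨ m = 2 ∨ m = 3 ∨ m = 5 ∨ m = 6))

theorem fin_of (h1 : S_LIN) (h2 : S_TEN) (h3 : S_LAM) (h4 : S_AUT) (h5 : S_SRS) (hfn : S_FAN) (hfp : S_FAP)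
    (hsn : S_SMN) (hsp : S_SMP) (ho : S_ONE) (hc : S_NEC) : S_FIN2 := by
  intro m hm
  have key : ¬ (m = 1 ∨ m = 2 ∨ m = 3 ∨ m = 5 ∨ m = 6) →
      ∃ w : (Fin 8 → ℤ) → ℕ, (∀ v ∈ shell m, 0 < w v) ∧ Cubature 11 m (shell m) (fun v => (w v : ℝ)) := by
    intro hne
    have h47 : m = 4 ∨ 7 ≤ m := by omega
    have hn : ∃ v, InShell m v ∧ rootSum v < 480 * (m : ℤ) ^ 4 := by
      by_cases h : m < 313
      · exact hsn m h47 h
      · exact hfn m (by omega)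
    have hp : ∃ v, InShell m v ∧ 480 * (m : ℤ) ^ 4 < rootSum v := by
      by_cases h : m < 256
      · exact hsp m h47 h
      · exact hfp m (by omega)
    exact construct h1 h2 h3 h4 h5 m hm hn hp
  have pos : ∀ w : (Fin 8 → ℤ) → ℕ, (∀ v ∈ shell m, 0 < w v) →
      (∀ v ∈ shell m, (0 : ℝ) ≤ (w v : ℝ)) ∧ (∃ v ∈ shell m, (w v : ℝ) ≠ 0) := by
    intro w hw
    obtain ⟨v, hv⟩ := shell_ne m
    refine ⟨fun v _ => Nat.cast_nonneg _, v, hv, ?_⟩
    have := hw v hv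
    exact_mod_cast this.ne'
  refine ⟨⟨?_, key⟩, ⟨?_, ?_⟩⟩
  · rintro ⟨w, hw1, hw2⟩
    obtain ⟨p1, p2⟩ := pos w hw1
    exact nec' ho hc m (fun v => (w v : ℝ)) p1 p2 (cub_mono (by norm_num) hw2)
  · rintro ⟨w, hw1, hw2, hw3⟩
    exact nec' ho hc m w hw1 hw2 hw3
  · intro h
    obtain ⟨w, a, b⟩ := key h
    obtain ⟨p1, p2⟩ := pos w a
    exact ⟨fun v => (w v : ℝ), p1, p2, cub_mono (by norm_num) b⟩

end Pool.Agent.Helper17K9.WP
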