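import Pool.Agent.Helper17K9.WP.Stm

set_option autoImplicit false

/-!
# Leaf LIN: the linear algebra of the weighted monomial sums
-/

namespace Pool.Agent.Helper17K9.WP

open Pool.Agent.Q10.E8 Pool.Agent.Helper17K9.EX

namespace LinL

/-- consequences of `S_TSY` for one weighted set -/
def H (N : ℤ) (Y : Finset (Fin 8 → ℤ)) (w : (Fin 8 → ℤ) → ℝ) : Prop :=
  (∀ (β : Fin 8 → ℕ) (π : Equiv.Perm (Fin 8)), TT Y w (fun i => β (π i)) = TT Y w β) ∧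
  (∀ (β : Fin 8 → ℕ) (i j : Fin 8), Even (β i) → Odd (β j) → TT Y w β = 0) ∧
  (∀ β : Fin 8 → ℕ, (N : ℝ) * TT Y w β = ∑ i, TT Y w (fun l => if l = i then β l + 2 else β l))

theorem Tms {Y : Finset (Fin 8 → ℤ)} {w : (Fin 8 → ℤ) → ℝ}
    (hT : ∀ (β : Fin 8 → ℕ) (π : Equiv.Perm (Fin 8)), TT Y w (fun i => β (π i)) = TT Y w β)
    (β β' : Fin 8 → ℕ) (h : (List.ofFn β).Perm (List.ofFn β')) : TT Y w β = TT Y w β' := by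
  have h1 : List.ofFn (β ∘ Tuple.sort β) = List.ofFn (β' ∘ Tuple.sort β') := by
    apply List.Perm.eq_of_sortedLE
    · exact (Tuple.monotone_sort β).sortedLE_ofFn
    · exact (Tuple.monotone_sort β').sortedLE_ofFn
    · exact ((Tuple.sort β).ofFn_comp_perm β).trans (h.trans ((Tuple.sort β').ofFn_comp_perm β').symm)
  have h2 := List.ofFn_injective h1
  have h3 := hT β (Tuple.sort β)
  have h4 := hT β' (Tuple.sort β')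
  have h5 : (fun i => β (Tuple.sort β i)) = (fun i => β' (Tuple.sort β' i)) := h2
  rw [← h3, ← h4, h5]

theorem rel_0 {N : ℤ} {Y : Finset (Fin 8 → ℤ)} {w : (Fin 8 → ℤ) → ℝ}
    (h : H N Y w) :
    (N : ℝ) * TT Y w ![0, 0, 0, 0, 0, 0, 0, 0] = 8 * TT Y w ![2, 0, 0, 0, 0, 0, 0, 0] := by
    rw [(h.2.2 ![0, 0, 0, 0, 0, 0, 0, 0]), Fin.sum_univ_eight,
      Tms h.1 (fun l => if l = 0 then (![0, 0, 0, 0, 0, 0, 0, 0] : Fin 8 → ℕ) l + 2 else (![0, 0, 0, 0, 0, 0, 0, 0] : Fin 8 → ℕ) l) ![2, 0, 0, 0, 0, 0, 0, 0] (by decide +kernel),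
      Tms h.1 (fun l => if l = 1 then (![0, 0, 0, 0, 0, 0, 0, 0] : Fin 8 → ℕ) l + 2 else (![0, 0, 0, 0, 0, 0, 0, 0] : Fin 8 → ℕ) l) ![2, 0, 0, 0, 0, 0, 0, 0] (by decide +kernel),
      Tms h.1 (fun l => if l = 2 then (![0, 0, 0, 0, 0, 0, 0, 0] : Fin 8 → ℕ) l + 2 else (![0, 0, 0, 0, 0, 0, 0, 0] : Fin 8 → ℕ) l) ![2, 0, 0, 0, 0, 0, 0, 0] (by decide +kernel),
      Tms h.1 (fun l => if l = 3 then (![0, 0, 0, 0, 0, 0, 0, 0] : Fin 8 → ℕ) l + 2 else (![0, 0, 0, 0, 0, 0, 0, 0] : Fin 8 → ℕ) l) ![2, 0, 0, 0, 0, 0, 0, 0] (by decide +kernel),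
      Tms h.1 (fun l => if l = 4 then (![0, 0, 0, 0, 0, 0, 0, 0] : Fin 8 → ℕ) l + 2 else (![0, 0, 0, 0, 0, 0, 0, 0] : Fin 8 → ℕ) l) ![2, 0, 0, 0, 0, 0, 0, 0] (by decide +kernel),
      Tms h.1 (fun l => if l = 5 then (![0, 0, 0, 0, 0, 0, 0, 0] : Fin 8 → ℕ) l + 2 else (![0, 0, 0, 0, 0, 0, 0, 0] : Fin 8 → ℕ) l) ![2, 0, 0, 0, 0, 0, 0, 0] (by decide +kernel),
      Tms h.1 (fun l => if l = 6 then (![0, 0, 0, 0, 0, 0, 0, 0] : Fin 8 → ℕ) l + 2 else (![0, 0, 0, 0, 0, 0, 0, 0] : Fin 8 → ℕ) l) ![2, 0, 0, 0, 0, 0, 0, 0] (by decide +kernel),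
      Tms h.1 (fun l => if l = 7 then (![0, 0, 0, 0, 0, 0, 0, 0] : Fin 8 → ℕ) l + 2 else (![0, 0, 0, 0, 0, 0, 0, 0] : Fin 8 → ℕ) l) ![2, 0, 0, 0, 0, 0, 0, 0] (by decide +kernel)]
    ring

theorem rel_2 {N : ℤ} {Y : Finset (Fin 8 → ℤ)} {w : (Fin 8 → ℤ) → ℝ}
    (h : H N Y w) :
    (N : ℝ) * TT Y w ![2, 0, 0, 0, 0, 0, 0, 0] = 1 * TT Y w ![4, 0, 0, 0, 0, 0, 0, 0] + 7 * TT Y w ![2, 2, 0, 0, 0, 0, 0, 0] := by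
    rw [(h.2.2 ![2, 0, 0, 0, 0, 0, 0, 0]), Fin.sum_univ_eight,
      Tms h.1 (fun l => if l = 0 then (![2, 0, 0, 0, 0, 0, 0, 0] : Fin 8 → ℕ) l + 2 else (![2, 0, 0, 0, 0, 0, 0, 0] : Fin 8 → ℕ) l) ![4, 0, 0, 0, 0, 0, 0, 0] (by decide +kernel),
      Tms h.1 (fun l => if l = 1 then (![2, 0, 0, 0, 0, 0, 0, 0] : Fin 8 → ℕ) l + 2 else (![2, 0, 0, 0, 0, 0, 0, 0] : Fin 8 → ℕ) l) ![2, 2, 0, 0, 0, 0, 0, 0] (by decide +kernel),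
      Tms h.1 (fun l => if l = 2 then (![2, 0, 0, 0, 0, 0, 0, 0] : Fin 8 → ℕ) l + 2 else (![2, 0, 0, 0, 0, 0, 0, 0] : Fin 8 → ℕ) l) ![2, 2, 0, 0, 0, 0, 0, 0] (by decide +kernel),
      Tms h.1 (fun l => if l = 3 then (![2, 0, 0, 0, 0, 0, 0, 0] : Fin 8 → ℕ) l + 2 else (![2, 0, 0, 0, 0, 0, 0, 0] : Fin 8 → ℕ) l) ![2, 2, 0, 0, 0, 0, 0, 0] (by decide +kernel),
      Tms h.1 (fun l => if l = 4 then (![2, 0, 0, 0, 0, 0, 0, 0] : Fin 8 → ℕ) l + 2 else (![2, 0, 0, 0, 0, 0, 0, 0] : Fin 8 → ℕ) l) ![2, 2, 0, 0, 0, 0, 0, 0] (by decide +kernel),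
      Tms h.1 (fun l => if l = 5 then (![2, 0, 0, 0, 0, 0, 0, 0] : Fin 8 → ℕ) l + 2 else (![2, 0, 0, 0, 0, 0, 0, 0] : Fin 8 → ℕ) l) ![2, 2, 0, 0, 0, 0, 0, 0] (by decide +kernel),
      Tms h.1 (fun l => if l = 6 then (![2, 0, 0, 0, 0, 0, 0, 0] : Fin 8 → ℕ) l + 2 else (![2, 0, 0, 0, 0, 0, 0, 0] : Fin 8 → ℕ) l) ![2, 2, 0, 0, 0, 0, 0, 0] (by decide +kernel),
      Tms h.1 (fun l => if l = 7 then (![2, 0, 0, 0, 0, 0, 0, 0] : Fin 8 → ℕ) l + 2 else (![2, 0, 0, 0, 0, 0, 0, 0] : Fin 8 → ℕ) l) ![2, 2, 0, 0, 0, 0, 0, 0] (by decide +kernel)]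
    ring

theorem rel_4 {N : ℤ} {Y : Finset (Fin 8 → ℤ)} {w : (Fin 8 → ℤ) → ℝ}
    (h : H N Y w) :
    (N : ℝ) * TT Y w ![4, 0, 0, 0, 0, 0, 0, 0] = 1 * TT Y w ![6, 0, 0, 0, 0, 0, 0, 0] + 7 * TT Y w ![4, 2, 0, 0, 0, 0, 0, 0] := by
    rw [(h.2.2 ![4, 0, 0, 0, 0, 0, 0, 0]), Fin.sum_univ_eight,
      Tms h.1 (fun l => if l = 0 then (![4, 0, 0, 0, 0, 0, 0, 0] : Fin 8 → ℕ) l + 2 else (![4, 0, 0, 0, 0, 0, 0, 0] : Fin 8 → ℕ) l) ![6, 0, 0, 0, 0, 0, 0, 0] (by decide +kernel),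
      Tms h.1 (fun l => if l = 1 then (![4, 0, 0, 0, 0, 0, 0, 0] : Fin 8 → ℕ) l + 2 else (![4, 0, 0, 0, 0, 0, 0, 0] : Fin 8 → ℕ) l) ![4, 2, 0, 0, 0, 0, 0, 0] (by decide +kernel),
      Tms h.1 (fun l => if l = 2 then (![4, 0, 0, 0, 0, 0, 0, 0] : Fin 8 → ℕ) l + 2 else (![4, 0, 0, 0, 0, 0, 0, 0] : Fin 8 → ℕ) l) ![4, 2, 0, 0, 0, 0, 0, 0] (by decide +kernel),
      Tms h.1 (fun l => if l = 3 then (![4, 0, 0, 0, 0, 0, 0, 0] : Fin 8 → ℕ) l + 2 else (![4, 0, 0, 0, 0, 0, 0, 0] : Fin 8 → ℕ) l) ![4, 2, 0, 0, 0, 0, 0, 0] (by decide +kernel),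
      Tms h.1 (fun l => if l = 4 then (![4, 0, 0, 0, 0, 0, 0, 0] : Fin 8 → ℕ) l + 2 else (![4, 0, 0, 0, 0, 0, 0, 0] : Fin 8 → ℕ) l) ![4, 2, 0, 0, 0, 0, 0, 0] (by decide +kernel),
      Tms h.1 (fun l => if l = 5 then (![4, 0, 0, 0, 0, 0, 0, 0] : Fin 8 → ℕ) l + 2 else (![4, 0, 0, 0, 0, 0, 0, 0] : Fin 8 → ℕ) l) ![4, 2, 0, 0, 0, 0, 0, 0] (by decide +kernel),
      Tms h.1 (fun l => if l = 6 then (![4, 0, 0, 0, 0, 0, 0, 0] : Fin 8 → ℕ) l + 2 else (![4, 0, 0, 0, 0, 0, 0, 0] : Fin 8 → ℕ) l) ![4, 2, 0, 0, 0, 0, 0, 0] (by decide +kernel),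
      Tms h.1 (fun l => if l = 7 then (![4, 0, 0, 0, 0, 0, 0, 0] : Fin 8 → ℕ) l + 2 else (![4, 0, 0, 0, 0, 0, 0, 0] : Fin 8 → ℕ) l) ![4, 2, 0, 0, 0, 0, 0, 0] (by decide +kernel)]
    ring

theorem rel_2_2 {N : ℤ} {Y : Finset (Fin 8 → ℤ)} {w : (Fin 8 → ℤ) → ℝ}
    (h : H N Y w) :
    (N : ℝ) * TT Y w ![2, 2, 0, 0, 0, 0, 0, 0] = 2 * TT Y w ![4, 2, 0, 0, 0, 0, 0, 0] + 6 * TT Y w ![2, 2, 2, 0, 0, 0, 0, 0] := by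
    rw [(h.2.2 ![2, 2, 0, 0, 0, 0, 0, 0]), Fin.sum_univ_eight,
      Tms h.1 (fun l => if l = 0 then (![2, 2, 0, 0, 0, 0, 0, 0] : Fin 8 → ℕ) l + 2 else (![2, 2, 0, 0, 0, 0, 0, 0] : Fin 8 → ℕ) l) ![4, 2, 0, 0, 0, 0, 0, 0] (by decide +kernel),
      Tms h.1 (fun l => if l = 1 then (![2, 2, 0, 0, 0, 0, 0, 0] : Fin 8 → ℕ) l + 2 else (![2, 2, 0, 0, 0, 0, 0, 0] : Fin 8 → ℕ) l) ![4, 2, 0, 0, 0, 0, 0, 0] (by decide +kernel),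
      Tms h.1 (fun l => if l = 2 then (![2, 2, 0, 0, 0, 0, 0, 0] : Fin 8 → ℕ) l + 2 else (![2, 2, 0, 0, 0, 0, 0, 0] : Fin 8 → ℕ) l) ![2, 2, 2, 0, 0, 0, 0, 0] (by decide +kernel),
      Tms h.1 (fun l => if l = 3 then (![2, 2, 0, 0, 0, 0, 0, 0] : Fin 8 → ℕ) l + 2 else (![2, 2, 0, 0, 0, 0, 0, 0] : Fin 8 → ℕ) l) ![2, 2, 2, 0, 0, 0, 0, 0] (by decide +kernel),
      Tms h.1 (fun l => if l = 4 then (![2, 2, 0, 0, 0, 0, 0, 0] : Fin 8 → ℕ) l + 2 else (![2, 2, 0, 0, 0, 0, 0, 0] : Fin 8 → ℕ) l) ![2, 2, 2, 0, 0, 0, 0, 0] (by decide +kernel),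
      Tms h.1 (fun l => if l = 5 then (![2, 2, 0, 0, 0, 0, 0, 0] : Fin 8 → ℕ) l + 2 else (![2, 2, 0, 0, 0, 0, 0, 0] : Fin 8 → ℕ) l) ![2, 2, 2, 0, 0, 0, 0, 0] (by decide +kernel),
      Tms h.1 (fun l => if l = 6 then (![2, 2, 0, 0, 0, 0, 0, 0] : Fin 8 → ℕ) l + 2 else (![2, 2, 0, 0, 0, 0, 0, 0] : Fin 8 → ℕ) l) ![2, 2, 2, 0, 0, 0, 0, 0] (by decide +kernel),
      Tms h.1 (fun l => if l = 7 then (![2, 2, 0, 0, 0, 0, 0, 0] : Fin 8 → ℕ) l + 2 else (![2, 2, 0, 0, 0, 0, 0, 0] : Fin 8 → ℕ) l) ![2, 2, 2, 0, 0, 0, 0, 0] (by decide +kernel)]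
    ring

theorem rel_6 {N : ℤ} {Y : Finset (Fin 8 → ℤ)} {w : (Fin 8 → ℤ) → ℝ}
    (h : H N Y w) :
    (N : ℝ) * TT Y w ![6, 0, 0, 0, 0, 0, 0, 0] = 1 * TT Y w ![8, 0, 0, 0, 0, 0, 0, 0] + 7 * TT Y w ![6, 2, 0, 0, 0, 0, 0, 0] := by
    rw [(h.2.2 ![6, 0, 0, 0, 0, 0, 0, 0]), Fin.sum_univ_eight,
      Tms h.1 (fun l => if l = 0 then (![6, 0, 0, 0, 0, 0, 0, 0] : Fin 8 → ℕ) l + 2 else (![6, 0, 0, 0, 0, 0, 0, 0] : Fin 8 → ℕ) l) ![8, 0, 0, 0, 0, 0, 0, 0] (by decide +kernel),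
      Tms h.1 (fun l => if l = 1 then (![6, 0, 0, 0, 0, 0, 0, 0] : Fin 8 → ℕ) l + 2 else (![6, 0, 0, 0, 0, 0, 0, 0] : Fin 8 → ℕ) l) ![6, 2, 0, 0, 0, 0, 0, 0] (by decide +kernel),
      Tms h.1 (fun l => if l = 2 then (![6, 0, 0, 0, 0, 0, 0, 0] : Fin 8 → ℕ) l + 2 else (![6, 0, 0, 0, 0, 0, 0, 0] : Fin 8 → ℕ) l) ![6, 2, 0, 0, 0, 0, 0, 0] (by decide +kernel),
      Tms h.1 (fun l => if l = 3 then (![6, 0, 0, 0, 0, 0, 0, 0] : Fin 8 → ℕ) l + 2 else (![6, 0, 0, 0, 0, 0, 0, 0] : Fin 8 → ℕ) l) ![6, 2, 0, 0, 0, 0, 0, 0] (by decide +kernel),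
      Tms h.1 (fun l => if l = 4 then (![6, 0, 0, 0, 0, 0, 0, 0] : Fin 8 → ℕ) l + 2 else (![6, 0, 0, 0, 0, 0, 0, 0] : Fin 8 → ℕ) l) ![6, 2, 0, 0, 0, 0, 0, 0] (by decide +kernel),
      Tms h.1 (fun l => if l = 5 then (![6, 0, 0, 0, 0, 0, 0, 0] : Fin 8 → ℕ) l + 2 else (![6, 0, 0, 0, 0, 0, 0, 0] : Fin 8 → ℕ) l) ![6, 2, 0, 0, 0, 0, 0, 0] (by decide +kernel),
      Tms h.1 (fun l => if l = 6 then (![6, 0, 0, 0, 0, 0, 0, 0] : Fin 8 → ℕ) l + 2 else (![6, 0, 0, 0, 0, 0, 0, 0] : Fin 8 → ℕ) l) ![6, 2, 0, 0, 0, 0, 0, 0] (by decide +kernel),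
      Tms h.1 (fun l => if l = 7 then (![6, 0, 0, 0, 0, 0, 0, 0] : Fin 8 → ℕ) l + 2 else (![6, 0, 0, 0, 0, 0, 0, 0] : Fin 8 → ℕ) l) ![6, 2, 0, 0, 0, 0, 0, 0] (by decide +kernel)]
    ring

theorem rel_4_2 {N : ℤ} {Y : Finset (Fin 8 → ℤ)} {w : (Fin 8 → ℤ) → ℝ}
    (h : H N Y w) :
    (N : ℝ) * TT Y w ![4, 2, 0, 0, 0, 0, 0, 0] = 1 * TT Y w ![6, 2, 0, 0, 0, 0, 0, 0] + 1 * TT Y w ![4, 4, 0, 0, 0, 0, 0, 0] + 6 * TT Y w ![4, 2, 2, 0, 0, 0, 0, 0] := by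
    rw [(h.2.2 ![4, 2, 0, 0, 0, 0, 0, 0]), Fin.sum_univ_eight,
      Tms h.1 (fun l => if l = 0 then (![4, 2, 0, 0, 0, 0, 0, 0] : Fin 8 → ℕ) l + 2 else (![4, 2, 0, 0, 0, 0, 0, 0] : Fin 8 → ℕ) l) ![6, 2, 0, 0, 0, 0, 0, 0] (by decide +kernel),
      Tms h.1 (fun l => if l = 1 then (![4, 2, 0, 0, 0, 0, 0, 0] : Fin 8 → ℕ) l + 2 else (![4, 2, 0, 0, 0, 0, 0, 0] : Fin 8 → ℕ) l) ![4, 4, 0, 0, 0, 0, 0, 0] (by decide +kernel),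
      Tms h.1 (fun l => if l = 2 then (![4, 2, 0, 0, 0, 0, 0, 0] : Fin 8 → ℕ) l + 2 else (![4, 2, 0, 0, 0, 0, 0, 0] : Fin 8 → ℕ) l) ![4, 2, 2, 0, 0, 0, 0, 0] (by decide +kernel),
      Tms h.1 (fun l => if l = 3 then (![4, 2, 0, 0, 0, 0, 0, 0] : Fin 8 → ℕ) l + 2 else (![4, 2, 0, 0, 0, 0, 0, 0] : Fin 8 → ℕ) l) ![4, 2, 2, 0, 0, 0, 0, 0] (by decide +kernel),
      Tms h.1 (fun l => if l = 4 then (![4, 2, 0, 0, 0, 0, 0, 0] : Fin 8 → ℕ) l + 2 else (![4, 2, 0, 0, 0, 0, 0, 0] : Fin 8 → ℕ) l) ![4, 2, 2, 0, 0, 0, 0, 0] (by decide +kernel),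
      Tms h.1 (fun l => if l = 5 then (![4, 2, 0, 0, 0, 0, 0, 0] : Fin 8 → ℕ) l + 2 else (![4, 2, 0, 0, 0, 0, 0, 0] : Fin 8 → ℕ) l) ![4, 2, 2, 0, 0, 0, 0, 0] (by decide +kernel),
      Tms h.1 (fun l => if l = 6 then (![4, 2, 0, 0, 0, 0, 0, 0] : Fin 8 → ℕ) l + 2 else (![4, 2, 0, 0, 0, 0, 0, 0] : Fin 8 → ℕ) l) ![4, 2, 2, 0, 0, 0, 0, 0] (by decide +kernel),
      Tms h.1 (fun l => if l = 7 then (![4, 2, 0, 0, 0, 0, 0, 0] : Fin 8 → ℕ) l + 2 else (![4, 2, 0, 0, 0, 0, 0, 0] : Fin 8 → ℕ) l) ![4, 2, 2, 0, 0, 0, 0, 0] (by decide +kernel)]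
    ring

theorem rel_2_2_2 {N : ℤ} {Y : Finset (Fin 8 → ℤ)} {w : (Fin 8 → ℤ) → ℝ}
    (h : H N Y w) :
    (N : ℝ) * TT Y w ![2, 2, 2, 0, 0, 0, 0, 0] = 3 * TT Y w ![4, 2, 2, 0, 0, 0, 0, 0] + 5 * TT Y w ![2, 2, 2, 2, 0, 0, 0, 0] := by
    rw [(h.2.2 ![2, 2, 2, 0, 0, 0, 0, 0]), Fin.sum_univ_eight,
      Tms h.1 (fun l => if l = 0 then (![2, 2, 2, 0, 0, 0, 0, 0] : Fin 8 → ℕ) l + 2 else (![2, 2, 2, 0, 0, 0, 0, 0] : Fin 8 → ℕ) l) ![4, 2, 2, 0, 0, 0, 0, 0] (by decide +kernel),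
      Tms h.1 (fun l => if l = 1 then (![2, 2, 2, 0, 0, 0, 0, 0] : Fin 8 → ℕ) l + 2 else (![2, 2, 2, 0, 0, 0, 0, 0] : Fin 8 → ℕ) l) ![4, 2, 2, 0, 0, 0, 0, 0] (by decide +kernel),
      Tms h.1 (fun l => if l = 2 then (![2, 2, 2, 0, 0, 0, 0, 0] : Fin 8 → ℕ) l + 2 else (![2, 2, 2, 0, 0, 0, 0, 0] : Fin 8 → ℕ) l) ![4, 2, 2, 0, 0, 0, 0, 0] (by decide +kernel),
      Tms h.1 (fun l => if l = 3 then (![2, 2, 2, 0, 0, 0, 0, 0] : Fin 8 → ℕ) l + 2 else (![2, 2, 2, 0, 0, 0, 0, 0] : Fin 8 → ℕ) l) ![2, 2, 2, 2, 0, 0, 0, 0] (by decide +kernel),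
      Tms h.1 (fun l => if l = 4 then (![2, 2, 2, 0, 0, 0, 0, 0] : Fin 8 → ℕ) l + 2 else (![2, 2, 2, 0, 0, 0, 0, 0] : Fin 8 → ℕ) l) ![2, 2, 2, 2, 0, 0, 0, 0] (by decide +kernel),
      Tms h.1 (fun l => if l = 5 then (![2, 2, 2, 0, 0, 0, 0, 0] : Fin 8 → ℕ) l + 2 else (![2, 2, 2, 0, 0, 0, 0, 0] : Fin 8 → ℕ) l) ![2, 2, 2, 2, 0, 0, 0, 0] (by decide +kernel),
      Tms h.1 (fun l => if l = 6 then (![2, 2, 2, 0, 0, 0, 0, 0] : Fin 8 → ℕ) l + 2 else (![2, 2, 2, 0, 0, 0, 0, 0] : Fin 8 → ℕ) l) ![2, 2, 2, 2, 0, 0, 0, 0] (by decide +kernel),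
      Tms h.1 (fun l => if l = 7 then (![2, 2, 2, 0, 0, 0, 0, 0] : Fin 8 → ℕ) l + 2 else (![2, 2, 2, 0, 0, 0, 0, 0] : Fin 8 → ℕ) l) ![2, 2, 2, 2, 0, 0, 0, 0] (by decide +kernel)]
    ring

theorem rel_8 {N : ℤ} {Y : Finset (Fin 8 → ℤ)} {w : (Fin 8 → ℤ) → ℝ}
    (h : H N Y w) :
    (N : ℝ) * TT Y w ![8, 0, 0, 0, 0, 0, 0, 0] = 1 * TT Y w ![10, 0, 0, 0, 0, 0, 0, 0] + 7 * TT Y w ![8, 2, 0, 0, 0, 0, 0, 0] := by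
    rw [(h.2.2 ![8, 0, 0, 0, 0, 0, 0, 0]), Fin.sum_univ_eight,
      Tms h.1 (fun l => if l = 0 then (![8, 0, 0, 0, 0, 0, 0, 0] : Fin 8 → ℕ) l + 2 else (![8, 0, 0, 0, 0, 0, 0, 0] : Fin 8 → ℕ) l) ![10, 0, 0, 0, 0, 0, 0, 0] (by decide +kernel),
      Tms h.1 (fun l => if l = 1 then (![8, 0, 0, 0, 0, 0, 0, 0] : Fin 8 → ℕ) l + 2 else (![8, 0, 0, 0, 0, 0, 0, 0] : Fin 8 → ℕ) l) ![8, 2, 0, 0, 0, 0, 0, 0] (by decide +kernel),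
      Tms h.1 (fun l => if l = 2 then (![8, 0, 0, 0, 0, 0, 0, 0] : Fin 8 → ℕ) l + 2 else (![8, 0, 0, 0, 0, 0, 0, 0] : Fin 8 → ℕ) l) ![8, 2, 0, 0, 0, 0, 0, 0] (by decide +kernel),
      Tms h.1 (fun l => if l = 3 then (![8, 0, 0, 0, 0, 0, 0, 0] : Fin 8 → ℕ) l + 2 else (![8, 0, 0, 0, 0, 0, 0, 0] : Fin 8 → ℕ) l) ![8, 2, 0, 0, 0, 0, 0, 0] (by decide +kernel),
      Tms h.1 (fun l => if l = 4 then (![8, 0, 0, 0, 0, 0, 0, 0] : Fin 8 → ℕ) l + 2 else (![8, 0, 0, 0, 0, 0, 0, 0] : Fin 8 → ℕ) l) ![8, 2, 0, 0, 0, 0, 0, 0] (by decide +kernel),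
      Tms h.1 (fun l => if l = 5 then (![8, 0, 0, 0, 0, 0, 0, 0] : Fin 8 → ℕ) l + 2 else (![8, 0, 0, 0, 0, 0, 0, 0] : Fin 8 → ℕ) l) ![8, 2, 0, 0, 0, 0, 0, 0] (by decide +kernel),
      Tms h.1 (fun l => if l = 6 then (![8, 0, 0, 0, 0, 0, 0, 0] : Fin 8 → ℕ) l + 2 else (![8, 0, 0, 0, 0, 0, 0, 0] : Fin 8 → ℕ) l) ![8, 2, 0, 0, 0, 0, 0, 0] (by decide +kernel),
      Tms h.1 (fun l => if l = 7 then (![8, 0, 0, 0, 0, 0, 0, 0] : Fin 8 → ℕ) l + 2 else (![8, 0, 0, 0, 0, 0, 0, 0] : Fin 8 → ℕ) l) ![8, 2, 0, 0, 0, 0, 0, 0] (by decide +kernel)]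
    ring

theorem rel_6_2 {N : ℤ} {Y : Finset (Fin 8 → ℤ)} {w : (Fin 8 → ℤ) → ℝ}
    (h : H N Y w) :
    (N : ℝ) * TT Y w ![6, 2, 0, 0, 0, 0, 0, 0] = 1 * TT Y w ![8, 2, 0, 0, 0, 0, 0, 0] + 1 * TT Y w ![6, 4, 0, 0, 0, 0, 0, 0] + 6 * TT Y w ![6, 2, 2, 0, 0, 0, 0, 0] := by
    rw [(h.2.2 ![6, 2, 0, 0, 0, 0, 0, 0]), Fin.sum_univ_eight,
      Tms h.1 (fun l => if l = 0 then (![6, 2, 0, 0, 0, 0, 0, 0] : Fin 8 → ℕ) l + 2 else (![6, 2, 0, 0, 0, 0, 0, 0] : Fin 8 → ℕ) l) ![8, 2, 0, 0, 0, 0, 0, 0] (by decide +kernel),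
      Tms h.1 (fun l => if l = 1 then (![6, 2, 0, 0, 0, 0, 0, 0] : Fin 8 → ℕ) l + 2 else (![6, 2, 0, 0, 0, 0, 0, 0] : Fin 8 → ℕ) l) ![6, 4, 0, 0, 0, 0, 0, 0] (by decide +kernel),
      Tms h.1 (fun l => if l = 2 then (![6, 2, 0, 0, 0, 0, 0, 0] : Fin 8 → ℕ) l + 2 else (![6, 2, 0, 0, 0, 0, 0, 0] : Fin 8 → ℕ) l) ![6, 2, 2, 0, 0, 0, 0, 0] (by decide +kernel),
      Tms h.1 (fun l => if l = 3 then (![6, 2, 0, 0, 0, 0, 0, 0] : Fin 8 → ℕ) l + 2 else (![6, 2, 0, 0, 0, 0, 0, 0] : Fin 8 → ℕ) l) ![6, 2, 2, 0, 0, 0, 0, 0] (by decide +kernel),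
      Tms h.1 (fun l => if l = 4 then (![6, 2, 0, 0, 0, 0, 0, 0] : Fin 8 → ℕ) l + 2 else (![6, 2, 0, 0, 0, 0, 0, 0] : Fin 8 → ℕ) l) ![6, 2, 2, 0, 0, 0, 0, 0] (by decide +kernel),
      Tms h.1 (fun l => if l = 5 then (![6, 2, 0, 0, 0, 0, 0, 0] : Fin 8 → ℕ) l + 2 else (![6, 2, 0, 0, 0, 0, 0, 0] : Fin 8 → ℕ) l) ![6, 2, 2, 0, 0, 0, 0, 0] (by decide +kernel),
      Tms h.1 (fun l => if l = 6 then (![6, 2, 0, 0, 0, 0, 0, 0] : Fin 8 → ℕ) l + 2 else (![6, 2, 0, 0, 0, 0, 0, 0] : Fin 8 → ℕ) l) ![6, 2, 2, 0, 0, 0, 0, 0] (by decide +kernel),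
      Tms h.1 (fun l => if l = 7 then (![6, 2, 0, 0, 0, 0, 0, 0] : Fin 8 → ℕ) l + 2 else (![6, 2, 0, 0, 0, 0, 0, 0] : Fin 8 → ℕ) l) ![6, 2, 2, 0, 0, 0, 0, 0] (by decide +kernel)]
    ring

theorem rel_4_4 {N : ℤ} {Y : Finset (Fin 8 → ℤ)} {w : (Fin 8 → ℤ) → ℝ}
    (h : H N Y w) :
    (N : ℝ) * TT Y w ![4, 4, 0, 0, 0, 0, 0, 0] = 2 * TT Y w ![6, 4, 0, 0, 0, 0, 0, 0] + 6 * TT Y w ![4, 4, 2, 0, 0, 0, 0, 0] := by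
    rw [(h.2.2 ![4, 4, 0, 0, 0, 0, 0, 0]), Fin.sum_univ_eight,
      Tms h.1 (fun l => if l = 0 then (![4, 4, 0, 0, 0, 0, 0, 0] : Fin 8 → ℕ) l + 2 else (![4, 4, 0, 0, 0, 0, 0, 0] : Fin 8 → ℕ) l) ![6, 4, 0, 0, 0, 0, 0, 0] (by decide +kernel),
      Tms h.1 (fun l => if l = 1 then (![4, 4, 0, 0, 0, 0, 0, 0] : Fin 8 → ℕ) l + 2 else (![4, 4, 0, 0, 0, 0, 0, 0] : Fin 8 → ℕ) l) ![6, 4, 0, 0, 0, 0, 0, 0] (by decide +kernel),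
      Tms h.1 (fun l => if l = 2 then (![4, 4, 0, 0, 0, 0, 0, 0] : Fin 8 → ℕ) l + 2 else (![4, 4, 0, 0, 0, 0, 0, 0] : Fin 8 → ℕ) l) ![4, 4, 2, 0, 0, 0, 0, 0] (by decide +kernel),
      Tms h.1 (fun l => if l = 3 then (![4, 4, 0, 0, 0, 0, 0, 0] : Fin 8 → ℕ) l + 2 else (![4, 4, 0, 0, 0, 0, 0, 0] : Fin 8 → ℕ) l) ![4, 4, 2, 0, 0, 0, 0, 0] (by decide +kernel),
      Tms h.1 (fun l => if l = 4 then (![4, 4, 0, 0, 0, 0, 0, 0] : Fin 8 → ℕ) l + 2 else (![4, 4, 0, 0, 0, 0, 0, 0] : Fin 8 → ℕ) l) ![4, 4, 2, 0, 0, 0, 0, 0] (by decide +kernel),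
      Tms h.1 (fun l => if l = 5 then (![4, 4, 0, 0, 0, 0, 0, 0] : Fin 8 → ℕ) l + 2 else (![4, 4, 0, 0, 0, 0, 0, 0] : Fin 8 → ℕ) l) ![4, 4, 2, 0, 0, 0, 0, 0] (by decide +kernel),
      Tms h.1 (fun l => if l = 6 then (![4, 4, 0, 0, 0, 0, 0, 0] : Fin 8 → ℕ) l + 2 else (![4, 4, 0, 0, 0, 0, 0, 0] : Fin 8 → ℕ) l) ![4, 4, 2, 0, 0, 0, 0, 0] (by decide +kernel),
      Tms h.1 (fun l => if l = 7 then (![4, 4, 0, 0, 0, 0, 0, 0] : Fin 8 → ℕ) l + 2 else (![4, 4, 0, 0, 0, 0, 0, 0] : Fin 8 → ℕ) l) ![4, 4, 2, 0, 0, 0, 0, 0] (by decide +kernel)]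
    ring

theorem rel_4_2_2 {N : ℤ} {Y : Finset (Fin 8 → ℤ)} {w : (Fin 8 → ℤ) → ℝ}
    (h : H N Y w) :
    (N : ℝ) * TT Y w ![4, 2, 2, 0, 0, 0, 0, 0] = 1 * TT Y w ![6, 2, 2, 0, 0, 0, 0, 0] + 2 * TT Y w ![4, 4, 2, 0, 0, 0, 0, 0] + 5 * TT Y w ![4, 2, 2, 2, 0, 0, 0, 0] := by
    rw [(h.2.2 ![4, 2, 2, 0, 0, 0, 0, 0]), Fin.sum_univ_eight,
      Tms h.1 (fun l => if l = 0 then (![4, 2, 2, 0, 0, 0, 0, 0] : Fin 8 → ℕ) l + 2 else (![4, 2, 2, 0, 0, 0, 0, 0] : Fin 8 → ℕ) l) ![6, 2, 2, 0, 0, 0, 0, 0] (by decide +kernel),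
      Tms h.1 (fun l => if l = 1 then (![4, 2, 2, 0, 0, 0, 0, 0] : Fin 8 → ℕ) l + 2 else (![4, 2, 2, 0, 0, 0, 0, 0] : Fin 8 → ℕ) l) ![4, 4, 2, 0, 0, 0, 0, 0] (by decide +kernel),
      Tms h.1 (fun l => if l = 2 then (![4, 2, 2, 0, 0, 0, 0, 0] : Fin 8 → ℕ) l + 2 else (![4, 2, 2, 0, 0, 0, 0, 0] : Fin 8 → ℕ) l) ![4, 4, 2, 0, 0, 0, 0, 0] (by decide +kernel),
      Tms h.1 (fun l => if l = 3 then (![4, 2, 2, 0, 0, 0, 0, 0] : Fin 8 → ℕ) l + 2 else (![4, 2, 2, 0, 0, 0, 0, 0] : Fin 8 → ℕ) l) ![4, 2, 2, 2, 0, 0, 0, 0] (by decide +kernel),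
      Tms h.1 (fun l => if l = 4 then (![4, 2, 2, 0, 0, 0, 0, 0] : Fin 8 → ℕ) l + 2 else (![4, 2, 2, 0, 0, 0, 0, 0] : Fin 8 → ℕ) l) ![4, 2, 2, 2, 0, 0, 0, 0] (by decide +kernel),
      Tms h.1 (fun l => if l = 5 then (![4, 2, 2, 0, 0, 0, 0, 0] : Fin 8 → ℕ) l + 2 else (![4, 2, 2, 0, 0, 0, 0, 0] : Fin 8 → ℕ) l) ![4, 2, 2, 2, 0, 0, 0, 0] (by decide +kernel),
      Tms h.1 (fun l => if l = 6 then (![4, 2, 2, 0, 0, 0, 0, 0] : Fin 8 → ℕ) l + 2 else (![4, 2, 2, 0, 0, 0, 0, 0] : Fin 8 → ℕ) l) ![4, 2, 2, 2, 0, 0, 0, 0] (by decide +kernel),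
      Tms h.1 (fun l => if l = 7 then (![4, 2, 2, 0, 0, 0, 0, 0] : Fin 8 → ℕ) l + 2 else (![4, 2, 2, 0, 0, 0, 0, 0] : Fin 8 → ℕ) l) ![4, 2, 2, 2, 0, 0, 0, 0] (by decide +kernel)]
    ring

theorem rel_2_2_2_2 {N : ℤ} {Y : Finset (Fin 8 → ℤ)} {w : (Fin 8 → ℤ) → ℝ}
    (h : H N Y w) :
    (N : ℝ) * TT Y w ![2, 2, 2, 2, 0, 0, 0, 0] = 4 * TT Y w ![4, 2, 2, 2, 0, 0, 0, 0] + 4 * TT Y w ![2, 2, 2, 2, 2, 0, 0, 0] := by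
    rw [(h.2.2 ![2, 2, 2, 2, 0, 0, 0, 0]), Fin.sum_univ_eight,
      Tms h.1 (fun l => if l = 0 then (![2, 2, 2, 2, 0, 0, 0, 0] : Fin 8 → ℕ) l + 2 else (![2, 2, 2, 2, 0, 0, 0, 0] : Fin 8 → ℕ) l) ![4, 2, 2, 2, 0, 0, 0, 0] (by decide +kernel),
      Tms h.1 (fun l => if l = 1 then (![2, 2, 2, 2, 0, 0, 0, 0] : Fin 8 → ℕ) l + 2 else (![2, 2, 2, 2, 0, 0, 0, 0] : Fin 8 → ℕ) l) ![4, 2, 2, 2, 0, 0, 0, 0] (by decide +kernel),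
      Tms h.1 (fun l => if l = 2 then (![2, 2, 2, 2, 0, 0, 0, 0] : Fin 8 → ℕ) l + 2 else (![2, 2, 2, 2, 0, 0, 0, 0] : Fin 8 → ℕ) l) ![4, 2, 2, 2, 0, 0, 0, 0] (by decide +kernel),
      Tms h.1 (fun l => if l = 3 then (![2, 2, 2, 2, 0, 0, 0, 0] : Fin 8 → ℕ) l + 2 else (![2, 2, 2, 2, 0, 0, 0, 0] : Fin 8 → ℕ) l) ![4, 2, 2, 2, 0, 0, 0, 0] (by decide +kernel),
      Tms h.1 (fun l => if l = 4 then (![2, 2, 2, 2, 0, 0, 0, 0] : Fin 8 → ℕ) l + 2 else (![2, 2, 2, 2, 0, 0, 0, 0] : Fin 8 → ℕ) l) ![2, 2, 2, 2, 2, 0, 0, 0] (by decide +kernel),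
      Tms h.1 (fun l => if l = 5 then (![2, 2, 2, 2, 0, 0, 0, 0] : Fin 8 → ℕ) l + 2 else (![2, 2, 2, 2, 0, 0, 0, 0] : Fin 8 → ℕ) l) ![2, 2, 2, 2, 2, 0, 0, 0] (by decide +kernel),
      Tms h.1 (fun l => if l = 6 then (![2, 2, 2, 2, 0, 0, 0, 0] : Fin 8 → ℕ) l + 2 else (![2, 2, 2, 2, 0, 0, 0, 0] : Fin 8 → ℕ) l) ![2, 2, 2, 2, 2, 0, 0, 0] (by decide +kernel),
      Tms h.1 (fun l => if l = 7 then (![2, 2, 2, 2, 0, 0, 0, 0] : Fin 8 → ℕ) l + 2 else (![2, 2, 2, 2, 0, 0, 0, 0] : Fin 8 → ℕ) l) ![2, 2, 2, 2, 2, 0, 0, 0] (by decide +kernel)]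
    ring

/-- the linear algebra -/
theorem core {a W T2 T4 T22 T6 T42 T222 T8 T62 T44 T422 T2222 T10 T82 T64 T622 T442 T4222 T22222
    U : ℝ}
    (e0 : a * W = 8 * T2) (e1 : a * T2 = 1 * T4 + 7 * T22) (e2 : a * T4 = 1 * T6 + 7 * T42)
    (e3 : a * T22 = 2 * T42 + 6 * T222) (e4 : a * T6 = 1 * T8 + 7 * T62)
    (e5 : a * T42 = 1 * T62 + 1 * T44 + 6 * T422) (e6 : a * T222 = 3 * T422 + 5 * T2222)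
    (e7 : a * T8 = 1 * T10 + 7 * T82) (e8 : a * T62 = 1 * T82 + 1 * T64 + 6 * T622)
    (e9 : a * T44 = 2 * T64 + 6 * T442) (e10 : a * T422 = 1 * T622 + 2 * T442 + 5 * T4222)
    (e11 : a * T2222 = 4 * T4222 + 4 * T22222)
    (r4 : 256 * T4 = 16 * (4 * T4 + 36 * T22))
    (r6 : 4096 * T6 = 64 * (4 * T6 + 180 * T42 + 360 * T222))
    (r8 : 65536 * T8 = 256 * (4 * T8 + 336 * T62 + 420 * T44 + 5040 * T422 + 2520 * T2222))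
    (r8' : 256 * (2 * T8 + 56 * T62 + 70 * T44) =
      8 * T8 + 1568 * T62 + 1960 * T44 + 70560 * T422 + 176400 * T2222 + 40320 * U)
    (hG : 256 * (2 * T8 + 56 * T62 + 70 * T44) = 32 * a ^ 4 * W)
    (r10 : 1048576 * T10 = 1024 * (4 * T10 + 540 * T82 + 2520 * T64 + 15120 * T622 + 37800 * T442
      + 75600 * T4222))
    (r10' : 59050 * T10 + 295650 * T82 + 170100 * T64 =
      2050 * T10 + 139050 * T82 + 497700 * T64 + 1512000 * T622 + 2646000 * T442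
        + 3024000 * T4222) :
    215040 * T10 = 945 * a ^ 5 * W ∧ 215040 * T82 = 105 * a ^ 5 * W ∧
    215040 * T64 = 45 * a ^ 5 * W ∧ 215040 * T622 = 15 * a ^ 5 * W ∧
    215040 * T442 = 9 * a ^ 5 * W ∧ 215040 * T4222 = 3 * a ^ 5 * W ∧
    215040 * T22222 = a ^ 5 * W ∧ U = 0 := by
  have k2 : T2 = 1 / 8 * (a * W) := by linarith
  rw [k2] at e1
  have k4 : T4 = 3 / 80 * (a ^ 2 * W) := by linarith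
  have k22 : T22 = 1 / 80 * (a ^ 2 * W) := by linarith
  rw [k4] at e2
  rw [k22] at e3
  clear e0 e1 r4 k2 k4 k22
  have k42 : T42 = 1 / 320 * (a ^ 3 * W) := by linarith
  have k6 : T6 = 1 / 64 * (a ^ 3 * W) := by linarith
  have k222 : T222 = 1 / 960 * (a ^ 3 * W) := by linarith
  rw [k6] at e4
  rw [k42] at e5
  rw [k222] at e6
  clear e2 e3 r6 k42 k6 k222
  have k8 : T8 = 1 / 128 * (a ^ 4 * W) := by linarith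
  have k62 : T62 = 1 / 896 * (a ^ 4 * W) := by linarith
  have k44 : T44 = 3 / 4480 * (a ^ 4 * W) := by linarith
  have k422 : T422 = 1 / 4480 * (a ^ 4 * W) := by linarith
  have k2222 : T2222 = 1 / 13440 * (a ^ 4 * W) := by linarith
  have kU : U = 0 := by linarith
  rw [k8] at e7
  rw [k62] at e8
  rw [k44] at e9
  rw [k422] at e10
  rw [k2222] at e11
  clear e4 e5 e6 r8 r8' hG k8 k62 k44 k422 k2222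
  have k10 : T10 = 9 / 2048 * (a ^ 5 * W) := by linarith
  have k82 : T82 = 1 / 2048 * (a ^ 5 * W) := by linarith
  have k64 : T64 = 3 / 14336 * (a ^ 5 * W) := by linarith
  have k622 : T622 = 1 / 14336 * (a ^ 5 * W) := by linarith
  have k442 : T442 = 3 / 71680 * (a ^ 5 * W) := by linarith
  have k4222 : T4222 = 1 / 71680 * (a ^ 5 * W) := by linarith
  have k22222 : T22222 = 1 / 215040 * (a ^ 5 * W) := by linarith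
  clear e7 e8 e9 e10 e11 r10 r10'
  rw [k10, k82, k64, k622, k442, k4222, k22222]
  refine ⟨?_, ?_, ?_, ?_, ?_, ?_, ?_, kU⟩ <;> ring

end LinL

open LinL in
/-- **LIN.** -/
theorem lin : S_TSY → S_RFL → S_EXA → S_EXB → S_EXC → S_EXD → S_EXQ → S_LIN := by
  intro hTSY hRFL hEXA hEXB hEXC hEXD hEXQ N Y w hW hRef hG
  have h : H N Y w := hTSY N Y w hW
  have hR := hRFL N Y w hW hRef
  obtain ⟨a1, a2, a3, a4⟩ := hEXA N Y w hW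
  obtain ⟨b1, b2, b3⟩ := hEXB N Y w hW
  obtain ⟨c1, c2, c3⟩ := hEXC N Y w hW
  have d1 := hEXD N Y w hW
  have q1 := hEXQ N Y w hW
  have r4 : G Y w 4 ![4, 0, 0, 0, 0, 0, 0, 0] = G Y w 4 ![2, 2, 2, 2, 0, 0, 0, 0] := (hR 2).1
  have r6 : G Y w 6 ![4, 0, 0, 0, 0, 0, 0, 0] = G Y w 6 ![2, 2, 2, 2, 0, 0, 0, 0] := (hR 3).1
  have r8 : G Y w 8 ![4, 0, 0, 0, 0, 0, 0, 0] = G Y w 8 ![2, 2, 2, 2, 0, 0, 0, 0] := (hR 4).1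
  have r8' : G Y w 8 ![2, 2, 0, 0, 0, 0, 0, 0] = G Y w 8 ![1, 1, 1, 1, 1, 1, 1, 1] := (hR 4).2.2
  have r10 : G Y w 10 ![4, 0, 0, 0, 0, 0, 0, 0] = G Y w 10 ![2, 2, 2, 2, 0, 0, 0, 0] := (hR 5).1
  have r10' : G Y w 10 ![3, 1, 0, 0, 0, 0, 0, 0] = G Y w 10 ![2, 2, 1, 1, 0, 0, 0, 0] := (hR 5).2.1
  have h0 : TT Y w ![0, 0, 0, 0, 0, 0, 0, 0] = WW Y w := by
    unfold TT WW
    refine Finset.sum_congr rfl fun v _ => ?_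
    have h1 : ∏ i, (v i : ℝ) ^ ((![0, 0, 0, 0, 0, 0, 0, 0] : Fin 8 → ℕ) i) = 1 := by
      apply Finset.prod_eq_one
      intro i _
      have h2 : (![0, 0, 0, 0, 0, 0, 0, 0] : Fin 8 → ℕ) i = 0 := by fin_cases i <;> rfl
      rw [h2, pow_zero]
    rw [h1, mul_one]
  have e0 := rel_0 h
  rw [h0] at e0
  exact core e0 (rel_2 h) (rel_4 h) (rel_2_2 h) (rel_6 h) (rel_4_2 h) (rel_2_2_2 h) (rel_8 h)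
    (rel_6_2 h) (rel_4_4 h) (rel_4_2_2 h) (rel_2_2_2_2 h) (a1.symm.trans (r4.trans a3))
    (a2.symm.trans (r6.trans a4)) (b1.symm.trans (r8.trans b3)) (b2.symm.trans (r8'.trans q1))
    (b2.symm.trans hG) (c1.symm.trans (r10.trans c2)) (c3.symm.trans (r10'.trans d1))

end Pool.Agent.Helper17K9.WP
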