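import Pool.Agent.Helper17K9.WP.Stm

/-! [NEC]: a weighted cubature of degree 8 annihilates the invariant of degree 8 -/

set_option autoImplicit false

namespace Pool.Agent.Helper17K9.WP

open Pool.Agent.Q10.E8 Pool.Agent.Helper17K9.EX

theorem nec : S_NEC := fun _ _ _ hY h => cub_sum hY h

end Pool.Agent.Helper17K9.WP
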