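import Pool.Agent.Helper17K9.WP.Stm

set_option autoImplicit false

/-!
# WP, leaf [ONE]: the values of `rootSum` on the shells 1, 2, 3, 5, 6

Multiplicities of the absolute values of the entries; for odd entries the product is `∑ v - 7` modulo 4.
-/

namespace Pool.Agent.Helper17K9.WP

open Pool.Agent.Q10.E8 Pool.Agent.Helper17K9.EX

theorem one_mul4 (a b : ℤ) (ha : a % 2 = 1) (hb : b % 2 = 1) :
    (a * b) % 4 = (a + b - 1) % 4 ∧ (a * b) % 2 = 1 := by
  obtain ⟨x, hx⟩ : ∃ x, a = 2 * x + 1 := ⟨a / 2, by omega⟩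
  obtain ⟨y, hy⟩ : ∃ y, b = 2 * y + 1 := ⟨b / 2, by omega⟩
  subst hx; subst hy
  have e : (2 * x + 1) * (2 * y + 1) = 4 * (x * y) + 2 * x + 2 * y + 1 := by ring
  rw [e]
  generalize x * y = t
  constructor <;> omega

theorem one_prod (v : Fin 8 → ℤ) (h : ∀ i, v i % 2 = 1) (hs : (∑ i, v i) % 4 = 0) :
    (∏ i, v i) % 4 = 1 := by
  rw [Fin.prod_univ_eight]
  rw [Fin.sum_univ_eight] at hs
  have h1 := one_mul4 _ _ (h 0) (h 1)
  have h2 := one_mul4 _ _ h1.2 (h 2)
  have h3 := one_mul4 _ _ h2.2 (h 3)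
  have h4 := one_mul4 _ _ h3.2 (h 4)
  have h5 := one_mul4 _ _ h4.2 (h 5)
  have h6 := one_mul4 _ _ h5.2 (h 6)
  have h7 := one_mul4 _ _ h6.2 (h 7)
  omega

theorem one_bd (m : ℕ) (hm : m ≤ 6) (v : Fin 8 → ℤ) (h : InShell m v) (i : Fin 8) : -6 ≤ v i ∧ v i ≤ 6 := by
  have h1 : v i ^ 2 ≤ ∑ j, v j ^ 2 := Finset.single_le_sum (f := fun j => v j ^ 2) (fun j _ => sq_nonneg _)
    (Finset.mem_univ i)
  rw [h.2] at h1
  have h2 : v i ^ 2 ≤ 48 := by
    have : (m : ℤ) ≤ 6 := by exact_mod_cast hm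
    linarith
  constructor <;> nlinarith

/-- even entries -/
theorem one_even (m : ℕ) (hm : m = 1 ∨ m = 2 ∨ m = 3 ∨ m = 5 ∨ m = 6) (v : Fin 8 → ℤ) (h : InShell m v)
    (h0 : v 0 % 2 = 0) : ∃ a b c : ℕ, a + b + c ≤ 8 ∧ a + 4 * b + 9 * c = 2 * m ∧
      (∀ k, 1 ≤ k → P k v = 4 ^ k * (a : ℤ) + 16 ^ k * (b : ℤ) + 36 ^ k * (c : ℤ)) ∧ ∏ i, v i = 0 := by
  have hm6 : m ≤ 6 := by omega
  have hv : ∀ i, v i = 0 ∨ v i = 2 ∨ v i = -2 ∨ v i = 4 ∨ v i = -4 ∨ v i = 6 ∨ v i = -6 := by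
    intro i
    have h1 := one_bd m hm6 v h i
    have h2 := h.1.1 i 0
    omega
  obtain ⟨a, ha⟩ : ∃ a : ℕ, a = ∑ i, (if v i = 2 ∨ v i = -2 then 1 else 0) := ⟨_, rfl⟩
  obtain ⟨b, hb⟩ : ∃ b : ℕ, b = ∑ i, (if v i = 4 ∨ v i = -4 then 1 else 0) := ⟨_, rfl⟩
  obtain ⟨c, hc⟩ : ∃ c : ℕ, c = ∑ i, (if v i = 6 ∨ v i = -6 then 1 else 0) := ⟨_, rfl⟩
  obtain ⟨z, hz⟩ : ∃ z : ℕ, z = ∑ i, (if v i = 0 then 1 else 0) := ⟨_, rfl⟩
  have h8 : a + b + c + z = 8 := by
    have e : ∑ i : Fin 8, (1 : ℕ) = 8 := by simp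
    rw [← e, ha, hb, hc, hz, ← Finset.sum_add_distrib, ← Finset.sum_add_distrib, ← Finset.sum_add_distrib]
    refine Finset.sum_congr rfl fun i _ => ?_
    rcases hv i with e | e | e | e | e | e | e <;> simp [e]
  have hP : ∀ k, 1 ≤ k → P k v = 4 ^ k * (a : ℤ) + 16 ^ k * (b : ℤ) + 36 ^ k * (c : ℤ) := by
    intro k hk
    unfold P
    rw [ha, hb, hc]
    push_cast
    rw [Finset.mul_sum, Finset.mul_sum, Finset.mul_sum, ← Finset.sum_add_distrib, ← Finset.sum_add_distrib]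
    refine Finset.sum_congr rfl fun i _ => ?_
    have hk0 : k ≠ 0 := by omega
    rcases hv i with e | e | e | e | e | e | e <;> simp [e, pow_mul, hk0]
  have h1 : (4 * a + 16 * b + 36 * c : ℤ) = 8 * m := by
    have e := hP 1 le_rfl
    have e2 : P 1 v = ∑ i, v i ^ 2 := by unfold P; simp
    rw [e2, h.2] at e
    linarith
  have hp : ∏ i, v i = 0 := by
    have hz0 : z ≠ 0 := by
      intro hz0
      rcases hm with rfl | rfl | rfl | rfl | rfl <;> push_cast at h1 <;> omega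
    have : ∃ i, v i = 0 := by
      by_contra hc'
      push Not at hc'
      apply hz0
      rw [hz]
      exact Finset.sum_eq_zero fun i _ => by simp [hc' i]
    obtain ⟨i, hi⟩ := this
    exact Finset.prod_eq_zero (Finset.mem_univ i) hi
  refine ⟨a, b, c, by omega, by omega, hP, hp⟩

/-- odd entries -/
theorem one_odd (m : ℕ) (hm : m ≤ 6) (v : Fin 8 → ℤ) (h : InShell m v)
    (h0 : v 0 % 2 = 1) : ∃ a b c : ℕ, a + b + c = 8 ∧ a + 9 * b + 25 * c = 8 * m ∧
      (∀ k, P k v = (a : ℤ) + 9 ^ k * (b : ℤ) + 25 ^ k * (c : ℤ)) ∧ (∏ i, v i) % 4 = 1 ∧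
      |∏ i, v i| = 3 ^ b * 5 ^ c := by
  have hv : ∀ i, v i = 1 ∨ v i = -1 ∨ v i = 3 ∨ v i = -3 ∨ v i = 5 ∨ v i = -5 := by
    intro i
    have h1 := one_bd m hm v h i
    have h2 := h.1.1 i 0
    omega
  obtain ⟨a, ha⟩ : ∃ a : ℕ, a = ∑ i, (if v i = 1 ∨ v i = -1 then 1 else 0) := ⟨_, rfl⟩
  obtain ⟨b, hb⟩ : ∃ b : ℕ, b = ∑ i, (if v i = 3 ∨ v i = -3 then 1 else 0) := ⟨_, rfl⟩
  obtain ⟨c, hc⟩ : ∃ c : ℕ, c = ∑ i, (if v i = 5 ∨ v i = -5 then 1 else 0) := ⟨_, rfl⟩
  have h8 : a + b + c = 8 := by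
    have e : ∑ i : Fin 8, (1 : ℕ) = 8 := by simp
    rw [← e, ha, hb, hc, ← Finset.sum_add_distrib, ← Finset.sum_add_distrib]
    refine Finset.sum_congr rfl fun i _ => ?_
    rcases hv i with e | e | e | e | e | e <;> simp [e]
  have hP : ∀ k, P k v = (a : ℤ) + 9 ^ k * (b : ℤ) + 25 ^ k * (c : ℤ) := by
    intro k
    unfold P
    rw [ha, hb, hc]
    push_cast
    rw [Finset.mul_sum, Finset.mul_sum, ← Finset.sum_add_distrib, ← Finset.sum_add_distrib]
    refine Finset.sum_congr rfl fun i _ => ?_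
    rcases hv i with e | e | e | e | e | e <;> simp [e, pow_mul]
  have h1 : (a + 9 * b + 25 * c : ℤ) = 8 * m := by
    have e := hP 1
    have e2 : P 1 v = ∑ i, v i ^ 2 := by unfold P; simp
    rw [e2, h.2] at e
    linarith
  refine ⟨a, b, c, h8, by omega, hP, one_prod v (fun i => ?_) h.1.2, ?_⟩
  · rw [h.1.1 i 0, h0]
  · rw [Finset.abs_prod, hb, hc, ← Finset.prod_pow_eq_pow_sum, ← Finset.prod_pow_eq_pow_sum,
      ← Finset.prod_mul_distrib]
    refine Finset.prod_congr rfl fun i _ => ?_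
    rcases hv i with e | e | e | e | e | e <;> simp [e]

theorem one (hR : S_RSF) : S_ONE := by
  constructor
  · intro m hm v hv
    have hr := hR v hv.1
    rcases Int.emod_two_eq_zero_or_one (v 0) with h0 | h0
    · obtain ⟨a, b, c, h8, h1, hP, hp⟩ := one_even m (by omega) v hv h0
      rw [hP 1 (by norm_num), hP 2 (by norm_num), hP 3 (by norm_num), hP 4 (by norm_num), hp] at hr
      have ha : a = 2 * m - 4 * b - 9 * c := by omega
      have hc : c ≤ 1 := by omega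
      have hb : b ≤ 2 := by omega
      rcases hm with rfl | rfl | rfl <;> interval_cases c <;> interval_cases b <;>
        first
        | (exfalso; omega)
        | (rw [ha] at hr; norm_num at hr ⊢; omega)
    · obtain ⟨a, b, c, h8, h1, hP, hp, hq⟩ := one_odd m (by omega) v hv h0
      rw [hP 1, hP 2, hP 3, hP 4] at hr
      have ha : a = 8 - b - c := by omega
      have hc : c ≤ 1 := by omega
      have hb : b ≤ 4 := by omega
      generalize (∏ i, v i) = p at hr hp hq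
      rcases abs_choice p with e | e <;> rw [e] at hq <;>
        rcases hm with rfl | rfl | rfl <;> interval_cases c <;> interval_cases b <;>
        first
        | (exfalso; omega)
        | (rw [ha] at hr; norm_num at hr hq ⊢; omega)
  · intro m hm v hv
    have hr := hR v hv.1
    rcases Int.emod_two_eq_zero_or_one (v 0) with h0 | h0
    · obtain ⟨a, b, c, h8, h1, hP, hp⟩ := one_even m (by omega) v hv h0
      rw [hP 1 (by norm_num), hP 2 (by norm_num), hP 3 (by norm_num), hP 4 (by norm_num), hp] at hr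
      have ha : a = 2 * m - 4 * b - 9 * c := by omega
      have hc : c ≤ 1 := by omega
      have hb : b ≤ 3 := by omega
      rcases hm with rfl | rfl <;> interval_cases c <;> interval_cases b <;>
        first
        | (exfalso; omega)
        | (rw [ha] at hr; norm_num at hr ⊢; omega)
    · obtain ⟨a, b, c, h8, h1, hP, hp, hq⟩ := one_odd m (by omega) v hv h0
      rw [hP 1, hP 2, hP 3, hP 4] at hr
      have ha : a = 8 - b - c := by omega
      have hc : c ≤ 1 := by omega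
      have hb : b ≤ 5 := by omega
      generalize (∏ i, v i) = p at hr hp hq
      rcases abs_choice p with e | e <;> rw [e] at hq <;>
        rcases hm with rfl | rfl <;> interval_cases c <;> interval_cases b <;>
        first
        | (exfalso; omega)
        | (rw [ha] at hr; norm_num at hr hq ⊢; omega)

end Pool.Agent.Helper17K9.WP
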