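import Pool.Agent.Helper17K9.WP.Stm

/-!
# [RFL] reflection identities
-/

set_option autoImplicit false

namespace Pool.Agent.Helper17K9.WP

open Pool.Agent.Q10.E8 Pool.Agent.Helper17K9.EX

namespace RflL

variable {N : ℤ} {Y : Finset (Fin 8 → ℤ)} {w : (Fin 8 → ℤ) → ℝ}

lemma gperm (H : WInv N Y w) (k : ℕ) (z : Fin 8 → ℤ) (π : Equiv.Perm (Fin 8)) :
    G Y w k (fun i => z (π i)) = G Y w k z := by
  unfold G
  refine Finset.sum_nbij' (fun v i => v (π.symm i)) (fun v i => v (π i)) ?_ ?_ ?_ ?_ ?_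
  · intro v hv
    exact (H.1 v hv π.symm).1
  · intro v hv
    exact (H.1 v hv π).1
  · intro v _
    funext i
    simp
  · intro v _
    funext i
    simp
  · intro v hv
    have h1 := (H.1 v hv π.symm).2
    have h2 : ∑ i, ((z (π i) : ℤ) : ℝ) * (v i : ℝ) = ∑ i, (z i : ℝ) * ((v (π.symm i) : ℤ) : ℝ) := by
      have h := Equiv.sum_comp π (fun j => (z j : ℝ) * ((v (π.symm j) : ℤ) : ℝ))
      simp only [Equiv.symm_apply_apply] at h
      exact h
    rw [h2]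
    show w v * _ = w (fun i => v (π.symm i)) * _
    rw [h1]

lemma flip_flip (i j : Fin 8) (v : Fin 8 → ℤ) : flip i j (flip i j v) = v := by
  funext l
  unfold flip
  by_cases h : l = i ∨ l = j
  · simp only [h, if_true, neg_neg]
  · simp only [h, if_false]

lemma gflip (H : WInv N Y w) (k : ℕ) (z : Fin 8 → ℤ) (i j : Fin 8) (hij : i ≠ j) :
    G Y w k (flip i j z) = G Y w k z := by
  unfold G
  refine Finset.sum_nbij' (flip i j) (flip i j) ?_ ?_ ?_ ?_ ?_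
  · intro v hv
    exact (H.2.1 v hv i j hij).1
  · intro v hv
    exact (H.2.1 v hv i j hij).1
  · intro v _
    exact flip_flip i j v
  · intro v _
    exact flip_flip i j v
  · intro v hv
    rw [(H.2.1 v hv i j hij).2]
    have h2 : ∑ l, ((flip i j z l : ℤ) : ℝ) * (v l : ℝ) = ∑ l, (z l : ℝ) * ((flip i j v l : ℤ) : ℝ) := by
      refine Finset.sum_congr rfl (fun l _ => ?_)
      unfold flip
      by_cases h : l = i ∨ l = j
      · simp only [h, if_true]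
        push_cast
        ring
      · simp only [h, if_false]
    rw [h2]

lemma rf_sum {v : Fin 8 → ℤ} (h : (∑ j, v j) % 4 = 0) : ∑ j, rf v j = - ∑ j, v j := by
  unfold rf
  rw [Finset.sum_sub_distrib, Finset.sum_const, Finset.card_univ, Fintype.card_fin, nsmul_eq_mul]
  push_cast
  omega

lemma rf_rf {v : Fin 8 → ℤ} (h : (∑ j, v j) % 4 = 0) : rf (rf v) = v := by
  funext i
  have h1 := rf_sum h
  show rf v i - (∑ j, rf v j) / 4 = v i
  rw [h1]
  show v i - (∑ j, v j) / 4 - (- ∑ j, v j) / 4 = v i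
  omega

lemma gref (hR : Ref Y w) (k : ℕ) (z z' : Fin 8 → ℤ) (h : ∀ i, 4 * z' i = 4 * z i - ∑ j, z j) :
    G Y w k z' = G Y w k z := by
  unfold G
  refine Finset.sum_nbij' rf rf ?_ ?_ ?_ ?_ ?_
  · intro v hv
    exact (hR v hv).2.1
  · intro v hv
    exact (hR v hv).2.1
  · intro v hv
    exact rf_rf (hR v hv).1
  · intro v hv
    exact rf_rf (hR v hv).1
  · intro v hv
    rw [(hR v hv).2.2]
    obtain ⟨q, hq⟩ : ∃ q : ℤ, ∑ j, v j = 4 * q := ⟨(∑ j, v j) / 4, by have := (hR v hv).1; omega⟩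
    have hrf : ∀ i, rf v i = v i - q := by
      intro i
      show v i - (∑ j, v j) / 4 = v i - q
      rw [hq]
      omega
    have h2 : ∑ i, z' i * v i = ∑ i, z i * rf v i := by
      have h3 : 4 * ∑ i, z' i * v i = 4 * ∑ i, z i * rf v i := by
        rw [Finset.mul_sum]
        have h4 : ∀ i, 4 * (z' i * v i) = 4 * (z i * v i) - (∑ j, z j) * v i := by
          intro i
          linear_combination (v i) * h i
        simp only [h4]
        rw [Finset.sum_sub_distrib, ← Finset.mul_sum, ← Finset.mul_sum, hq]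
        simp only [hrf]
        have h5 : ∀ i, z i * (v i - q) = z i * v i - z i * q := fun i => by ring
        simp only [h5]
        rw [Finset.sum_sub_distrib, ← Finset.sum_mul]
        ring
      linarith
    have h6 : ∑ i, (z' i : ℝ) * (v i : ℝ) = ∑ i, (z i : ℝ) * ((rf v i : ℤ) : ℝ) := by
      exact_mod_cast h2
    rw [h6]

end RflL

open RflL in
theorem rfl_ : S_RFL := by
  intro N Y w H hR k
  refine ⟨?_, ?_, ?_⟩
  · have e1 := gref hR (2 * k) ![4, 0, 0, 0, 0, 0, 0, 0] ![3, -1, -1, -1, -1, -1, -1, -1] (by decide)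
    have e2 := gref hR (2 * k) ![2, 2, 2, -2, 0, 0, 0, 0] ![1, 1, 1, -3, -1, -1, -1, -1] (by decide)
    have e3 := gperm H (2 * k) ![3, -1, -1, -1, -1, -1, -1, -1] (Equiv.swap 0 3)
    have f3 : (fun i => (![3, -1, -1, -1, -1, -1, -1, -1] : Fin 8 → ℤ) ((Equiv.swap 0 3 : Equiv.Perm (Fin 8)) i)) =
        ![-1, -1, -1, 3, -1, -1, -1, -1] := by decide
    rw [f3] at e3
    have e4 := gflip H (2 * k) ![-1, -1, -1, 3, -1, -1, -1, -1] 0 1 (by decide)
    have f4 : flip 0 1 ![-1, -1, -1, 3, -1, -1, -1, -1] = ![1, 1, -1, 3, -1, -1, -1, -1] := by decide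
    rw [f4] at e4
    have e5 := gflip H (2 * k) ![1, 1, -1, 3, -1, -1, -1, -1] 2 3 (by decide)
    have f5 : flip 2 3 ![1, 1, -1, 3, -1, -1, -1, -1] = ![1, 1, 1, -3, -1, -1, -1, -1] := by decide
    rw [f5] at e5
    have e6 := gflip H (2 * k) ![2, 2, 2, 2, 0, 0, 0, 0] 3 7 (by decide)
    have f6 : flip 3 7 ![2, 2, 2, 2, 0, 0, 0, 0] = ![2, 2, 2, -2, 0, 0, 0, 0] := by decide
    rw [f6] at e6
    rw [← e1, ← e3, ← e4, ← e5, e2, e6]
  · have e1 := gref hR (2 * k) ![3, 1, 0, 0, 0, 0, 0, 0] ![2, 0, -1, -1, -1, -1, -1, -1] (by decide)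
    have e2 := gref hR (2 * k) ![2, 2, 1, -1, 0, 0, 0, 0] ![1, 1, 0, -2, -1, -1, -1, -1] (by decide)
    have e3 := gperm H (2 * k) ![2, 0, -1, -1, -1, -1, -1, -1] (Equiv.swap 0 3)
    have f3 : (fun i => (![2, 0, -1, -1, -1, -1, -1, -1] : Fin 8 → ℤ) ((Equiv.swap 0 3 : Equiv.Perm (Fin 8)) i)) =
        ![-1, 0, -1, 2, -1, -1, -1, -1] := by decide
    rw [f3] at e3
    have e3' := gperm H (2 * k) ![-1, 0, -1, 2, -1, -1, -1, -1] (Equiv.swap 1 2)
    have f3' : (fun i => (![-1, 0, -1, 2, -1, -1, -1, -1] : Fin 8 → ℤ) ((Equiv.swap 1 2 : Equiv.Perm (Fin 8)) i)) =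
        ![-1, -1, 0, 2, -1, -1, -1, -1] := by decide
    rw [f3'] at e3'
    have e4 := gflip H (2 * k) ![-1, -1, 0, 2, -1, -1, -1, -1] 0 1 (by decide)
    have f4 : flip 0 1 ![-1, -1, 0, 2, -1, -1, -1, -1] = ![1, 1, 0, 2, -1, -1, -1, -1] := by decide
    rw [f4] at e4
    have e5 := gflip H (2 * k) ![1, 1, 0, 2, -1, -1, -1, -1] 2 3 (by decide)
    have f5 : flip 2 3 ![1, 1, 0, 2, -1, -1, -1, -1] = ![1, 1, 0, -2, -1, -1, -1, -1] := by decide
    rw [f5] at e5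
    have e6 := gflip H (2 * k) ![2, 2, 1, 1, 0, 0, 0, 0] 3 7 (by decide)
    have f6 : flip 3 7 ![2, 2, 1, 1, 0, 0, 0, 0] = ![2, 2, 1, -1, 0, 0, 0, 0] := by decide
    rw [f6] at e6
    rw [← e1, ← e3, ← e3', ← e4, ← e5, e2, e6]
  · have e1 := gref hR (2 * k) ![2, 2, 0, 0, 0, 0, 0, 0] ![1, 1, -1, -1, -1, -1, -1, -1] (by decide)
    have e2 := gflip H (2 * k) ![1, 1, -1, -1, -1, -1, -1, -1] 2 3 (by decide)
    have f2 : flip 2 3 ![1, 1, -1, -1, -1, -1, -1, -1] = ![1, 1, 1, 1, -1, -1, -1, -1] := by decide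
    rw [f2] at e2
    have e3 := gflip H (2 * k) ![1, 1, 1, 1, -1, -1, -1, -1] 4 5 (by decide)
    have f3 : flip 4 5 ![1, 1, 1, 1, -1, -1, -1, -1] = ![1, 1, 1, 1, 1, 1, -1, -1] := by decide
    rw [f3] at e3
    have e4 := gflip H (2 * k) ![1, 1, 1, 1, 1, 1, -1, -1] 6 7 (by decide)
    have f4 : flip 6 7 ![1, 1, 1, 1, 1, 1, -1, -1] = ![1, 1, 1, 1, 1, 1, 1, 1] := by decide
    rw [f4] at e4
    rw [← e1, ← e2, ← e3, ← e4]

end Pool.Agent.Helper17K9.WP
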