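import Pool.Agent.Helper17K9.WP.Stm
import Pool.Agent.Helper54K9.WP.RsfL

set_option autoImplicit false

/-!
[RSF] (helper54): the closed form of `rootSum`.
-/

namespace Pool.Agent.Helper17K9.WP

open Pool.Agent.Q10.E8 Pool.Agent.Helper17K9.EX
open RsfL

theorem rsf : S_RSF := by
  intro v hv
  have e : ∀ r ∈ AllR, ph v r ^ 8 = 65536 * pr v r.f ^ 8 := by
    intro r hr
    have h := pr_spec v r.f hv (good r hr).1
    have h2 : ph v r = 4 * pr v r.f := by
      rw [h]
      simp only [Fin.sum_univ_eight]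
      rfl
    rw [h2]
    ring
  have h3 : 65536 * rootSum v = (AllR.map fun r => ph v r ^ 8).sum := by
    rw [rootSum_list, List.map_congr_left e, ← List.sum_map_mul_left]
  have h4 := total v (P 1 v) (P 2 v) (P 3 v) (P 4 v)
    (by unfold P; rw [Fin.sum_univ_eight]) (by unfold P; rw [Fin.sum_univ_eight])
    (by unfold P; rw [Fin.sum_univ_eight]) (by unfold P; rw [Fin.sum_univ_eight])
  rw [Fin.prod_univ_eight]
  rw [h4] at h3
  linarith

end Pool.Agent.Helper17K9.WP
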