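import Pool.Agent.Helper17K9.WP.Stm

set_option autoImplicit false

/-!
# Small shells (leaves SMN and SMP)
-/

namespace Pool.Agent.Helper17K9.WP

open Pool.Agent.Q10.E8 Pool.Agent.Helper17K9.EX

namespace SmL

/-- the value of the sum over the roots for the vector with the coordinates `2 a, ..., 2 h`, up to terms -/
def lhs (m a b c d e f g h : ℕ) : ℕ :=
  672 * (a ^ 6 + b ^ 6 + c ^ 6 + d ^ 6 + e ^ 6 + f ^ 6 + g ^ 6 + h ^ 6) * (2 * m) +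
    420 * (a ^ 4 + b ^ 4 + c ^ 4 + d ^ 4 + e ^ 4 + f ^ 4 + g ^ 4 + h ^ 4) ^ 2 + 105 * (2 * m) ^ 4 +
    40320 * (a * b * c * d * e * f * g * h)

def rhs (m a b c d e f g h : ℕ) : ℕ :=
  960 * m ^ 4 + 720 * (a ^ 8 + b ^ 8 + c ^ 8 + d ^ 8 + e ^ 8 + f ^ 8 + g ^ 8 + h ^ 8) +
    420 * (a ^ 4 + b ^ 4 + c ^ 4 + d ^ 4 + e ^ 4 + f ^ 4 + g ^ 4 + h ^ 4) * (2 * m) ^ 2

def ok (m a b c d e f g h : ℕ) : Bool :=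
  Nat.beq (a ^ 2 + b ^ 2 + c ^ 2 + d ^ 2 + e ^ 2 + f ^ 2 + g ^ 2 + h ^ 2) (2 * m) &&
    Nat.beq ((a + b + c + d + e + f + g + h) % 2) 0

/-- the vector with the coordinates `2 a, ..., 2 h` -/
def vc (a b c d e f g h : ℕ) : Fin 8 → ℤ :=
  ![2 * (a : ℤ), 2 * b, 2 * c, 2 * d, 2 * e, 2 * f, 2 * g, 2 * h]

theorem mem (m a b c d e f g h : ℕ) (H : ok m a b c d e f g h = true) :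
    InShell m (vc a b c d e f g h) := by
  unfold ok at H
  rw [Bool.and_eq_true] at H
  obtain ⟨h1, h2⟩ := H
  have h1 := Nat.eq_of_beq_eq_true h1
  have h2 := Nat.eq_of_beq_eq_true h2
  refine ⟨⟨?_, ?_⟩, ?_⟩
  · have : ∀ i, vc a b c d e f g h i % 2 = 0 := by
      intro i
      fin_cases i <;> simp [vc]
    intro i j
    rw [this i, this j]
  · rw [Fin.sum_univ_eight]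
    simp only [vc, Matrix.cons_val]
    omega
  · rw [Fin.sum_univ_eight]
    simp only [vc, Matrix.cons_val]
    have h3 : ((a : ℤ) ^ 2 + b ^ 2 + c ^ 2 + d ^ 2 + e ^ 2 + f ^ 2 + g ^ 2 + h ^ 2) = 2 * m := by
      exact_mod_cast h1
    linear_combination 4 * h3

theorem ar (R m p2 p3 p4 pr : ℤ) (hR : 512 * R = 672 * (64 * p3) * (4 * (2 * m)) +
    420 * (16 * p2) ^ 2 - 720 * (256 * p4) - 420 * (16 * p2) * (4 * (2 * m)) ^ 2 +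
    105 * (4 * (2 * m)) ^ 4 + 40320 * (256 * pr)) :
    2 * (R - 480 * m ^ 4) = (672 * p3 * (2 * m) + 420 * p2 ^ 2 + 105 * (2 * m) ^ 4 + 40320 * pr) -
      (960 * m ^ 4 + 720 * p4 + 420 * p2 * (2 * m) ^ 2) := by
  have : (256 : ℤ) * (2 * (R - 480 * m ^ 4)) =
      256 * ((672 * p3 * (2 * m) + 420 * p2 ^ 2 + 105 * (2 * m) ^ 4 + 40320 * pr) -
      (960 * m ^ 4 + 720 * p4 + 420 * p2 * (2 * m) ^ 2)) := by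
    linear_combination hR
  exact mul_left_cancel₀ (by norm_num) this

theorem val (hRSF : S_RSF) (m a b c d e f g h : ℕ) (H : ok m a b c d e f g h = true) :
    2 * (rootSum (vc a b c d e f g h) - 480 * (m : ℤ) ^ 4) =
      (lhs m a b c d e f g h : ℤ) - (rhs m a b c d e f g h : ℤ) := by
  have hm := mem m a b c d e f g h H
  have h0 := hRSF _ hm.1
  have h1 : P 1 (vc a b c d e f g h) = 4 * (2 * (m : ℤ)) := by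
    have := hm.2
    unfold P
    simp only [mul_one]
    rw [this]
    ring
  have h2 : P 2 (vc a b c d e f g h) = 16 * ((a : ℤ) ^ 4 + b ^ 4 + c ^ 4 + d ^ 4 + e ^ 4 + f ^ 4 +
      g ^ 4 + h ^ 4) := by
    unfold P
    rw [Fin.sum_univ_eight]
    simp only [vc, Matrix.cons_val]
    ring
  have h3 : P 3 (vc a b c d e f g h) = 64 * ((a : ℤ) ^ 6 + b ^ 6 + c ^ 6 + d ^ 6 + e ^ 6 + f ^ 6 +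
      g ^ 6 + h ^ 6) := by
    unfold P
    rw [Fin.sum_univ_eight]
    simp only [vc, Matrix.cons_val]
    ring
  have h4 : P 4 (vc a b c d e f g h) = 256 * ((a : ℤ) ^ 8 + b ^ 8 + c ^ 8 + d ^ 8 + e ^ 8 + f ^ 8 +
      g ^ 8 + h ^ 8) := by
    unfold P
    rw [Fin.sum_univ_eight]
    simp only [vc, Matrix.cons_val]
    ring
  have h5 : ∏ i, vc a b c d e f g h i = 256 * ((a : ℤ) * b * c * d * e * f * g * h) := by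
    rw [Fin.prod_univ_eight]
    simp only [vc, Matrix.cons_val]
    ring
  rw [h1, h2, h3, h4, h5] at h0
  have h6 := ar _ _ _ _ _ _ h0
  rw [h6]
  unfold lhs rhs
  push_cast
  ring

def chkN (m : ℕ) : List ℕ → Bool
  | [a, b, c, d, e, f, g, h] =>
    ok m a b c d e f g h && Nat.blt (lhs m a b c d e f g h) (rhs m a b c d e f g h)
  | _ => false

def chkP (m : ℕ) : List ℕ → Bool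
  | [a, b, c, d, e, f, g, h] =>
    ok m a b c d e f g h && Nat.blt (rhs m a b c d e f g h) (lhs m a b c d e f g h)
  | _ => false

theorem blt_iff {x y : ℕ} (h : Nat.blt x y = true) : x < y := by
  unfold Nat.blt at h
  exact Nat.le_of_ble_eq_true h

theorem neg (hRSF : S_RSF) (m : ℕ) (l : List ℕ) (H : chkN m l = true) :
    ∃ v, InShell m v ∧ rootSum v < 480 * (m : ℤ) ^ 4 := by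
  unfold chkN at H
  split at H
  · rename_i a b c d e f g h
    rw [Bool.and_eq_true] at H
    refine ⟨vc a b c d e f g h, mem _ _ _ _ _ _ _ _ _ H.1, ?_⟩
    have h1 := val hRSF m a b c d e f g h H.1
    have h2 := blt_iff H.2
    have h3 : (lhs m a b c d e f g h : ℤ) < (rhs m a b c d e f g h : ℤ) := by exact_mod_cast h2
    linarith
  · exact absurd H (by simp)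

theorem pos (hRSF : S_RSF) (m : ℕ) (l : List ℕ) (H : chkP m l = true) :
    ∃ v, InShell m v ∧ 480 * (m : ℤ) ^ 4 < rootSum v := by
  unfold chkP at H
  split at H
  · rename_i a b c d e f g h
    rw [Bool.and_eq_true] at H
    refine ⟨vc a b c d e f g h, mem _ _ _ _ _ _ _ _ _ H.1, ?_⟩
    have h1 := val hRSF m a b c d e f g h H.1
    have h2 := blt_iff H.2
    have h3 : (rhs m a b c d e f g h : ℤ) < (lhs m a b c d e f g h : ℤ) := by exact_mod_cast h2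
    linarith
  · exact absurd H (by simp)

def tabN : List (List ℕ) := [
  [], [], [], [], [2, 1, 1, 1, 1, 0, 0, 0], [], [], [3, 1, 1, 1, 1, 1, 0, 0],
  [4, 0, 0, 0, 0, 0, 0, 0], [4, 1, 1, 0, 0, 0, 0, 0], [4, 1, 1, 1, 1, 0, 0, 0],
  [4, 1, 1, 1, 1, 1, 1, 0], [4, 2, 1, 1, 1, 1, 0, 0], [5, 1, 0, 0, 0, 0, 0, 0],
  [5, 1, 1, 1, 0, 0, 0, 0], [5, 1, 1, 1, 1, 1, 0, 0], [5, 1, 1, 1, 1, 1, 1, 1],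
  [5, 2, 1, 1, 1, 1, 1, 0], [6, 0, 0, 0, 0, 0, 0, 0], [6, 1, 1, 0, 0, 0, 0, 0],
  [6, 1, 1, 1, 1, 0, 0, 0], [6, 1, 1, 1, 1, 1, 1, 0], [6, 2, 1, 1, 1, 1, 0, 0],
  [6, 2, 2, 1, 1, 0, 0, 0], [6, 2, 2, 2, 0, 0, 0, 0], [7, 1, 0, 0, 0, 0, 0, 0],
  [7, 1, 1, 1, 0, 0, 0, 0], [7, 2, 1, 0, 0, 0, 0, 0], [7, 2, 1, 1, 1, 0, 0, 0],
  [7, 2, 2, 1, 0, 0, 0, 0], [7, 2, 2, 1, 1, 1, 0, 0], [7, 2, 2, 2, 1, 0, 0, 0],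
  [8, 0, 0, 0, 0, 0, 0, 0], [8, 1, 1, 0, 0, 0, 0, 0], [8, 2, 0, 0, 0, 0, 0, 0],
  [8, 2, 1, 1, 0, 0, 0, 0], [8, 2, 2, 0, 0, 0, 0, 0], [8, 2, 2, 1, 1, 0, 0, 0],
  [8, 2, 2, 2, 0, 0, 0, 0], [8, 2, 2, 2, 1, 1, 0, 0], [8, 2, 2, 2, 2, 0, 0, 0],
  [9, 1, 0, 0, 0, 0, 0, 0], [9, 1, 1, 1, 0, 0, 0, 0], [9, 2, 1, 0, 0, 0, 0, 0],
  [9, 2, 1, 1, 1, 0, 0, 0], [9, 2, 2, 1, 0, 0, 0, 0], [9, 2, 2, 1, 1, 1, 0, 0],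
  [9, 2, 2, 2, 1, 0, 0, 0], [9, 3, 1, 1, 1, 1, 1, 1], [9, 3, 2, 2, 0, 0, 0, 0],
  [10, 0, 0, 0, 0, 0, 0, 0], [10, 1, 1, 0, 0, 0, 0, 0], [10, 2, 0, 0, 0, 0, 0, 0],
  [10, 2, 1, 1, 0, 0, 0, 0], [10, 2, 2, 0, 0, 0, 0, 0], [10, 2, 2, 1, 1, 0, 0, 0],
  [10, 3, 1, 1, 1, 0, 0, 0], [10, 3, 2, 1, 0, 0, 0, 0], [10, 3, 2, 1, 1, 1, 0, 0],
  [10, 3, 2, 2, 1, 0, 0, 0], [10, 3, 3, 1, 1, 0, 0, 0], [11, 1, 0, 0, 0, 0, 0, 0],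
  [11, 1, 1, 1, 0, 0, 0, 0], [11, 2, 1, 0, 0, 0, 0, 0], [11, 2, 1, 1, 1, 0, 0, 0],
  [11, 3, 0, 0, 0, 0, 0, 0], [11, 3, 1, 1, 0, 0, 0, 0], [11, 3, 2, 0, 0, 0, 0, 0],
  [11, 3, 2, 1, 1, 0, 0, 0], [11, 3, 2, 2, 0, 0, 0, 0], [11, 3, 3, 1, 0, 0, 0, 0],
  [11, 3, 3, 1, 1, 1, 0, 0], [12, 0, 0, 0, 0, 0, 0, 0], [12, 1, 1, 0, 0, 0, 0, 0],
  [12, 2, 0, 0, 0, 0, 0, 0], [12, 2, 1, 1, 0, 0, 0, 0], [12, 2, 2, 0, 0, 0, 0, 0],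
  [12, 3, 1, 0, 0, 0, 0, 0], [12, 3, 1, 1, 1, 0, 0, 0], [12, 3, 2, 1, 0, 0, 0, 0],
  [12, 3, 2, 1, 1, 1, 0, 0], [12, 3, 3, 0, 0, 0, 0, 0], [12, 3, 3, 1, 1, 0, 0, 0],
  [12, 3, 3, 2, 0, 0, 0, 0], [12, 3, 3, 2, 1, 1, 0, 0], [13, 1, 0, 0, 0, 0, 0, 0],
  [13, 1, 1, 1, 0, 0, 0, 0], [13, 2, 1, 0, 0, 0, 0, 0], [13, 2, 1, 1, 1, 0, 0, 0],
  [13, 3, 0, 0, 0, 0, 0, 0], [13, 3, 1, 1, 0, 0, 0, 0], [13, 3, 2, 0, 0, 0, 0, 0],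
  [13, 3, 2, 1, 1, 0, 0, 0], [13, 3, 2, 2, 0, 0, 0, 0], [13, 3, 3, 1, 0, 0, 0, 0],
  [13, 4, 1, 1, 1, 1, 1, 0], [13, 4, 2, 1, 1, 1, 0, 0], [13, 4, 2, 2, 1, 0, 0, 0],
  [14, 0, 0, 0, 0, 0, 0, 0], [14, 1, 1, 0, 0, 0, 0, 0], [14, 2, 0, 0, 0, 0, 0, 0],
  [14, 2, 1, 1, 0, 0, 0, 0], [14, 2, 2, 0, 0, 0, 0, 0], [14, 3, 1, 0, 0, 0, 0, 0],
  [14, 3, 1, 1, 1, 0, 0, 0], [14, 3, 2, 1, 0, 0, 0, 0], [14, 4, 0, 0, 0, 0, 0, 0],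
  [14, 4, 1, 1, 0, 0, 0, 0], [14, 4, 2, 0, 0, 0, 0, 0], [14, 4, 2, 1, 1, 0, 0, 0],
  [14, 4, 2, 2, 0, 0, 0, 0], [14, 4, 3, 1, 0, 0, 0, 0], [14, 4, 3, 1, 1, 1, 0, 0],
  [15, 1, 0, 0, 0, 0, 0, 0], [15, 1, 1, 1, 0, 0, 0, 0], [15, 2, 1, 0, 0, 0, 0, 0],
  [15, 2, 1, 1, 1, 0, 0, 0], [15, 3, 0, 0, 0, 0, 0, 0], [15, 3, 1, 1, 0, 0, 0, 0],
  [15, 3, 2, 0, 0, 0, 0, 0], [15, 3, 2, 1, 1, 0, 0, 0], [15, 4, 1, 0, 0, 0, 0, 0],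
  [15, 4, 1, 1, 1, 0, 0, 0], [15, 4, 2, 1, 0, 0, 0, 0], [15, 4, 2, 1, 1, 1, 0, 0],
  [15, 4, 3, 0, 0, 0, 0, 0], [15, 4, 3, 1, 1, 0, 0, 0], [15, 4, 3, 2, 0, 0, 0, 0],
  [16, 0, 0, 0, 0, 0, 0, 0], [16, 1, 1, 0, 0, 0, 0, 0], [16, 2, 0, 0, 0, 0, 0, 0],
  [16, 2, 1, 1, 0, 0, 0, 0], [16, 2, 2, 0, 0, 0, 0, 0], [16, 3, 1, 0, 0, 0, 0, 0],
  [16, 3, 1, 1, 1, 0, 0, 0], [16, 3, 2, 1, 0, 0, 0, 0], [16, 4, 0, 0, 0, 0, 0, 0],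
  [16, 4, 1, 1, 0, 0, 0, 0], [16, 4, 2, 0, 0, 0, 0, 0], [16, 4, 2, 1, 1, 0, 0, 0],
  [16, 4, 2, 2, 0, 0, 0, 0], [16, 4, 3, 1, 0, 0, 0, 0], [16, 4, 3, 1, 1, 1, 0, 0],
  [16, 4, 3, 2, 1, 0, 0, 0], [16, 4, 4, 0, 0, 0, 0, 0], [17, 1, 0, 0, 0, 0, 0, 0],
  [17, 1, 1, 1, 0, 0, 0, 0], [17, 2, 1, 0, 0, 0, 0, 0], [17, 2, 1, 1, 1, 0, 0, 0],
  [17, 3, 0, 0, 0, 0, 0, 0], [17, 3, 1, 1, 0, 0, 0, 0], [17, 3, 2, 0, 0, 0, 0, 0],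
  [17, 3, 2, 1, 1, 0, 0, 0], [17, 4, 1, 0, 0, 0, 0, 0], [17, 4, 1, 1, 1, 0, 0, 0],
  [17, 4, 2, 1, 0, 0, 0, 0], [17, 4, 2, 1, 1, 1, 0, 0], [17, 4, 3, 0, 0, 0, 0, 0],
  [17, 5, 1, 1, 0, 0, 0, 0], [17, 5, 2, 0, 0, 0, 0, 0], [17, 5, 2, 1, 1, 0, 0, 0],
  [17, 5, 2, 2, 0, 0, 0, 0], [18, 0, 0, 0, 0, 0, 0, 0], [18, 1, 1, 0, 0, 0, 0, 0],
  [18, 2, 0, 0, 0, 0, 0, 0], [18, 2, 1, 1, 0, 0, 0, 0], [18, 2, 2, 0, 0, 0, 0, 0],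
  [18, 3, 1, 0, 0, 0, 0, 0], [18, 3, 1, 1, 1, 0, 0, 0], [18, 3, 2, 1, 0, 0, 0, 0],
  [18, 4, 0, 0, 0, 0, 0, 0], [18, 4, 1, 1, 0, 0, 0, 0], [18, 4, 2, 0, 0, 0, 0, 0],
  [18, 4, 2, 1, 1, 0, 0, 0], [18, 4, 2, 2, 0, 0, 0, 0], [18, 5, 1, 0, 0, 0, 0, 0],
  [18, 5, 1, 1, 1, 0, 0, 0], [18, 5, 2, 1, 0, 0, 0, 0], [18, 5, 2, 1, 1, 1, 0, 0],
  [18, 5, 3, 0, 0, 0, 0, 0], [18, 5, 3, 1, 1, 0, 0, 0], [19, 1, 0, 0, 0, 0, 0, 0],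
  [19, 1, 1, 1, 0, 0, 0, 0], [19, 2, 1, 0, 0, 0, 0, 0], [19, 2, 1, 1, 1, 0, 0, 0],
  [19, 3, 0, 0, 0, 0, 0, 0], [19, 3, 1, 1, 0, 0, 0, 0], [19, 3, 2, 0, 0, 0, 0, 0],
  [19, 3, 2, 1, 1, 0, 0, 0], [19, 4, 1, 0, 0, 0, 0, 0], [19, 4, 1, 1, 1, 0, 0, 0],
  [19, 4, 2, 1, 0, 0, 0, 0], [19, 4, 2, 1, 1, 1, 0, 0], [19, 5, 0, 0, 0, 0, 0, 0],
  [19, 5, 1, 1, 0, 0, 0, 0], [19, 5, 2, 0, 0, 0, 0, 0], [19, 5, 2, 1, 1, 0, 0, 0],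
  [19, 5, 2, 2, 0, 0, 0, 0], [19, 5, 3, 1, 0, 0, 0, 0], [19, 5, 3, 1, 1, 1, 0, 0],
  [20, 0, 0, 0, 0, 0, 0, 0], [20, 1, 1, 0, 0, 0, 0, 0], [20, 2, 0, 0, 0, 0, 0, 0],
  [20, 2, 1, 1, 0, 0, 0, 0], [20, 2, 2, 0, 0, 0, 0, 0], [20, 3, 1, 0, 0, 0, 0, 0],
  [20, 3, 1, 1, 1, 0, 0, 0], [20, 3, 2, 1, 0, 0, 0, 0], [20, 4, 0, 0, 0, 0, 0, 0],
  [20, 4, 1, 1, 0, 0, 0, 0], [20, 4, 2, 0, 0, 0, 0, 0], [20, 4, 2, 1, 1, 0, 0, 0],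
  [20, 4, 2, 2, 0, 0, 0, 0], [20, 5, 1, 0, 0, 0, 0, 0], [20, 5, 1, 1, 1, 0, 0, 0],
  [20, 5, 2, 1, 0, 0, 0, 0], [20, 5, 2, 1, 1, 1, 0, 0], [20, 5, 3, 0, 0, 0, 0, 0],
  [20, 5, 3, 1, 1, 0, 0, 0], [20, 5, 3, 2, 0, 0, 0, 0], [20, 5, 3, 2, 1, 1, 0, 0],
  [21, 1, 0, 0, 0, 0, 0, 0], [21, 1, 1, 1, 0, 0, 0, 0], [21, 2, 1, 0, 0, 0, 0, 0],
  [21, 2, 1, 1, 1, 0, 0, 0], [21, 3, 0, 0, 0, 0, 0, 0], [21, 3, 1, 1, 0, 0, 0, 0],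
  [21, 3, 2, 0, 0, 0, 0, 0], [21, 3, 2, 1, 1, 0, 0, 0], [21, 4, 1, 0, 0, 0, 0, 0],
  [21, 4, 1, 1, 1, 0, 0, 0], [21, 4, 2, 1, 0, 0, 0, 0], [21, 4, 2, 1, 1, 1, 0, 0],
  [21, 5, 0, 0, 0, 0, 0, 0], [21, 5, 1, 1, 0, 0, 0, 0], [21, 5, 2, 0, 0, 0, 0, 0],
  [21, 5, 2, 1, 1, 0, 0, 0], [21, 5, 2, 2, 0, 0, 0, 0], [21, 5, 3, 1, 0, 0, 0, 0],
  [21, 6, 1, 0, 0, 0, 0, 0], [21, 6, 1, 1, 1, 0, 0, 0], [21, 6, 2, 1, 0, 0, 0, 0],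
  [22, 0, 0, 0, 0, 0, 0, 0], [22, 1, 1, 0, 0, 0, 0, 0], [22, 2, 0, 0, 0, 0, 0, 0],
  [22, 2, 1, 1, 0, 0, 0, 0], [22, 2, 2, 0, 0, 0, 0, 0], [22, 3, 1, 0, 0, 0, 0, 0],
  [22, 3, 1, 1, 1, 0, 0, 0], [22, 3, 2, 1, 0, 0, 0, 0], [22, 4, 0, 0, 0, 0, 0, 0],
  [22, 4, 1, 1, 0, 0, 0, 0], [22, 4, 2, 0, 0, 0, 0, 0], [22, 4, 2, 1, 1, 0, 0, 0],
  [22, 4, 2, 2, 0, 0, 0, 0], [22, 5, 1, 0, 0, 0, 0, 0], [22, 5, 1, 1, 1, 0, 0, 0],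
  [22, 5, 2, 1, 0, 0, 0, 0], [22, 5, 2, 1, 1, 1, 0, 0], [22, 5, 3, 0, 0, 0, 0, 0],
  [22, 6, 0, 0, 0, 0, 0, 0], [22, 6, 1, 1, 0, 0, 0, 0], [22, 6, 2, 0, 0, 0, 0, 0],
  [22, 6, 2, 1, 1, 0, 0, 0], [22, 6, 2, 2, 0, 0, 0, 0], [23, 1, 0, 0, 0, 0, 0, 0],
  [23, 1, 1, 1, 0, 0, 0, 0], [23, 2, 1, 0, 0, 0, 0, 0], [23, 2, 1, 1, 1, 0, 0, 0],
  [23, 3, 0, 0, 0, 0, 0, 0], [23, 3, 1, 1, 0, 0, 0, 0], [23, 3, 2, 0, 0, 0, 0, 0],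
  [23, 3, 2, 1, 1, 0, 0, 0], [23, 4, 1, 0, 0, 0, 0, 0], [23, 4, 1, 1, 1, 0, 0, 0],
  [23, 4, 2, 1, 0, 0, 0, 0], [23, 4, 2, 1, 1, 1, 0, 0], [23, 5, 0, 0, 0, 0, 0, 0],
  [23, 5, 1, 1, 0, 0, 0, 0], [23, 5, 2, 0, 0, 0, 0, 0], [23, 5, 2, 1, 1, 0, 0, 0],
  [23, 5, 2, 2, 0, 0, 0, 0], [23, 5, 3, 1, 0, 0, 0, 0], [23, 6, 1, 0, 0, 0, 0, 0],
  [23, 6, 1, 1, 1, 0, 0, 0], [23, 6, 2, 1, 0, 0, 0, 0], [23, 6, 2, 1, 1, 1, 0, 0],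
  [23, 6, 3, 0, 0, 0, 0, 0], [24, 0, 0, 0, 0, 0, 0, 0], [24, 1, 1, 0, 0, 0, 0, 0],
  [24, 2, 0, 0, 0, 0, 0, 0], [24, 2, 1, 1, 0, 0, 0, 0], [24, 2, 2, 0, 0, 0, 0, 0],
  [24, 3, 1, 0, 0, 0, 0, 0], [24, 3, 1, 1, 1, 0, 0, 0], [24, 3, 2, 1, 0, 0, 0, 0],
  [24, 4, 0, 0, 0, 0, 0, 0], [24, 4, 1, 1, 0, 0, 0, 0], [24, 4, 2, 0, 0, 0, 0, 0],
  [24, 4, 2, 1, 1, 0, 0, 0], [24, 4, 2, 2, 0, 0, 0, 0], [24, 5, 1, 0, 0, 0, 0, 0],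
  [24, 5, 1, 1, 1, 0, 0, 0], [24, 5, 2, 1, 0, 0, 0, 0], [24, 5, 2, 1, 1, 1, 0, 0],
  [24, 5, 3, 0, 0, 0, 0, 0], [24, 6, 0, 0, 0, 0, 0, 0], [24, 6, 1, 1, 0, 0, 0, 0],
  [24, 6, 2, 0, 0, 0, 0, 0], [24, 6, 2, 1, 1, 0, 0, 0], [24, 6, 2, 2, 0, 0, 0, 0],
  [24, 6, 3, 1, 0, 0, 0, 0], [24, 6, 3, 1, 1, 1, 0, 0]]

def tabP : List (List ℕ) := [
  [], [], [], [], [2, 2, 0, 0, 0, 0, 0, 0], [], [], [3, 2, 1, 0, 0, 0, 0, 0],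
  [3, 2, 1, 1, 1, 0, 0, 0], [3, 3, 0, 0, 0, 0, 0, 0], [4, 2, 0, 0, 0, 0, 0, 0],
  [4, 2, 1, 1, 0, 0, 0, 0], [4, 2, 2, 0, 0, 0, 0, 0], [4, 3, 1, 0, 0, 0, 0, 0],
  [4, 3, 1, 1, 1, 0, 0, 0], [5, 2, 1, 0, 0, 0, 0, 0], [5, 2, 1, 1, 1, 0, 0, 0],
  [5, 3, 0, 0, 0, 0, 0, 0], [5, 3, 1, 1, 0, 0, 0, 0], [5, 3, 2, 0, 0, 0, 0, 0],
  [6, 2, 0, 0, 0, 0, 0, 0], [6, 2, 1, 1, 0, 0, 0, 0], [6, 2, 2, 0, 0, 0, 0, 0],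
  [6, 3, 1, 0, 0, 0, 0, 0], [6, 3, 1, 1, 1, 0, 0, 0], [6, 3, 2, 1, 0, 0, 0, 0],
  [6, 4, 0, 0, 0, 0, 0, 0], [6, 4, 1, 1, 0, 0, 0, 0], [6, 4, 2, 0, 0, 0, 0, 0],
  [7, 3, 0, 0, 0, 0, 0, 0], [7, 3, 1, 1, 0, 0, 0, 0], [7, 3, 2, 0, 0, 0, 0, 0],
  [7, 3, 2, 1, 1, 0, 0, 0], [7, 4, 1, 0, 0, 0, 0, 0], [7, 4, 1, 1, 1, 0, 0, 0],
  [7, 4, 2, 1, 0, 0, 0, 0], [7, 4, 2, 1, 1, 1, 0, 0], [8, 3, 1, 0, 0, 0, 0, 0],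
  [8, 3, 1, 1, 1, 0, 0, 0], [8, 3, 2, 1, 0, 0, 0, 0], [8, 4, 0, 0, 0, 0, 0, 0],
  [8, 4, 1, 1, 0, 0, 0, 0], [8, 4, 2, 0, 0, 0, 0, 0], [8, 4, 2, 1, 1, 0, 0, 0],
  [8, 4, 2, 2, 0, 0, 0, 0], [9, 3, 0, 0, 0, 0, 0, 0], [9, 3, 1, 1, 0, 0, 0, 0],
  [9, 3, 2, 0, 0, 0, 0, 0], [9, 3, 2, 1, 1, 0, 0, 0], [9, 4, 1, 0, 0, 0, 0, 0],
  [9, 4, 1, 1, 1, 0, 0, 0], [9, 4, 2, 1, 0, 0, 0, 0], [9, 4, 2, 1, 1, 1, 0, 0],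
  [9, 5, 0, 0, 0, 0, 0, 0], [9, 5, 1, 1, 0, 0, 0, 0], [10, 3, 1, 0, 0, 0, 0, 0],
  [9, 5, 2, 1, 1, 0, 0, 0], [9, 5, 2, 2, 0, 0, 0, 0], [10, 4, 0, 0, 0, 0, 0, 0],
  [10, 4, 1, 1, 0, 0, 0, 0], [10, 4, 2, 0, 0, 0, 0, 0], [10, 4, 2, 1, 1, 0, 0, 0],
  [10, 4, 2, 2, 0, 0, 0, 0], [10, 5, 1, 0, 0, 0, 0, 0], [10, 5, 1, 1, 1, 0, 0, 0],
  [10, 5, 2, 1, 0, 0, 0, 0], [10, 5, 2, 1, 1, 1, 0, 0], [10, 5, 3, 0, 0, 0, 0, 0],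
  [10, 6, 0, 0, 0, 0, 0, 0], [11, 4, 1, 0, 0, 0, 0, 0], [11, 4, 1, 1, 1, 0, 0, 0],
  [11, 4, 2, 1, 0, 0, 0, 0], [11, 4, 2, 1, 1, 1, 0, 0], [11, 5, 0, 0, 0, 0, 0, 0],
  [11, 5, 1, 1, 0, 0, 0, 0], [11, 5, 2, 0, 0, 0, 0, 0], [11, 5, 2, 1, 1, 0, 0, 0],
  [11, 5, 2, 2, 0, 0, 0, 0], [11, 5, 3, 1, 0, 0, 0, 0], [11, 6, 1, 0, 0, 0, 0, 0],
  [12, 4, 0, 0, 0, 0, 0, 0], [12, 4, 1, 1, 0, 0, 0, 0], [12, 4, 2, 0, 0, 0, 0, 0],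
  [12, 4, 2, 1, 1, 0, 0, 0], [12, 4, 2, 2, 0, 0, 0, 0], [12, 5, 1, 0, 0, 0, 0, 0],
  [12, 5, 1, 1, 1, 0, 0, 0], [12, 5, 2, 1, 0, 0, 0, 0], [12, 5, 2, 1, 1, 1, 0, 0],
  [12, 5, 3, 0, 0, 0, 0, 0], [12, 6, 0, 0, 0, 0, 0, 0], [12, 6, 1, 1, 0, 0, 0, 0],
  [12, 6, 2, 0, 0, 0, 0, 0], [13, 4, 1, 0, 0, 0, 0, 0], [13, 4, 1, 1, 1, 0, 0, 0],
  [13, 4, 2, 1, 0, 0, 0, 0], [12, 6, 3, 1, 1, 1, 0, 0], [13, 5, 0, 0, 0, 0, 0, 0],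
  [13, 5, 1, 1, 0, 0, 0, 0], [13, 5, 2, 0, 0, 0, 0, 0], [13, 5, 2, 1, 1, 0, 0, 0],
  [13, 5, 2, 2, 0, 0, 0, 0], [13, 5, 3, 1, 0, 0, 0, 0], [13, 6, 1, 0, 0, 0, 0, 0],
  [13, 6, 1, 1, 1, 0, 0, 0], [13, 6, 2, 1, 0, 0, 0, 0], [13, 6, 2, 1, 1, 1, 0, 0],
  [13, 6, 3, 0, 0, 0, 0, 0], [13, 6, 3, 1, 1, 0, 0, 0], [13, 7, 0, 0, 0, 0, 0, 0],
  [13, 7, 1, 1, 0, 0, 0, 0], [14, 5, 1, 0, 0, 0, 0, 0], [14, 5, 1, 1, 1, 0, 0, 0],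
  [14, 5, 2, 1, 0, 0, 0, 0], [14, 5, 2, 1, 1, 1, 0, 0], [14, 5, 3, 0, 0, 0, 0, 0],
  [14, 6, 0, 0, 0, 0, 0, 0], [14, 6, 1, 1, 0, 0, 0, 0], [14, 6, 2, 0, 0, 0, 0, 0],
  [14, 6, 2, 1, 1, 0, 0, 0], [14, 6, 2, 2, 0, 0, 0, 0], [14, 6, 3, 1, 0, 0, 0, 0],
  [14, 6, 3, 1, 1, 1, 0, 0], [14, 7, 1, 0, 0, 0, 0, 0], [14, 7, 1, 1, 1, 0, 0, 0],
  [15, 5, 0, 0, 0, 0, 0, 0], [15, 5, 1, 1, 0, 0, 0, 0], [15, 5, 2, 0, 0, 0, 0, 0],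
  [15, 5, 2, 1, 1, 0, 0, 0], [15, 5, 2, 2, 0, 0, 0, 0], [15, 5, 3, 1, 0, 0, 0, 0],
  [15, 6, 1, 0, 0, 0, 0, 0], [15, 6, 1, 1, 1, 0, 0, 0], [15, 6, 2, 1, 0, 0, 0, 0],
  [15, 6, 2, 1, 1, 1, 0, 0], [15, 6, 3, 0, 0, 0, 0, 0], [15, 6, 3, 1, 1, 0, 0, 0],
  [15, 7, 0, 0, 0, 0, 0, 0], [15, 7, 1, 1, 0, 0, 0, 0], [15, 7, 2, 0, 0, 0, 0, 0],
  [15, 7, 2, 1, 1, 0, 0, 0], [16, 5, 1, 0, 0, 0, 0, 0], [16, 5, 1, 1, 1, 0, 0, 0],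
  [16, 5, 2, 1, 0, 0, 0, 0], [16, 5, 2, 1, 1, 1, 0, 0], [16, 5, 3, 0, 0, 0, 0, 0],
  [16, 6, 0, 0, 0, 0, 0, 0], [16, 6, 1, 1, 0, 0, 0, 0], [16, 6, 2, 0, 0, 0, 0, 0],
  [16, 6, 2, 1, 1, 0, 0, 0], [16, 6, 2, 2, 0, 0, 0, 0], [16, 6, 3, 1, 0, 0, 0, 0],
  [16, 6, 3, 1, 1, 1, 0, 0], [16, 7, 1, 0, 0, 0, 0, 0], [16, 7, 1, 1, 1, 0, 0, 0],
  [16, 7, 2, 1, 0, 0, 0, 0], [16, 7, 2, 1, 1, 1, 0, 0], [17, 5, 0, 0, 0, 0, 0, 0],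
  [16, 7, 3, 1, 1, 0, 0, 0], [16, 7, 3, 2, 0, 0, 0, 0], [16, 8, 0, 0, 0, 0, 0, 0],
  [16, 8, 1, 1, 0, 0, 0, 0], [16, 8, 2, 0, 0, 0, 0, 0], [17, 6, 1, 0, 0, 0, 0, 0],
  [17, 6, 1, 1, 1, 0, 0, 0], [17, 6, 2, 1, 0, 0, 0, 0], [17, 6, 2, 1, 1, 1, 0, 0],
  [17, 6, 3, 0, 0, 0, 0, 0], [17, 6, 3, 1, 1, 0, 0, 0], [17, 7, 0, 0, 0, 0, 0, 0],
  [17, 7, 1, 1, 0, 0, 0, 0], [17, 7, 2, 0, 0, 0, 0, 0], [17, 7, 2, 1, 1, 0, 0, 0],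
  [17, 7, 2, 2, 0, 0, 0, 0], [17, 7, 3, 1, 0, 0, 0, 0], [17, 7, 3, 1, 1, 1, 0, 0],
  [17, 7, 3, 2, 1, 0, 0, 0], [17, 8, 1, 0, 0, 0, 0, 0], [17, 8, 1, 1, 1, 0, 0, 0],
  [17, 8, 2, 1, 0, 0, 0, 0], [18, 6, 0, 0, 0, 0, 0, 0], [18, 6, 1, 1, 0, 0, 0, 0],
  [18, 6, 2, 0, 0, 0, 0, 0], [18, 6, 2, 1, 1, 0, 0, 0], [18, 6, 2, 2, 0, 0, 0, 0],
  [18, 6, 3, 1, 0, 0, 0, 0], [18, 6, 3, 1, 1, 1, 0, 0], [18, 7, 1, 0, 0, 0, 0, 0],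
  [18, 7, 1, 1, 1, 0, 0, 0], [18, 7, 2, 1, 0, 0, 0, 0], [18, 7, 2, 1, 1, 1, 0, 0],
  [18, 7, 3, 0, 0, 0, 0, 0], [18, 7, 3, 1, 1, 0, 0, 0], [18, 7, 3, 2, 0, 0, 0, 0],
  [18, 8, 0, 0, 0, 0, 0, 0], [18, 8, 1, 1, 0, 0, 0, 0], [18, 8, 2, 0, 0, 0, 0, 0],
  [18, 8, 2, 1, 1, 0, 0, 0], [18, 8, 2, 2, 0, 0, 0, 0], [19, 6, 1, 0, 0, 0, 0, 0],
  [19, 6, 1, 1, 1, 0, 0, 0], [19, 6, 2, 1, 0, 0, 0, 0], [19, 6, 2, 1, 1, 1, 0, 0],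
  [19, 6, 3, 0, 0, 0, 0, 0], [19, 6, 3, 1, 1, 0, 0, 0], [19, 7, 0, 0, 0, 0, 0, 0],
  [19, 7, 1, 1, 0, 0, 0, 0], [19, 7, 2, 0, 0, 0, 0, 0], [19, 7, 2, 1, 1, 0, 0, 0],
  [19, 7, 2, 2, 0, 0, 0, 0], [19, 7, 3, 1, 0, 0, 0, 0], [19, 7, 3, 1, 1, 1, 0, 0],
  [19, 7, 3, 2, 1, 0, 0, 0], [19, 8, 1, 0, 0, 0, 0, 0], [19, 8, 1, 1, 1, 0, 0, 0],
  [19, 8, 2, 1, 0, 0, 0, 0], [19, 8, 2, 1, 1, 1, 0, 0], [19, 8, 3, 0, 0, 0, 0, 0],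
  [20, 6, 0, 0, 0, 0, 0, 0], [20, 6, 1, 1, 0, 0, 0, 0], [20, 6, 2, 0, 0, 0, 0, 0],
  [20, 6, 2, 1, 1, 0, 0, 0], [19, 9, 1, 1, 0, 0, 0, 0], [19, 9, 2, 0, 0, 0, 0, 0],
  [19, 9, 2, 1, 1, 0, 0, 0], [20, 7, 1, 0, 0, 0, 0, 0], [20, 7, 1, 1, 1, 0, 0, 0],
  [20, 7, 2, 1, 0, 0, 0, 0], [20, 7, 2, 1, 1, 1, 0, 0], [20, 7, 3, 0, 0, 0, 0, 0],
  [20, 7, 3, 1, 1, 0, 0, 0], [20, 7, 3, 2, 0, 0, 0, 0], [20, 8, 0, 0, 0, 0, 0, 0],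
  [20, 8, 1, 1, 0, 0, 0, 0], [20, 8, 2, 0, 0, 0, 0, 0], [20, 8, 2, 1, 1, 0, 0, 0],
  [20, 8, 2, 2, 0, 0, 0, 0], [20, 8, 3, 1, 0, 0, 0, 0], [20, 8, 3, 1, 1, 1, 0, 0],
  [20, 8, 3, 2, 1, 0, 0, 0], [20, 8, 4, 0, 0, 0, 0, 0], [20, 9, 1, 0, 0, 0, 0, 0],
  [20, 9, 1, 1, 1, 0, 0, 0], [20, 9, 2, 1, 0, 0, 0, 0], [20, 9, 2, 1, 1, 1, 0, 0],
  [21, 7, 0, 0, 0, 0, 0, 0], [21, 7, 1, 1, 0, 0, 0, 0], [21, 7, 2, 0, 0, 0, 0, 0],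
  [21, 7, 2, 1, 1, 0, 0, 0], [21, 7, 2, 2, 0, 0, 0, 0], [21, 7, 3, 1, 0, 0, 0, 0],
  [21, 7, 3, 1, 1, 1, 0, 0], [21, 7, 3, 2, 1, 0, 0, 0], [21, 8, 1, 0, 0, 0, 0, 0],
  [21, 8, 1, 1, 1, 0, 0, 0], [21, 8, 2, 1, 0, 0, 0, 0]]

theorem tabN_ok : ∀ m < 313, (m = 4 ∨ 7 ≤ m) → chkN m (tabN.getD m []) = true := by
  decide +kernel

theorem tabP_ok : ∀ m < 256, (m = 4 ∨ 7 ≤ m) → chkP m (tabP.getD m []) = true := by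
  decide +kernel

end SmL

open SmL in
theorem smn : S_RSF → S_SMN := by
  intro hR m hm hlt
  exact neg hR m _ (tabN_ok m hlt hm)

open SmL in
theorem smp : S_RSF → S_SMP := by
  intro hR m hm hlt
  exact pos hR m _ (tabP_ok m hlt hm)

end Pool.Agent.Helper17K9.WP
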