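import Pool.Agent.Helper17K9.WP.Sm

/-!
Leaf SMN: see `Pool.Agent.Helper17K9.WP.Sm` (theorem `smn`).
-/
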