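import Pool.Agent.Helper17K9.WP.Stm

set_option autoImplicit false

namespace Pool.Agent.Helper17K9.WP

open Pool.Agent.Q10.E8 Pool.Agent.Helper17K9.EX

namespace SrsL

theorem flip_flip (i j : Fin 8) (v : Fin 8 → ℤ) : flip i j (flip i j v) = v := by
  funext l
  unfold flip
  split_ifs <;> simp

theorem G_flip {N : ℤ} {Y : Finset (Fin 8 → ℤ)} {w : (Fin 8 → ℤ) → ℝ} (h : WInv N Y w) (k : ℕ)
    (z : Fin 8 → ℤ) {i j : Fin 8} (hij : i ≠ j) : G Y w k (flip i j z) = G Y w k z := by
  unfold G
  refine Finset.sum_nbij' (flip i j) (flip i j) (fun v hv => (h.2.1 v hv i j hij).1)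
    (fun v hv => (h.2.1 v hv i j hij).1) (fun v _ => flip_flip i j v) (fun v _ => flip_flip i j v) ?_
  intro v hv
  rw [(h.2.1 v hv i j hij).2]
  congr 2
  refine Finset.sum_congr rfl fun l _ => ?_
  unfold flip
  split_ifs <;> push_cast <;> ring

theorem G_perm {N : ℤ} {Y : Finset (Fin 8 → ℤ)} {w : (Fin 8 → ℤ) → ℝ} (h : WInv N Y w) (k : ℕ)
    (z : Fin 8 → ℤ) (π : Equiv.Perm (Fin 8)) : G Y w k (fun i => z (π i)) = G Y w k z := by
  unfold G
  refine Finset.sum_nbij' (fun v i => v (π.symm i)) (fun v i => v (π i)) (fun v hv => (h.1 v hv π.symm).1)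
    (fun v hv => (h.1 v hv π).1) (fun v _ => by funext i; simp) (fun v _ => by funext i; simp) ?_
  intro v hv
  rw [(h.1 v hv π.symm).2]
  congr 2
  have := Equiv.sum_comp π (fun i => (z i : ℝ) * (v (π.symm i) : ℝ))
  simpa using this

theorem G_abs {N : ℤ} {Y : Finset (Fin 8 → ℤ)} {w : (Fin 8 → ℤ) → ℝ} (h : WInv N Y w) (k : ℕ) :
    ∀ (n : ℕ) (z : Fin 8 → ℤ), (Finset.univ.filter (fun i => z i < 0)).card = n → (Even n ∨ ∃ l, z l = 0) →
      G Y w k z = G Y w k (fun i => |z i|) := by
  intro n
  induction n using Nat.strong_induction_on with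
  | _ n ih =>
    intro z hn hz
    rcases Nat.lt_or_ge n 2 with h2 | h2
    · interval_cases n
      · have hz0 : ∀ i, 0 ≤ z i := by
          intro i
          by_contra hi
          have : i ∈ Finset.univ.filter (fun i => z i < 0) := by simp; omega
          rw [Finset.card_eq_zero] at hn
          rw [hn] at this
          simp at this
        congr 1
        funext i
        rw [abs_of_nonneg (hz0 i)]
      · obtain ⟨i, hi⟩ := Finset.card_eq_one.mp hn
        have hi0 : z i < 0 := by
          have : i ∈ Finset.univ.filter (fun i => z i < 0) := by rw [hi]; simp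
          simpa using this
        obtain ⟨l, hl⟩ : ∃ l, z l = 0 := by
          rcases hz with hz | hz
          · exact absurd hz (by decide)
          · exact hz
        have hil : i ≠ l := by rintro rfl; omega
        rw [← G_flip h k z hil]
        congr 1
        funext m
        unfold flip
        by_cases hm : m = i ∨ m = l
        · rw [if_pos hm]
          rcases hm with rfl | rfl
          · rw [abs_of_neg hi0]
          · rw [hl]; simp
        · rw [if_neg hm]
          have : m ∉ Finset.univ.filter (fun i => z i < 0) := by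
            rw [hi]; simp; tauto
          have h0 : 0 ≤ z m := by simpa using this
          rw [abs_of_nonneg h0]
    · obtain ⟨i, hi, j, hj, hij⟩ := Finset.one_lt_card.mp (by rw [hn]; omega)
      have hi' : z i < 0 := by simpa using hi
      have hj' : z j < 0 := by simpa using hj
      have hf : Finset.univ.filter (fun l => flip i j z l < 0)
          = ((Finset.univ.filter (fun l => z l < 0)).erase i).erase j := by
        ext l
        simp only [Finset.mem_filter, Finset.mem_univ, true_and, Finset.mem_erase]
        unfold flip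
        by_cases hl : l = i ∨ l = j
        · rw [if_pos hl]
          rcases hl with rfl | rfl
          · constructor
            · intro; omega
            · intro h3; exact absurd rfl h3.2.1
          · constructor
            · intro; omega
            · intro h3; exact absurd rfl h3.1
        · rw [if_neg hl]
          tauto
      have hc : (Finset.univ.filter (fun l => flip i j z l < 0)).card = n - 2 := by
        rw [hf, Finset.card_erase_of_mem, Finset.card_erase_of_mem hi, hn]
        · omega
        · rw [Finset.mem_erase]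
          exact ⟨hij.symm, hj⟩
      have hz' : Even (n - 2) ∨ ∃ l, flip i j z l = 0 := by
        rcases hz with hz | ⟨l, hl⟩
        · left
          rw [Nat.even_sub h2]
          simp [hz]
        · right
          refine ⟨l, ?_⟩
          unfold flip
          split_ifs <;> simp [hl]
      have := ih (n - 2) (by omega) (flip i j z) hc hz'
      rw [G_flip h k z hij] at this
      rw [this]
      congr 1
      funext l
      unfold flip
      split_ifs <;> simp

theorem exists_perm {i j : Fin 8} (hij : i ≠ j) : ∃ π : Equiv.Perm (Fin 8), π 0 = i ∧ π 1 = j := by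
  have h0 : Equiv.swap 0 i j ≠ 0 := by
    intro h
    have h1 : Equiv.swap 0 i (Equiv.swap 0 i j) = Equiv.swap 0 i 0 := by rw [h]
    rw [Equiv.swap_apply_self, Equiv.swap_apply_left] at h1
    exact hij h1.symm
  refine ⟨(Equiv.swap 1 (Equiv.swap 0 i j)).trans (Equiv.swap 0 i), ?_, ?_⟩
  · rw [Equiv.trans_apply, Equiv.swap_apply_of_ne_of_ne (by decide) h0.symm, Equiv.swap_apply_left]
  · rw [Equiv.trans_apply, Equiv.swap_apply_left, Equiv.swap_apply_self]

/-- the number of negative entries is even for an odd root -/
theorem neg_even (r : Fin 8 → ℤ) (hr : ∀ i, r i = 1 ∨ r i = -1) (h4 : (∑ i, r i) % 4 = 0) :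
    Even (Finset.univ.filter (fun i => r i < 0)).card := by
  have h1 : ∑ i, r i = 8 - 2 * ((Finset.univ.filter (fun i => r i < 0)).card : ℤ) := by
    have : ∀ i, r i = 1 - 2 * (if r i < 0 then 1 else 0) := by
      intro i
      rcases hr i with h | h <;> rw [h] <;> norm_num
    rw [Finset.sum_congr rfl (fun i _ => this i), Finset.sum_sub_distrib, ← Finset.mul_sum,
      Finset.sum_boole]
    simp
  rw [h1] at h4
  have h5 : ((Finset.univ.filter (fun i => r i < 0)).card : ℤ) % 2 = 0 := by omega
  rw [Nat.even_iff]
  omega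

theorem root {N : ℤ} {Y : Finset (Fin 8 → ℤ)} {w : (Fin 8 → ℤ) → ℝ} (h : WInv N Y w)
    (h1 : G Y w 8 ![2, 2, 0, 0, 0, 0, 0, 0] = G Y w 8 ![1, 1, 1, 1, 1, 1, 1, 1])
    (r : Fin 8 → ℤ) (hr : InShell 1 r) : G Y w 8 r = G Y w 8 ![2, 2, 0, 0, 0, 0, 0, 0] := by
  obtain ⟨⟨hp, h4⟩, hn⟩ := hr
  have hn8 : ∑ i, r i ^ 2 = 8 := by rw [hn]; norm_num
  have hle : ∀ i, r i ^ 2 ≤ 8 := by
    intro i
    rw [← hn8]
    exact Finset.single_le_sum (f := fun i => r i ^ 2) (fun i _ => sq_nonneg _) (Finset.mem_univ i)
  have hb : ∀ i, -2 ≤ r i ∧ r i ≤ 2 := by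
    intro i
    have := hle i
    constructor <;> nlinarith
  rcases Int.emod_two_eq_zero_or_one (r 0) with h0 | h0
  · -- even
    have he : ∀ i, r i = 0 ∨ r i = 2 ∨ r i = -2 := by
      intro i
      have := hp i 0
      have := hb i
      omega
    have hT : (Finset.univ.filter (fun i => r i ≠ 0)).card = 2 := by
      have h5 : ∀ i, r i ^ 2 = 4 * (if r i ≠ 0 then 1 else 0) := by
        intro i
        rcases he i with h | h | h <;> rw [h] <;> norm_num
      rw [Finset.sum_congr rfl (fun i _ => h5 i), ← Finset.mul_sum, Finset.sum_boole] at hn8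
      have : ((Finset.univ.filter (fun i => r i ≠ 0)).card : ℤ) = 2 := by linarith
      exact_mod_cast this
    obtain ⟨i, j, hij, hT2⟩ := Finset.card_eq_two.mp hT
    have hz : ∃ l, r l = 0 := by
      by_contra hc
      push Not at hc
      have : Finset.univ.filter (fun i => r i ≠ 0) = Finset.univ := by
        ext l; simp [hc l]
      rw [this] at hT
      simp at hT
    rw [G_abs h 8 _ r rfl (Or.inr hz)]
    obtain ⟨π, hπ0, hπ1⟩ := exists_perm hij
    rw [← G_perm h 8 (fun i => |r i|) π]
    congr 1
    have hi : i ∈ Finset.univ.filter (fun i => r i ≠ 0) := by rw [hT2]; simp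
    have hj : j ∈ Finset.univ.filter (fun i => r i ≠ 0) := by rw [hT2]; simp
    have hi2 : |r i| = 2 := by
      have : r i ≠ 0 := by simpa using hi
      rcases he i with h | h | h
      · exact absurd h this
      · rw [h]; norm_num
      · rw [h]; norm_num
    have hj2 : |r j| = 2 := by
      have : r j ≠ 0 := by simpa using hj
      rcases he j with h | h | h
      · exact absurd h this
      · rw [h]; norm_num
      · rw [h]; norm_num
    have hother : ∀ l, l ≠ 0 → l ≠ 1 → |r (π l)| = 0 := by
      intro l hl0 hl1
      have h6 : π l ∉ Finset.univ.filter (fun i => r i ≠ 0) := by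
        rw [hT2, ← hπ0, ← hπ1]
        simp only [Finset.mem_insert, Finset.mem_singleton, EmbeddingLike.apply_eq_iff_eq]
        tauto
      have h7 : r (π l) = 0 := by simpa using h6
      rw [h7]; rfl
    funext l
    fin_cases l
    · simpa [hπ0] using hi2
    · simpa [hπ1] using hj2
    · simpa using hother 2 (by decide) (by decide)
    · simpa using hother 3 (by decide) (by decide)
    · simpa using hother 4 (by decide) (by decide)
    · simpa using hother 5 (by decide) (by decide)
    · simpa using hother 6 (by decide) (by decide)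
    · simpa using hother 7 (by decide) (by decide)
  · -- odd
    have he : ∀ i, r i = 1 ∨ r i = -1 := by
      intro i
      have := hp i 0
      have := hb i
      omega
    rw [G_abs h 8 _ r rfl (Or.inl (neg_even r he h4)), h1]
    congr 1
    funext l
    have : |r l| = 1 := by
      rcases he l with h | h <;> rw [h] <;> norm_num
    rw [this]
    fin_cases l <;> rfl

end SrsL

open SrsL in
theorem srs : S_RFL → S_SRS := by
  intro hrfl N Y w hW hR hE
  have h1 : G Y w 8 ![2, 2, 0, 0, 0, 0, 0, 0] = G Y w 8 ![1, 1, 1, 1, 1, 1, 1, 1] :=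
    (hrfl N Y w hW hR 4).2.2
  have h2 : 65536 * ∑ v ∈ Y, w v * (rootSum v : ℝ) = ∑ r ∈ shell 1, G Y w 8 r := by
    unfold G
    rw [Finset.sum_comm, Finset.mul_sum]
    refine Finset.sum_congr rfl fun v hv => ?_
    unfold rootSum
    push_cast
    rw [Finset.mul_sum, Finset.mul_sum]
    refine Finset.sum_congr rfl fun r hr => ?_
    rw [mem_shell] at hr
    have h3 := pr_spec v r (hE v hv) hr.1
    have h4 : (4 : ℝ) * (pr v r : ℝ) = ∑ i, (r i : ℝ) * (v i : ℝ) := by
      have h5 : ((4 * pr v r : ℤ) : ℝ) = ((∑ i, v i * r i : ℤ) : ℝ) := by rw [h3]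
      push_cast at h5
      rw [h5]
      exact Finset.sum_congr rfl fun i _ => mul_comm _ _
    rw [← h4, mul_pow]
    ring
  rw [h2, Finset.sum_congr rfl (fun r hr => root hW h1 r ((mem_shell 1 r).mp hr)), Finset.sum_const,
    card_roots]
  simp

end Pool.Agent.Helper17K9.WP
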