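import Pool.Agent.Helper17K9.EX.Stm
import Pool.Agent.Q10.E8.MainB

set_option autoImplicit false

/-!
# Relay WP (helper17, MP_130199_nt, hard): WEIGHTED designs on the shells of `E_8` (weighted Lehmer question)

Final theorem: for `m ≥ 1` the following are equivalent: (a) the shell `S_m` has a cubature formula of degree 11 with
positive weights at all points; (b) it has one of degree 8 with nonnegative weights, not all 0; (c) `m` is not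
one of `1, 2, 3, 5, 6`.
Proof: `w` depends only on the sign of `h = rootSum - 480 m^4` (Weyl invariant), `∑ w h = 0`; an invariant weight
with `∑ w h = 0` gives degree 11 (no harmonic invariants of degrees 1..7, 9, 10, 11); `h` has both signs on `S_m`.
-/

namespace Pool.Agent.Helper17K9.WP

open Pool.Agent.Q10.E8 Pool.Agent.Helper17K9.EX

/-- weighted monomial sums -/
noncomputable def TT (Y : Finset (Fin 8 → ℤ)) (w : (Fin 8 → ℤ) → ℝ) (β : Fin 8 → ℕ) : ℝ :=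
  ∑ v ∈ Y, w v * ∏ i, (v i : ℝ) ^ β i

/-- total weight -/
noncomputable def WW (Y : Finset (Fin 8 → ℤ)) (w : (Fin 8 → ℤ) → ℝ) : ℝ := ∑ v ∈ Y, w v

/-- power sums in direction `z` -/
noncomputable def G (Y : Finset (Fin 8 → ℤ)) (w : (Fin 8 → ℤ) → ℝ) (k : ℕ) (z : Fin 8 → ℤ) : ℝ :=
  ∑ v ∈ Y, w v * (∑ i, (z i : ℝ) * (v i : ℝ)) ^ k

/-- two signs changed -/
def flip (i j : Fin 8) (v : Fin 8 → ℤ) : Fin 8 → ℤ := fun l => if l = i ∨ l = j then - v l else v l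

/-- the reflection in the root `(1/2, .., 1/2)`, doubled coordinates -/
def rf (v : Fin 8 → ℤ) : Fin 8 → ℤ := fun i => v i - (∑ j, v j) / 4

/-- permutations and even sign changes -/
def WInv (N : ℤ) (Y : Finset (Fin 8 → ℤ)) (w : (Fin 8 → ℤ) → ℝ) : Prop :=
  (∀ v ∈ Y, ∀ π : Equiv.Perm (Fin 8), (fun i => v (π i)) ∈ Y ∧ w (fun i => v (π i)) = w v) ∧
  (∀ v ∈ Y, ∀ i j : Fin 8, i ≠ j → flip i j v ∈ Y ∧ w (flip i j v) = w v) ∧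
  (∀ v ∈ Y, ∑ i, v i ^ 2 = N)

/-- the reflection -/
def Ref (Y : Finset (Fin 8 → ℤ)) (w : (Fin 8 → ℤ) → ℝ) : Prop :=
  ∀ v ∈ Y, (∑ j, v j) % 4 = 0 ∧ rf v ∈ Y ∧ w (rf v) = w v

/-- [TSY].  Weighted copy of `Pool/Agent/Helper17K9/EX/Tsy.lean` (first half, `tsy`). -/
def S_TSY : Prop := ∀ (N : ℤ) (Y : Finset (Fin 8 → ℤ)) (w : (Fin 8 → ℤ) → ℝ), WInv N Y w →
  (∀ (β : Fin 8 → ℕ) (π : Equiv.Perm (Fin 8)), TT Y w (fun i => β (π i)) = TT Y w β) ∧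
  (∀ (β : Fin 8 → ℕ) (i j : Fin 8), Even (β i) → Odd (β j) → TT Y w β = 0) ∧
  (∀ β : Fin 8 → ℕ, (N : ℝ) * TT Y w β = ∑ i, TT Y w (fun l => if l = i then β l + 2 else β l))

/-- [RFL].  `∑ z_i (rf v)_i = ∑ (z_i - (∑ z)/4) v_i`.  `(4,0^7) ↦ (3,(-1)^7)`, `(2,2,2,-2,0^4) ↦ (1,1,1,-3,(-1)^4)`;
`(3,1,0^6) ↦ (2,0,(-1)^6)`, `(2,2,1,-1,0^4) ↦ (1,1,0,-2,(-1)^4)`; `(2,2,0^6) ↦ (1,1,(-1)^6)`; then permutations,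
even sign changes, `z ↦ -z` (the exponent is even). -/
def S_RFL : Prop := ∀ (N : ℤ) (Y : Finset (Fin 8 → ℤ)) (w : (Fin 8 → ℤ) → ℝ), WInv N Y w → Ref Y w → ∀ k : ℕ,
  G Y w (2 * k) ![4, 0, 0, 0, 0, 0, 0, 0] = G Y w (2 * k) ![2, 2, 2, 2, 0, 0, 0, 0] ∧
  G Y w (2 * k) ![3, 1, 0, 0, 0, 0, 0, 0] = G Y w (2 * k) ![2, 2, 1, 1, 0, 0, 0, 0] ∧
  G Y w (2 * k) ![2, 2, 0, 0, 0, 0, 0, 0] = G Y w (2 * k) ![1, 1, 1, 1, 1, 1, 1, 1]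

/-- [EXA] (: S_TSY -> S_EXA).  Expansions.  `8 G = ` sum over the signs of the coordinates 1, 2, 3 (change the sign
of coordinate 7 as well: `z_7 = 0`), pointwise identity by `ring`, then symmetry of `TT`. -/
def S_EXA : Prop := ∀ (N : ℤ) (Y : Finset (Fin 8 → ℤ)) (w : (Fin 8 → ℤ) → ℝ), WInv N Y w →
  G Y w 4 ![4, 0, 0, 0, 0, 0, 0, 0] = 256 * TT Y w ![4, 0, 0, 0, 0, 0, 0, 0] ∧
  G Y w 6 ![4, 0, 0, 0, 0, 0, 0, 0] = 4096 * TT Y w ![6, 0, 0, 0, 0, 0, 0, 0] ∧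
  G Y w 4 ![2, 2, 2, 2, 0, 0, 0, 0] =
    16 * (4 * TT Y w ![4, 0, 0, 0, 0, 0, 0, 0] + 36 * TT Y w ![2, 2, 0, 0, 0, 0, 0, 0]) ∧
  G Y w 6 ![2, 2, 2, 2, 0, 0, 0, 0] =
    64 * (4 * TT Y w ![6, 0, 0, 0, 0, 0, 0, 0] + 180 * TT Y w ![4, 2, 0, 0, 0, 0, 0, 0]
      + 360 * TT Y w ![2, 2, 2, 0, 0, 0, 0, 0])

/-- [EXB] (: S_TSY -> S_EXB).  Degree 8, same method. -/
def S_EXB : Prop := ∀ (N : ℤ) (Y : Finset (Fin 8 → ℤ)) (w : (Fin 8 → ℤ) → ℝ), WInv N Y w →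
  G Y w 8 ![4, 0, 0, 0, 0, 0, 0, 0] = 65536 * TT Y w ![8, 0, 0, 0, 0, 0, 0, 0] ∧
  G Y w 8 ![2, 2, 0, 0, 0, 0, 0, 0] =
    256 * (2 * TT Y w ![8, 0, 0, 0, 0, 0, 0, 0] + 56 * TT Y w ![6, 2, 0, 0, 0, 0, 0, 0]
      + 70 * TT Y w ![4, 4, 0, 0, 0, 0, 0, 0]) ∧
  G Y w 8 ![2, 2, 2, 2, 0, 0, 0, 0] =
    256 * (4 * TT Y w ![8, 0, 0, 0, 0, 0, 0, 0] + 336 * TT Y w ![6, 2, 0, 0, 0, 0, 0, 0]
      + 420 * TT Y w ![4, 4, 0, 0, 0, 0, 0, 0] + 5040 * TT Y w ![4, 2, 2, 0, 0, 0, 0, 0]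
      + 2520 * TT Y w ![2, 2, 2, 2, 0, 0, 0, 0])

/-- [EXC] (: S_TSY -> S_EXC).  Degree 10, same method. -/
def S_EXC : Prop := ∀ (N : ℤ) (Y : Finset (Fin 8 → ℤ)) (w : (Fin 8 → ℤ) → ℝ), WInv N Y w →
  G Y w 10 ![4, 0, 0, 0, 0, 0, 0, 0] = 1048576 * TT Y w ![10, 0, 0, 0, 0, 0, 0, 0] ∧
  G Y w 10 ![2, 2, 2, 2, 0, 0, 0, 0] =
    1024 * (4 * TT Y w ![10, 0, 0, 0, 0, 0, 0, 0] + 540 * TT Y w ![8, 2, 0, 0, 0, 0, 0, 0]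
      + 2520 * TT Y w ![6, 4, 0, 0, 0, 0, 0, 0] + 15120 * TT Y w ![6, 2, 2, 0, 0, 0, 0, 0]
      + 37800 * TT Y w ![4, 4, 2, 0, 0, 0, 0, 0] + 75600 * TT Y w ![4, 2, 2, 2, 0, 0, 0, 0]) ∧
  G Y w 10 ![3, 1, 0, 0, 0, 0, 0, 0] =
    59050 * TT Y w ![10, 0, 0, 0, 0, 0, 0, 0] + 295650 * TT Y w ![8, 2, 0, 0, 0, 0, 0, 0]
      + 170100 * TT Y w ![6, 4, 0, 0, 0, 0, 0, 0]

/-- [EXD] (: S_TSY -> S_EXD).  Degree 10, same method. -/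
def S_EXD : Prop := ∀ (N : ℤ) (Y : Finset (Fin 8 → ℤ)) (w : (Fin 8 → ℤ) → ℝ), WInv N Y w →
  G Y w 10 ![2, 2, 1, 1, 0, 0, 0, 0] =
    2050 * TT Y w ![10, 0, 0, 0, 0, 0, 0, 0] + 139050 * TT Y w ![8, 2, 0, 0, 0, 0, 0, 0]
      + 497700 * TT Y w ![6, 4, 0, 0, 0, 0, 0, 0] + 1512000 * TT Y w ![6, 2, 2, 0, 0, 0, 0, 0]
      + 2646000 * TT Y w ![4, 4, 2, 0, 0, 0, 0, 0] + 3024000 * TT Y w ![4, 2, 2, 2, 0, 0, 0, 0]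

/-- [EXQ] (: S_TSY -> S_EXQ).  Degree 8, eight coordinates: multinomial expansion
(`Finset.sum_pow_eq_sum_piAntidiag`); mixed parities vanish; or step by step (`(a+b)^8`, halves of four
coordinates, ...). -/
def S_EXQ : Prop := ∀ (N : ℤ) (Y : Finset (Fin 8 → ℤ)) (w : (Fin 8 → ℤ) → ℝ), WInv N Y w →
  G Y w 8 ![1, 1, 1, 1, 1, 1, 1, 1] =
    8 * TT Y w ![8, 0, 0, 0, 0, 0, 0, 0] + 1568 * TT Y w ![6, 2, 0, 0, 0, 0, 0, 0]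
      + 1960 * TT Y w ![4, 4, 0, 0, 0, 0, 0, 0] + 70560 * TT Y w ![4, 2, 2, 0, 0, 0, 0, 0]
      + 176400 * TT Y w ![2, 2, 2, 2, 0, 0, 0, 0] + 40320 * TT Y w ![1, 1, 1, 1, 1, 1, 1, 1]

/-- [SRS] (: S_RFL -> S_SRS).  All 240 roots give the same power sum.  (`shell 1` = 112 vectors `±2 e_i ± 2 e_j` and 128
vectors with entries `±1`, `shell_one`, `AllR` in `Q10/E8/Roots`, `Orb`.)  `4 pr v r = ∑ v_i r_i` (`pr_spec`). -/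
def S_SRS : Prop := ∀ (N : ℤ) (Y : Finset (Fin 8 → ℤ)) (w : (Fin 8 → ℤ) → ℝ), WInv N Y w → Ref Y w →
  (∀ v ∈ Y, IsE8 v) →
  65536 * ∑ v ∈ Y, w v * (rootSum v : ℝ) = 240 * G Y w 8 ![2, 2, 0, 0, 0, 0, 0, 0]

/-- [LIN] (: S_TSY -> S_RFL -> S_EXA -> S_EXB -> S_EXC -> S_EXD -> S_EXQ -> S_LIN).  Linear algebra (norm relations as
`rel_*` in `EX/Tre.lean`): with `N = W = 1`: `T4 = 3/80, T6 = 1/64, T8 = 1/128, T44 = 3/4480, T10 = 9/2048,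
T64 = 3/14336, T(1^8) = 0`. -/
def S_LIN : Prop := ∀ (N : ℤ) (Y : Finset (Fin 8 → ℤ)) (w : (Fin 8 → ℤ) → ℝ), WInv N Y w → Ref Y w →
  G Y w 8 ![2, 2, 0, 0, 0, 0, 0, 0] = 32 * (N : ℝ) ^ 4 * WW Y w →
  215040 * TT Y w ![10, 0, 0, 0, 0, 0, 0, 0] = 945 * (N : ℝ) ^ 5 * WW Y w ∧
  215040 * TT Y w ![8, 2, 0, 0, 0, 0, 0, 0] = 105 * (N : ℝ) ^ 5 * WW Y w ∧
  215040 * TT Y w ![6, 4, 0, 0, 0, 0, 0, 0] = 45 * (N : ℝ) ^ 5 * WW Y w ∧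
  215040 * TT Y w ![6, 2, 2, 0, 0, 0, 0, 0] = 15 * (N : ℝ) ^ 5 * WW Y w ∧
  215040 * TT Y w ![4, 4, 2, 0, 0, 0, 0, 0] = 9 * (N : ℝ) ^ 5 * WW Y w ∧
  215040 * TT Y w ![4, 2, 2, 2, 0, 0, 0, 0] = 3 * (N : ℝ) ^ 5 * WW Y w ∧
  215040 * TT Y w ![2, 2, 2, 2, 2, 0, 0, 0] = (N : ℝ) ^ 5 * WW Y w ∧
  TT Y w ![1, 1, 1, 1, 1, 1, 1, 1] = 0

/-- [TEN] (: S_TSY -> S_TEN).  Weighted copy of `ten` in `EX/Tsy.lean`. -/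
def S_TEN : Prop := ∀ (N : ℤ) (Y : Finset (Fin 8 → ℤ)) (w : (Fin 8 → ℤ) → ℝ), WInv N Y w →
  215040 * TT Y w ![10, 0, 0, 0, 0, 0, 0, 0] = 945 * (N : ℝ) ^ 5 * WW Y w →
  215040 * TT Y w ![8, 2, 0, 0, 0, 0, 0, 0] = 105 * (N : ℝ) ^ 5 * WW Y w →
  215040 * TT Y w ![6, 4, 0, 0, 0, 0, 0, 0] = 45 * (N : ℝ) ^ 5 * WW Y w →
  215040 * TT Y w ![6, 2, 2, 0, 0, 0, 0, 0] = 15 * (N : ℝ) ^ 5 * WW Y w →
  215040 * TT Y w ![4, 4, 2, 0, 0, 0, 0, 0] = 9 * (N : ℝ) ^ 5 * WW Y w →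
  215040 * TT Y w ![4, 2, 2, 2, 0, 0, 0, 0] = 3 * (N : ℝ) ^ 5 * WW Y w →
  215040 * TT Y w ![2, 2, 2, 2, 2, 0, 0, 0] = (N : ℝ) ^ 5 * WW Y w →
  TT Y w ![1, 1, 1, 1, 1, 1, 1, 1] = 0 →
  (∀ γ : Fin 8 → ℕ, ∑ i, γ i = 5 →
    215040 * TT Y w (fun i => 2 * γ i)
      = (∏ i, (Nat.doubleFactorial (2 * γ i - 1) : ℝ)) * (N : ℝ) ^ 5 * WW Y w) ∧
  (∀ β : Fin 8 → ℕ, ∑ i, β i = 10 → (∃ i, Odd (β i)) → TT Y w β = 0)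

/-- [LAM] (: EX.S_SPM -> S_LAM).  Weighted copy of `EX/Lam.lean`. -/
def S_LAM : Prop := ∀ (m : ℕ) (Y : Finset (Fin 8 → ℤ)) (w : (Fin 8 → ℤ) → ℝ), 1 ≤ m → WInv (8 * (m : ℤ)) Y w →
  (∀ γ : Fin 8 → ℕ, ∑ i, γ i = 5 →
    215040 * TT Y w (fun i => 2 * γ i)
      = (∏ i, (Nat.doubleFactorial (2 * γ i - 1) : ℝ)) * (((8 * (m : ℤ) : ℤ) : ℝ)) ^ 5 * WW Y w) →
  (∀ β : Fin 8 → ℕ, ∑ i, β i = 10 → (∃ i, Odd (β i)) → TT Y w β = 0) →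
  Cubature 11 m Y w

/-- [AUT].  `rootSum` is invariant (`rootSum_aut` in `Q10/E8/MainB`). -/
def S_AUT : Prop := ∀ (m : ℕ) (φ : ℤ → ℝ),
  WInv (8 * (m : ℤ)) (shell m) (fun v => φ (rootSum v)) ∧ Ref (shell m) (fun v => φ (rootSum v))

/-- [RSF].  Closed form of `rootSum` (`rootSum_list`, or with `v = vec c`, `rootSum_vec`; `P` of `EX/Stm`). -/
def S_RSF : Prop := ∀ v : Fin 8 → ℤ, IsE8 v →
  512 * rootSum v = 672 * P 3 v * P 1 v + 420 * P 2 v ^ 2 - 720 * P 4 v - 420 * P 2 v * P 1 v ^ 2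
    + 105 * P 1 v ^ 4 + 40320 * ∏ i, v i

/-- [FAN] (: S_RSF -> S_FAN).  `v = 2 (a, x1, x2, x3, x4, 0, 0, 0)`, `a = ⌊√(2m)⌋ ≥ 25`, `∑ x^2 = R = 2m - a^2 ≤ 2a`
(`Nat.sum_four_squares`).  `rootSum v - 30 (a²+R)⁴ ≤ -(3/2)a⁸ + 6Ra⁶ + 135R²a⁴ + 202R³a² + 450R⁴`, negative for
`R ≤ 0.08 a²`. -/
def S_FAN : Prop := ∀ m : ℕ, 313 ≤ m → ∃ v, InShell m v ∧ rootSum v < 480 * (m : ℤ) ^ 4

/-- [FAP] (: S_RSF -> S_FAP).  `v = 2 (a, a, x1, x2, x3, x4, 0, 0)`, `a = ⌊√m⌋ ≥ 16`, `∑ x^2 = R = 2m - 2a^2 ≤ 4a`.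
`rootSum v ≥ 624 a⁸ + 672 a⁶ R`, `480 m⁴ = 480 (a² + R/2)⁴`, positive for `R ≤ a²/4`. -/
def S_FAP : Prop := ∀ m : ℕ, 256 ≤ m → ∃ v, InShell m v ∧ 480 * (m : ℤ) ^ 4 < rootSum v

/-- [SMN] (: S_RSF -> S_SMN).  Table of vectors, kernel computation. -/
def S_SMN : Prop := ∀ m : ℕ, m = 4 ∨ 7 ≤ m → m < 313 → ∃ v, InShell m v ∧ rootSum v < 480 * (m : ℤ) ^ 4

/-- [SMP] (: S_RSF -> S_SMP).  Table of vectors, kernel computation. -/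
def S_SMP : Prop := ∀ m : ℕ, m = 4 ∨ 7 ≤ m → m < 256 → ∃ v, InShell m v ∧ 480 * (m : ℤ) ^ 4 < rootSum v

/-- [ONE] (: S_RSF -> S_ONE).  Finite check: `|v_i| ≤ 6`, all entries of the same parity; by the multiset of the
absolute values and the sign of the product. -/
def S_ONE : Prop :=
  (∀ m : ℕ, m = 1 ∨ m = 3 ∨ m = 5 → ∀ v, InShell m v → 480 * (m : ℤ) ^ 4 < rootSum v) ∧
  (∀ m : ℕ, m = 2 ∨ m = 6 → ∀ v, InShell m v → rootSum v < 480 * (m : ℤ) ^ 4)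

/-- [NEC].  Cubature of degree 8 and `∑ w h = 0` (as in `Q10/E8/MainB`, line 139; `moments_int`). -/
def S_NEC : Prop := ∀ (m : ℕ) (Y : Finset (Fin 8 → ℤ)) (w : (Fin 8 → ℤ) → ℝ), (∀ v ∈ Y, InShell m v) →
  Cubature 8 m Y w → ∑ v ∈ Y, w v * ((rootSum v : ℝ) - 480 * (m : ℝ) ^ 4) = 0

/-- The final theorem. -/
def S_FIN : Prop := ∀ m : ℕ, 1 ≤ m →
  ((∃ w : (Fin 8 → ℤ) → ℝ, (∀ v ∈ shell m, 0 < w v) ∧ Cubature 11 m (shell m) w) ↔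
    ¬ (m = 1 ∨ m = 2 ∨ m = 3 ∨ m = 5 ∨ m = 6)) ∧
  ((∃ w : (Fin 8 → ℤ) → ℝ, (∀ v ∈ shell m, 0 ≤ w v) ∧ (∃ v ∈ shell m, w v ≠ 0) ∧ Cubature 8 m (shell m) w) ↔
    ¬ (m = 1 ∨ m = 2 ∨ m = 3 ∨ m = 5 ∨ m = 6))

end Pool.Agent.Helper17K9.WP
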