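import Pool.Agent.Helper17K9.WP.Stm
import Pool.Agent.Helper17K9.EX.Tsy

/-!
# [TEN], weighted (helper90, after helper27's `EX/Tsy.lean`)
-/

set_option autoImplicit false

namespace Pool.Agent.Helper17K9.WP

open Pool.Agent.Helper17K9.EX.TenL in
theorem ten (hT : S_TSY) : S_TEN := by
  intro N Y w H r1 r2 r3 r4 r5 r6 r7 r8
  obtain ⟨hp, hf, hn⟩ := hT N Y w H
  refine ⟨fun γ hγ => ?_, fun β hβ hodd => ?_⟩
  · obtain ⟨π, hπ⟩ := sorted γ
    have hs : ∑ i, γ (π i) = 5 := by rw [Equiv.sum_comp π γ, hγ]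
    have e1 : TT Y w (fun i => 2 * γ i) = TT Y w (fun i => 2 * γ (π i)) :=
      (hp (fun i => 2 * γ i) π).symm
    have e2 : (∏ i, (Nat.doubleFactorial (2 * γ i - 1) : ℝ)) =
        ∏ i, (Nat.doubleFactorial (2 * γ (π i) - 1) : ℝ) :=
      (Equiv.prod_comp π (fun i => (Nat.doubleFactorial (2 * γ i - 1) : ℝ))).symm
    rw [e1, e2]
    set δ : Fin 8 → ℕ := fun i => γ (π i) with hδ
    show 215040 * TT Y w (fun i => 2 * δ i) =
      (∏ i, (Nat.doubleFactorial (2 * δ i - 1) : ℝ)) * (N : ℝ) ^ 5 * WW Y w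
    have two : ∀ a0 a1 a2 a3 a4 : ℕ, (fun i => 2 * (![a0, a1, a2, a3, a4, 0, 0, 0] : Fin 8 → ℕ) i) =
        ![2 * a0, 2 * a1, 2 * a2, 2 * a3, 2 * a4, 0, 0, 0] := by
      intro a0 a1 a2 a3 a4
      funext i
      fin_cases i <;> rfl
    have pr : ∀ a0 a1 a2 a3 a4 : ℕ,
        (∏ i, (Nat.doubleFactorial (2 * (![a0, a1, a2, a3, a4, 0, 0, 0] : Fin 8 → ℕ) i - 1) : ℝ)) =
        (Nat.doubleFactorial (2 * a0 - 1) : ℝ) * (Nat.doubleFactorial (2 * a1 - 1) : ℝ) *
        (Nat.doubleFactorial (2 * a2 - 1) : ℝ) * (Nat.doubleFactorial (2 * a3 - 1) : ℝ) *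
        (Nat.doubleFactorial (2 * a4 - 1) : ℝ) := by
      intro a0 a1 a2 a3 a4
      rw [Fin.prod_univ_eight]
      show (Nat.doubleFactorial (2 * a0 - 1) : ℝ) * (Nat.doubleFactorial (2 * a1 - 1) : ℝ) *
        (Nat.doubleFactorial (2 * a2 - 1) : ℝ) * (Nat.doubleFactorial (2 * a3 - 1) : ℝ) *
        (Nat.doubleFactorial (2 * a4 - 1) : ℝ) * (Nat.doubleFactorial 0 : ℝ) *
        (Nat.doubleFactorial 0 : ℝ) * (Nat.doubleFactorial 0 : ℝ) = _
      simp [Nat.doubleFactorial]
    rcases seven hπ hs with h | h | h | h | h | h | h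
    · have h' : δ = ![5, 0, 0, 0, 0, 0, 0, 0] := h
      rw [h', two, pr, r1]
      norm_num [Nat.doubleFactorial]
    · have h' : δ = ![4, 1, 0, 0, 0, 0, 0, 0] := h
      rw [h', two, pr, r2]
      norm_num [Nat.doubleFactorial]
    · have h' : δ = ![3, 2, 0, 0, 0, 0, 0, 0] := h
      rw [h', two, pr, r3]
      norm_num [Nat.doubleFactorial]
    · have h' : δ = ![3, 1, 1, 0, 0, 0, 0, 0] := h
      rw [h', two, pr, r4]
      norm_num [Nat.doubleFactorial]
    · have h' : δ = ![2, 2, 1, 0, 0, 0, 0, 0] := h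
      rw [h', two, pr, r5]
      norm_num [Nat.doubleFactorial]
    · have h' : δ = ![2, 1, 1, 1, 0, 0, 0, 0] := h
      rw [h', two, pr, r6]
      norm_num [Nat.doubleFactorial]
    · have h' : δ = ![1, 1, 1, 1, 1, 0, 0, 0] := h
      rw [h', two, pr, r7]
      norm_num [Nat.doubleFactorial]
  · by_cases hev : ∃ i, Even (β i)
    · obtain ⟨i, hi⟩ := hev
      obtain ⟨j, hj⟩ := hodd
      exact hf β i j hi hj
    · push Not at hev
      have hod : ∀ i, Odd (β i) := fun i => Nat.not_even_iff_odd.1 (hev i)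
      choose c hc using hod
      have hsc : ∑ i, c i = 1 := by
        have : ∑ i, β i = 2 * (∑ i, c i) + 8 := by
          rw [Finset.mul_sum]
          have e : ∀ i ∈ (Finset.univ : Finset (Fin 8)), β i = 2 * c i + 1 := fun i _ => hc i
          rw [Finset.sum_congr rfl e, Finset.sum_add_distrib]
          simp
        omega
      obtain ⟨i0, hi0⟩ : ∃ i0, 0 < c i0 := by
        by_contra h
        push Not at h
        have : ∑ i, c i = 0 := Finset.sum_eq_zero fun i _ => by have := h i; omega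
        omega
      have h1 : c i0 ≤ ∑ i, c i := Finset.single_le_sum (fun _ _ => Nat.zero_le _) (Finset.mem_univ _)
      have hz : ∀ l, l ≠ i0 → c l = 0 := by
        intro l hl
        have h2 : c i0 + c l ≤ ∑ i, c i := by
          rw [← Finset.sum_pair (f := c) (Ne.symm hl)]
          exact Finset.sum_le_sum_of_subset (Finset.subset_univ _)
        omega
      have hβ' : β = fun l => if l = i0 then 1 + 2 else 1 := by
        funext l
        by_cases h : l = i0
        · subst h
          rw [if_pos rfl, hc l]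
          omega
        · rw [if_neg h, hc l, hz l h, mul_zero, zero_add]
      have h0 : TT Y w (fun _ => 1) = 0 := by
        have e8 : (fun _ => 1 : Fin 8 → ℕ) = ![1, 1, 1, 1, 1, 1, 1, 1] := by
          funext i
          fin_cases i <;> rfl
        rw [e8]
        exact r8
      have hn1 := hn (fun _ => 1)
      rw [h0, mul_zero] at hn1
      have heq : ∀ i, TT Y w (fun l => if l = i then 1 + 2 else 1) =
          TT Y w (fun l => if l = i0 then 1 + 2 else 1) := by
        intro i
        have h3 := hp (fun l => if l = i0 then 1 + 2 else 1) (Equiv.swap i i0)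
        rw [← h3]
        congr 1
        funext l
        have h4 : (l = i) ↔ (Equiv.swap i i0 l = i0) := by
          constructor
          · rintro rfl; exact Equiv.swap_apply_left _ _
          · intro h
            have := congrArg (Equiv.swap i i0) h
            rwa [Equiv.swap_apply_self, Equiv.swap_apply_right] at this
        by_cases h : l = i
        · rw [if_pos h, if_pos (h4.1 h)]
        · rw [if_neg h, if_neg (fun h5 => h (h4.2 h5))]
      rw [Finset.sum_congr rfl fun i _ => heq i, Finset.sum_const, Finset.card_univ,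
        Fintype.card_fin] at hn1
      rw [hβ']
      have h5 : (8 : ℝ) * TT Y w (fun l => if l = i0 then 1 + 2 else 1) = 0 := by
        rw [hn1]; simp
      linarith

end Pool.Agent.Helper17K9.WP
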