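import Pool.Agent.Helper17K9.WP.Stm

/-!
# [TSY], weighted
-/

set_option autoImplicit false

namespace Pool.Agent.Helper17K9.WP

namespace TsL

lemma perm {N : ℤ} {Y : Finset (Fin 8 → ℤ)} {w : (Fin 8 → ℤ) → ℝ} (H : WInv N Y w) (β : Fin 8 → ℕ)
    (π : Equiv.Perm (Fin 8)) : TT Y w (fun i => β (π i)) = TT Y w β := by
  unfold TT
  refine Finset.sum_nbij' (fun v i => v (π.symm i)) (fun v i => v (π i)) ?_ ?_ ?_ ?_ ?_
  · intro v hv
    exact (H.1 v hv π.symm).1
  · intro v hv
    exact (H.1 v hv π).1
  · intro v _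
    funext i
    simp
  · intro v _
    funext i
    simp
  · intro v hv
    have h := Equiv.prod_comp π (fun j => (v (π.symm j) : ℝ) ^ β j)
    simp only [Equiv.symm_apply_apply] at h
    have h2 := (H.1 v hv π.symm).2
    show w v * _ = w (fun i => v (π.symm i)) * _
    rw [h2, h]

lemma flp {N : ℤ} {Y : Finset (Fin 8 → ℤ)} {w : (Fin 8 → ℤ) → ℝ} (H : WInv N Y w) (β : Fin 8 → ℕ)
    (i j : Fin 8) (hi : Even (β i)) (hj : Odd (β j)) : TT Y w β = 0 := by
  have hij : i ≠ j := by
    rintro rfl
    exact (Nat.not_even_iff_odd.2 hj) hi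
  have h1 : TT Y w β = - TT Y w β := by
    unfold TT
    rw [← Finset.sum_neg_distrib]
    refine Finset.sum_nbij' (fun v => flip i j v) (fun v => flip i j v) ?_ ?_ ?_ ?_ ?_
    · intro v hv
      exact (H.2.1 v hv i j hij).1
    · intro v hv
      exact (H.2.1 v hv i j hij).1
    · intro v _
      funext l
      unfold flip
      by_cases h : l = i ∨ l = j
      · simp only [h, if_true, neg_neg]
      · simp only [h, if_false]
    · intro v _
      funext l
      unfold flip
      by_cases h : l = i ∨ l = j
      · simp only [h, if_true, neg_neg]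
      · simp only [h, if_false]
    · intro v hv
      have e : ∀ l, ((flip i j v l : ℤ) : ℝ) ^ β l =
          (if l = j then (-1) else 1) * (v l : ℝ) ^ β l := by
        intro l
        unfold flip
        by_cases h : l = i
        · subst h
          rw [if_pos (Or.inl rfl), if_neg hij, one_mul]
          push_cast
          rw [hi.neg_pow]
        · by_cases h2 : l = j
          · subst h2
            rw [if_pos (Or.inr rfl), if_pos rfl]
            push_cast
            rw [hj.neg_pow]
            ring
          · rw [if_neg (by tauto), if_neg h2, one_mul]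
      show w v * _ = -(w (flip i j v) * _)
      rw [(H.2.1 v hv i j hij).2]
      simp only [e]
      rw [Finset.prod_mul_distrib, Finset.prod_ite_eq']
      simp
  linarith

lemma norm {N : ℤ} {Y : Finset (Fin 8 → ℤ)} {w : (Fin 8 → ℤ) → ℝ} (H : WInv N Y w) (β : Fin 8 → ℕ) :
    (N : ℝ) * TT Y w β = ∑ i, TT Y w (fun l => if l = i then β l + 2 else β l) := by
  unfold TT
  rw [Finset.mul_sum, Finset.sum_comm]
  refine Finset.sum_congr rfl fun v hv => ?_
  have hN : (N : ℝ) = ∑ i, (v i : ℝ) ^ 2 := by
    rw [← H.2.2 v hv]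
    push_cast
    rfl
  rw [hN, Finset.sum_mul]
  refine Finset.sum_congr rfl fun i _ => ?_
  have e : ∀ l, (v l : ℝ) ^ (if l = i then β l + 2 else β l) =
      (if l = i then (v i : ℝ) ^ 2 else 1) * (v l : ℝ) ^ β l := by
    intro l
    by_cases h : l = i
    · subst h
      rw [if_pos rfl, if_pos rfl]
      ring
    · rw [if_neg h, if_neg h, one_mul]
  simp only [e]
  rw [Finset.prod_mul_distrib, Finset.prod_ite_eq']
  simp
  ring

end TsL

theorem tsy : S_TSY := fun _ _ _ H => ⟨TsL.perm H, TsL.flp H, TsL.norm H⟩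

end Pool.Agent.Helper17K9.WP
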